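import Pool.Agent.H66.SP.Defs

/-!
# SP-9: graphs on `V ⊕ R` and triples; invariance under isomorphisms

`glueEquiv`: the inverse of `(G, b, H) ↦ glue G b H` sends `K` to `(K.comap inl,
fun i u => decide (K.Adj (inl u) (inr i)), K.comap inr)`.

`card_filter_glue`: sum over `G`, `H` of the number of `b`.

`mult_iso`: for `φ : G ≃g H`, the linear equivalence `x ↦ x ∘ φ.symm` (`LinearEquiv.funCongrLeft`)
maps `eig (adj K G) μ` onto `eig (adj K H) μ`.

`full_iso`: for `φ : G ≃g H`, the same linear equivalence over `ℤ` maps `A_G^k e_i` to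
`A_H^k e_{φ i}`.
-/

set_option autoImplicit false

namespace Pool.Agent.H66.SP

open Matrix Classical

theorem glue_bijective (V R : Type*) :
    Function.Bijective (fun x : SimpleGraph V × (R → V → Bool) × SimpleGraph R =>
      (glue x.1 x.2.1 x.2.2 : SimpleGraph (V ⊕ R))) := by
  constructor
  · rintro ⟨G, b, H⟩ ⟨G', b', H'⟩ h
    have h' : (glue G b H : SimpleGraph (V ⊕ R)) = glue G' b' H' := h
    have key : ∀ x y, (glue G b H).Adj x y ↔ (glue G' b' H').Adj x y := fun x y => by rw [h']
    have hG : G = G' := by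
      ext u v
      exact key (Sum.inl u) (Sum.inl v)
    have hH : H = H' := by
      ext i j
      exact key (Sum.inr i) (Sum.inr j)
    have hb : b = b' := by
      funext i u
      have h1 : b i u = true ↔ b' i u = true := key (Sum.inl u) (Sum.inr i)
      exact Bool.eq_iff_iff.mpr h1
    rw [hG, hb, hH]
  · intro K
    refine ⟨(K.comap Sum.inl, fun i u => decide (K.Adj (Sum.inl u) (Sum.inr i)), K.comap Sum.inr),
      ?_⟩
    ext x y
    match x, y with
    | .inl u, .inl v => exact Iff.rfl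
    | .inl u, .inr i => exact decide_eq_true_iff
    | .inr i, .inl u => exact decide_eq_true_iff.trans ⟨fun h => h.symm, fun h => h.symm⟩
    | .inr i, .inr j => exact Iff.rfl

theorem card_graph_sum (V R : Type*) [Fintype V] [DecidableEq V] [Fintype R] [DecidableEq R] :
    Fintype.card (SimpleGraph (V ⊕ R)) =
      Fintype.card (SimpleGraph V) * Fintype.card (SimpleGraph R) *
        2 ^ (Fintype.card V * Fintype.card R) := by
  have h := Fintype.card_congr (Equiv.ofBijective _ (glue_bijective V R))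
  rw [← h, Fintype.card_prod, Fintype.card_prod]
  have h2 : Fintype.card (R → V → Bool) = 2 ^ (Fintype.card V * Fintype.card R) := by
    rw [Fintype.card_fun, Fintype.card_fun, Fintype.card_bool, pow_mul]
  rw [h2]
  ring

theorem card_filter_glue {V R : Type*} [Fintype V] [DecidableEq V] [Fintype R] [DecidableEq R]
    (P : SimpleGraph (V ⊕ R) → Prop) :
    ((Finset.univ : Finset (SimpleGraph (V ⊕ R))).filter P).card =
      ∑ G : SimpleGraph V, ∑ H : SimpleGraph R,
        ((Finset.univ : Finset (R → V → Bool)).filter (fun b => P (glue G b H))).card := by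
  have h := (glue_bijective V R).sum_comp (fun K : SimpleGraph (V ⊕ R) => if P K then (1 : ℕ) else 0)
  rw [Finset.card_filter, ← h, Fintype.sum_prod_type]
  refine Finset.sum_congr rfl fun G _ => ?_
  rw [Fintype.sum_prod_type, Finset.sum_comm]
  refine Finset.sum_congr rfl fun H _ => ?_
  rw [Finset.card_filter]

lemma gequiv_adj {K : Type*} [Zero K] [One K] {V W : Type*} {G : SimpleGraph V}
    {H : SimpleGraph W} (φ : G ≃g H) (u v : V) : adj K H (φ u) (φ v) = adj K G u v := by
  simp only [adj, Matrix.of_apply, φ.map_adj_iff]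

lemma gequiv_mulVec {K : Type*} [Semiring K] {V W : Type*} [Fintype V] [Fintype W]
    {G : SimpleGraph V} {H : SimpleGraph W} (φ : G ≃g H) (x : V → K) :
    adj K H *ᵥ (x ∘ φ.symm) = (adj K G *ᵥ x) ∘ φ.symm := by
  funext w
  change ∑ z : W, adj K H w z * x (φ.symm z) = ∑ v : V, adj K G (φ.symm w) v * x v
  rw [← φ.toEquiv.sum_comp (fun z => adj K H w z * x (φ.symm z))]
  refine Finset.sum_congr rfl fun v _ => ?_
  change adj K H w (φ v) * x (φ.symm (φ v)) = _
  rw [φ.symm_apply_apply]
  have h1 := gequiv_adj (K := K) φ (φ.symm w) v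
  rw [φ.apply_symm_apply] at h1
  rw [h1]

theorem mult_iso {K : Type*} [Field K] {V W : Type*} [Fintype V] [Fintype W]
    [DecidableEq V] [DecidableEq W] {G : SimpleGraph V} {H : SimpleGraph W} (φ : G ≃g H) (μ : K) :
    mult (adj K G) μ = mult (adj K H) μ := by
  have e1 : eig (adj K H) μ = (eig (adj K G) μ).map
      (LinearEquiv.funCongrLeft K K φ.symm.toEquiv : (V → K) →ₗ[K] (W → K)) := by
    ext y
    rw [Submodule.mem_map, mem_eig]
    constructor
    · intro hy
      refine ⟨y ∘ φ, ?_, ?_⟩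
      · rw [mem_eig]
        have h1 := gequiv_mulVec (K := K) φ.symm y
        have h2 : (y ∘ φ.symm.symm) = y ∘ φ := rfl
        rw [h2] at h1
        rw [h1, hy]
        rfl
      · funext w
        change y (φ (φ.symm w)) = y w
        rw [φ.apply_symm_apply]
    · rintro ⟨x, hx, rfl⟩
      rw [mem_eig] at hx
      have h1 := gequiv_mulVec (K := K) φ x
      change adj K H *ᵥ (x ∘ φ.symm) = μ • (x ∘ φ.symm)
      rw [h1, hx]
      rfl
  unfold mult
  rw [e1]
  exact (LinearEquiv.finrank_map_eq (LinearEquiv.funCongrLeft K K φ.symm.toEquiv) _).symm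

theorem multOK_iso {V W : Type*} [Fintype V] [Fintype W] [DecidableEq V] [DecidableEq W]
    {G : SimpleGraph V} {H : SimpleGraph W} (φ : G ≃g H) (t s : ℕ) :
    MultOK t s G ↔ MultOK t s H := by
  unfold MultOK
  constructor
  · rintro ⟨h1, h2⟩
    exact ⟨fun μ => (mult_iso φ μ) ▸ h1 μ, fun p _ μ => (mult_iso φ μ) ▸ h2 p μ⟩
  · rintro ⟨h1, h2⟩
    exact ⟨fun μ => (mult_iso φ μ).symm ▸ h1 μ, fun p _ μ => (mult_iso φ μ).symm ▸ h2 p μ⟩

lemma gequiv_pow {K : Type*} [CommRing K] {V W : Type*} [Fintype V] [Fintype W]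
    [DecidableEq V] [DecidableEq W] {G : SimpleGraph V} {H : SimpleGraph W} (φ : G ≃g H) (k : ℕ)
    (x : V → K) : (adj K H ^ k) *ᵥ (x ∘ φ.symm) = ((adj K G ^ k) *ᵥ x) ∘ φ.symm := by
  induction k generalizing x with
  | zero => rw [pow_zero, pow_zero, Matrix.one_mulVec, Matrix.one_mulVec]
  | succ k ih =>
    rw [pow_succ, pow_succ, ← Matrix.mulVec_mulVec, ← Matrix.mulVec_mulVec, gequiv_mulVec, ih]

lemma gequiv_full {V W : Type*} [Fintype V] [Fintype W] [DecidableEq V] [DecidableEq W]
    {G : SimpleGraph V} {H : SimpleGraph W} (φ : G ≃g H) (R : Set V) (h : Full G R) :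
    Full H (φ '' R) := by
  unfold Full at h ⊢
  have h1 := congrArg (Submodule.map
    (LinearEquiv.funCongrLeft ℤ ℤ φ.symm.toEquiv : (V → ℤ) →ₗ[ℤ] (W → ℤ))) h
  rw [Submodule.map_span, Submodule.map_top, LinearMap.range_eq_top.mpr
    (LinearEquiv.funCongrLeft ℤ ℤ φ.symm.toEquiv).surjective] at h1
  rw [← h1]
  congr 1
  ext y
  rw [Set.mem_image]
  constructor
  · rintro ⟨k, w, ⟨i, hi, rfl⟩, rfl⟩
    refine ⟨(adj ℤ G ^ k) *ᵥ Pi.single i 1, ⟨k, i, hi, rfl⟩, ?_⟩
    have h2 := gequiv_pow (K := ℤ) φ k (Pi.single i 1)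
    have h3 : (Pi.single i (1 : ℤ) : V → ℤ) ∘ φ.symm = Pi.single (φ i) 1 := by
      funext w
      rw [Function.comp_apply, Pi.single_apply, Pi.single_apply]
      congr 1
      exact propext ⟨fun hw => by rw [← hw, φ.apply_symm_apply],
        fun hw => by rw [hw, φ.symm_apply_apply]⟩
    rw [h3] at h2
    exact h2.symm
  · rintro ⟨z, ⟨k, i, hi, rfl⟩, rfl⟩
    refine ⟨k, φ i, ⟨i, hi, rfl⟩, ?_⟩
    have h2 := gequiv_pow (K := ℤ) φ k (Pi.single i 1)
    have h3 : (Pi.single i (1 : ℤ) : V → ℤ) ∘ φ.symm = Pi.single (φ i) 1 := by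
      funext w
      rw [Function.comp_apply, Pi.single_apply, Pi.single_apply]
      congr 1
      exact propext ⟨fun hw => by rw [← hw, φ.apply_symm_apply],
        fun hw => by rw [hw, φ.symm_apply_apply]⟩
    rw [h3] at h2
    exact h2.symm

theorem full_iso {V W : Type*} [Fintype V] [Fintype W] [DecidableEq V] [DecidableEq W]
    {G : SimpleGraph V} {H : SimpleGraph W} (φ : G ≃g H) (R : Set V) :
    Full G R ↔ Full H (φ '' R) := by
  constructor
  · exact gequiv_full φ R
  · intro h
    have h1 := gequiv_full φ.symm (φ '' R) h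
    have h2 : φ.symm '' (φ '' R) = R := by
      rw [Set.image_image]
      simp
    rwa [h2] at h1

end Pool.Agent.H66.SP
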