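import Pool.Agent.H66.SP.Trans
import Pool.Agent.H66.SP.GEquiv

/-!
# SP-10: almost all graphs have small multiplicities in all characteristics

PROOF.  Fix `n, t, m` as in the statement and put `δ = n / 2^t + 2 n^4 / 2^(m+1)`.  By induction on
`k ≤ n`: the number `B k` of `G : SimpleGraph (Fin k)` with `¬ MultOK t (m+1) G` is at most
`k δ card (SimpleGraph (Fin k))`.  For `k = 0` every graph is OK (all multiplicities are `0`).
Step: transport along `Fin (k+1) ≃ Fin k ⊕ Unit` (`finSumFinEquiv`/`finSuccEquivLast`..., and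
`Equiv.simpleGraph`, `multOK_iso`); by `card_filter_glue` with `R = Unit` (where
`SimpleGraph Unit` has the single element `⊥`),
`B (k+1) = ∑_G #{b | ¬ MultOK (ext G b)} ≤ B k * 2^k + card (SimpleGraph (Fin k)) * 2^k * δ`
by `card_trans_le` (its bound is monotone in `card V = k ≤ n`) and
`card (SimpleGraph (Fin (k+1))) = card (SimpleGraph (Fin k)) * 2^k`.
-/

set_option autoImplicit false

namespace Pool.Agent.H66.SP

open Matrix Classical

theorem rec_card_equiv {V W : Type*} [Fintype V] [Fintype W] [DecidableEq V] [DecidableEq W]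
    (e : V ≃ W) (t s : ℕ) :
    ((Finset.univ : Finset (SimpleGraph V)).filter (fun G => ¬ MultOK t s G)).card =
      ((Finset.univ : Finset (SimpleGraph W)).filter (fun G => ¬ MultOK t s G)).card := by
  refine Finset.card_equiv e.simpleGraph (fun G => ?_)
  simp only [Finset.mem_filter, Finset.mem_univ, true_and]
  have h : MultOK t s (e.simpleGraph G) ↔ MultOK t s G := by
    apply multOK_iso
    exact SimpleGraph.Iso.comap e.symm G
  rw [h]

theorem rec_unit (H : SimpleGraph Unit) : H = ⊥ := by
  ext a b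
  have hab : a = b := Subsingleton.elim a b
  subst hab
  simp

theorem rec_card_unit : Fintype.card (SimpleGraph Unit) = 1 := by
  rw [Fintype.card_eq_one_iff]
  exact ⟨⊥, rec_unit⟩

theorem rec_card_step (k t s : ℕ) :
    ((Finset.univ : Finset (SimpleGraph (Fin (k + 1)))).filter (fun G => ¬ MultOK t s G)).card =
      ∑ G : SimpleGraph (Fin k), ((Finset.univ : Finset (Fin k → Bool)).filter
        (fun b => ¬ MultOK t s (ext G b))).card := by
  have e : Fin (k + 1) ≃ Fin k ⊕ Unit :=
    finSuccEquivLast.trans (Equiv.optionEquivSumPUnit.{0} (Fin k))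
  have h1 : ((Finset.univ : Finset (SimpleGraph (Fin k ⊕ Unit))).filter
      (fun G => ¬ MultOK t s G)).card = ∑ G : SimpleGraph (Fin k), ∑ H : SimpleGraph Unit,
        ((Finset.univ : Finset (Unit → Fin k → Bool)).filter
          (fun b => ¬ MultOK t s (glue G b H))).card := by
    convert card_filter_glue (V := Fin k) (R := Unit) (fun G => ¬ MultOK t s G)
  rw [rec_card_equiv e t s, h1]
  refine Finset.sum_congr rfl (fun G _ => ?_)
  rw [Finset.sum_eq_single (⊥ : SimpleGraph Unit)]
  · refine Finset.card_equiv (Equiv.funUnique Unit (Fin k → Bool)) (fun b => ?_)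
    simp only [Finset.mem_filter, Finset.mem_univ, true_and]
    have h : glue G b ⊥ = ext G ((Equiv.funUnique Unit (Fin k → Bool)) b) := by
      unfold ext
      congr 1
    rw [h]
  · intro H _ hH
    exact absurd (rec_unit H) hH
  · intro h
    exact absurd (Finset.mem_univ _) h

theorem rec_card_succ (k : ℕ) : Fintype.card (SimpleGraph (Fin (k + 1))) =
    Fintype.card (SimpleGraph (Fin k)) * 2 ^ k := by
  have e : Fin (k + 1) ≃ Fin k ⊕ Unit :=
    finSuccEquivLast.trans (Equiv.optionEquivSumPUnit.{0} (Fin k))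
  rw [Fintype.card_congr e.simpleGraph, card_graph_sum, rec_card_unit]
  simp

theorem rec_zero (t s : ℕ) (G : SimpleGraph (Fin 0)) : MultOK t s G := by
  constructor
  · intro μ
    have h : mult (adj ℂ G) μ ≤ 0 := by
      unfold mult
      refine (Submodule.finrank_le _).trans ?_
      simp
    omega
  · intro p _ μ
    have h : mult (adj (KK p) G) μ ≤ 0 := by
      unfold mult
      refine (Submodule.finrank_le _).trans ?_
      simp
    omega

theorem rec_aux (n t m : ℕ) (ht : 1 ≤ t) (hm : n * (2 ^ m * 3 ^ t) < 3 ^ m) (k : ℕ)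
    (hk : k ≤ n) :
    (((Finset.univ : Finset (SimpleGraph (Fin k))).filter
      (fun G => ¬ MultOK t (m + 1) G)).card : ℝ) ≤
      k * ((n : ℝ) / 2 ^ t + 2 * (n : ℝ) ^ 4 / 2 ^ (m + 1)) *
        (Fintype.card (SimpleGraph (Fin k)) : ℝ) := by
  induction k with
  | zero =>
    have h : (Finset.univ : Finset (SimpleGraph (Fin 0))).filter
        (fun G => ¬ MultOK t (m + 1) G) = ∅ := by
      rw [Finset.filter_eq_empty_iff]
      intro G _ h
      exact h (rec_zero t (m + 1) G)
    rw [h]
    simp
  | succ k ih =>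
    have ih' := ih (by omega)
    set δ : ℝ := (n : ℝ) / 2 ^ t + 2 * (n : ℝ) ^ 4 / 2 ^ (m + 1) with hδ
    rw [rec_card_step, rec_card_succ]
    have hkn : (k : ℝ) ≤ n := by exact_mod_cast (by omega : k ≤ n)
    have hδk : (k : ℝ) / 2 ^ t + 2 * (k : ℝ) ^ 4 / 2 ^ (m + 1) ≤ δ := by
      rw [hδ]
      gcongr
    have hδ0 : 0 ≤ δ := by
      rw [hδ]
      positivity
    have hmk : Fintype.card (Fin k) * (2 ^ m * 3 ^ t) < 3 ^ m := by
      rw [Fintype.card_fin]
      exact lt_of_le_of_lt (Nat.mul_le_mul_right _ (by omega)) hm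
    have key : ∀ G : SimpleGraph (Fin k),
        (((Finset.univ : Finset (Fin k → Bool)).filter
          (fun b => ¬ MultOK t (m + 1) (ext G b))).card : ℝ) ≤
        (if ¬ MultOK t (m + 1) G then (2 : ℝ) ^ k else 0) + 2 ^ k * δ := by
      intro G
      by_cases hG : MultOK t (m + 1) G
      · rw [if_neg (not_not.mpr hG), zero_add]
        have h := card_trans_le t m ht G hG hmk
        rw [Fintype.card_fin] at h
        refine h.trans ?_
        gcongr
      · rw [if_pos hG]
        have h : ((Finset.univ : Finset (Fin k → Bool)).filter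
          (fun b => ¬ MultOK t (m + 1) (ext G b))).card ≤ 2 ^ k := by
          refine (Finset.card_filter_le _ _).trans ?_
          rw [Finset.card_univ, Fintype.card_fun, Fintype.card_bool, Fintype.card_fin]
        have h' : (((Finset.univ : Finset (Fin k → Bool)).filter
          (fun b => ¬ MultOK t (m + 1) (ext G b))).card : ℝ) ≤ 2 ^ k := by exact_mod_cast h
        have h2 : (0 : ℝ) ≤ 2 ^ k * δ := by positivity
        linarith
    rw [Nat.cast_sum]
    refine (Finset.sum_le_sum (fun G _ => key G)).trans ?_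
    rw [Finset.sum_add_distrib, ← Finset.sum_filter, Finset.sum_const, Finset.sum_const,
      nsmul_eq_mul, nsmul_eq_mul, Finset.card_univ]
    have h2k : (0 : ℝ) < 2 ^ k := by positivity
    have h3 := mul_le_mul_of_nonneg_right ih' h2k.le
    push_cast
    nlinarith [h3]

theorem card_not_multOK_le (n t m : ℕ) (ht : 1 ≤ t) (hm : n * (2 ^ m * 3 ^ t) < 3 ^ m) :
    (((Finset.univ : Finset (SimpleGraph (Fin n))).filter
      (fun G => ¬ MultOK t (m + 1) G)).card : ℝ) ≤
      n * ((n : ℝ) / 2 ^ t + 2 * (n : ℝ) ^ 4 / 2 ^ (m + 1)) *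
        (Fintype.card (SimpleGraph (Fin n)) : ℝ) :=
  rec_aux n t m ht hm n le_rfl

end Pool.Agent.H66.SP
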