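import Pool.Agent.H66.SP.Defs

/-!
# SP-5: controlled pairs have full Krylov space

PROOF.  Let `k = Fintype.card V` and `U = {x | ∀ j (all of ℕ), ∀ i, (A^j *ᵥ v i) ⬝ᵥ x = 0}`.
`U` is a subspace stable under `A` (as `A` is symmetric, `(A^j v) · (A x) = (A^(j+1) v) · x`).
If `U ≠ ⊥` then, `K` being algebraically closed, the restriction of `A.mulVecLin` to `U` has an
eigenvector (`Module.End.exists_eigenvalue` for `LinearMap.restrict`), i.e. `x ≠ 0`, `x ∈ U`,
`A *ᵥ x = μ • x`; for `j = 0` we get `v i ⬝ᵥ x = 0`, contradicting `h`.  So `U = ⊥`.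
By Cayley-Hamilton every `A^j` is a linear combination of `A^0, ..., A^(k-1)`
(`Matrix.pow_eq_aeval_mod_charpoly`: `A^j = aeval A (X^j %ₘ A.charpoly)`), so an `x` orthogonal to
all `A^j *ᵥ v i` with `j < k` is in `U`, so is `0`; hence the span of these vectors, whose
orthogonal complement for the dot product is `⊥`, is `⊤`.  (If the span `W` is not `⊤`, there is a
nonzero linear functional `f` vanishing on `W`: `Submodule.exists_le_ker_of_lt_top`; every
functional on `V → K` is `y ↦ y ⬝ᵥ x` with `x v = f (Pi.single v 1)`.)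
For `card V = 0` everything is trivial (the space is a singleton).
-/

set_option autoImplicit false

namespace Pool.Agent.H66.SP

open Matrix Classical

/-- vectors orthogonal to all `A^j v_i` -/
def kryOrth {K : Type*} [Field K] {V : Type*} [Fintype V] [DecidableEq V]
    (A : Matrix V V K) {ι : Type*} (v : ι → V → K) : Submodule K (V → K) where
  carrier := {x | ∀ (j : ℕ) (i : ι), ((A ^ j) *ᵥ (v i)) ⬝ᵥ x = 0}
  add_mem' := by
    intro x y hx hy j i
    rw [dotProduct_add, hx j i, hy j i, add_zero]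
  zero_mem' := by
    intro j i
    exact dotProduct_zero _
  smul_mem' := by
    intro c x hx j i
    rw [dotProduct_smul, hx j i, smul_zero]

theorem mem_kryOrth {K : Type*} [Field K] {V : Type*} [Fintype V] [DecidableEq V]
    (A : Matrix V V K) {ι : Type*} (v : ι → V → K) (x : V → K) :
    x ∈ kryOrth A v ↔ ∀ (j : ℕ) (i : ι), ((A ^ j) *ᵥ (v i)) ⬝ᵥ x = 0 := Iff.rfl

theorem kryOrth_stable {K : Type*} [Field K] {V : Type*} [Fintype V] [DecidableEq V]
    (A : Matrix V V K) (hA : A.IsSymm) {ι : Type*} (v : ι → V → K) (x : V → K)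
    (hx : x ∈ kryOrth A v) : A.mulVecLin x ∈ kryOrth A v := by
  rw [mem_kryOrth] at *
  intro j i
  have h := hx (j + 1) i
  rw [mulVecLin_apply, dotProduct_mulVec, ← mulVec_transpose, hA.eq, mulVec_mulVec,
    ← pow_succ']
  exact h

theorem kryOrth_eq_bot {K : Type*} [Field K] [IsAlgClosed K] {V : Type*} [Fintype V]
    [DecidableEq V] (A : Matrix V V K) (hA : A.IsSymm) {ι : Type*} (v : ι → V → K)
    (h : Ctl A v) : kryOrth A v = ⊥ := by
  by_contra hne
  have hnt : Nontrivial (kryOrth A v) := (Submodule.nontrivial_iff_ne_bot).2 hne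
  let g : Module.End K (kryOrth A v) :=
    A.mulVecLin.restrict (fun x hx => kryOrth_stable A hA v x hx)
  obtain ⟨μ, hμ⟩ := Module.End.exists_eigenvalue g
  obtain ⟨x, hx⟩ := hμ.exists_hasEigenvector
  have h1 : g x = μ • x := hx.apply_eq_smul
  have h2 : A *ᵥ (x : V → K) = μ • (x : V → K) := by
    have := congrArg Subtype.val h1
    simpa [g] using this
  have h3 : (x : V → K) = 0 := by
    apply h μ x ((mem_eig A μ x).2 h2)
    intro i
    have := x.2 0 i
    simpa using this
  exact hx.2 (Subtype.ext h3)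

theorem krylov_top {K : Type*} [Field K] [IsAlgClosed K] {V : Type*} [Fintype V] [DecidableEq V]
    (A : Matrix V V K) (hA : A.IsSymm) {ι : Type*} (v : ι → V → K) (h : Ctl A v) :
    Submodule.span K {y : V → K | ∃ j < Fintype.card V, ∃ i, y = (A ^ j) *ᵥ (v i)} = ⊤ := by
  rcases isEmpty_or_nonempty V with hV | hV
  · exact Subsingleton.elim _ _
  by_contra hne
  obtain ⟨f, hf0, hf⟩ := Submodule.exists_le_ker_of_lt_top _ (lt_top_iff_ne_top.2 hne)
  let x : V → K := fun w => f (Pi.single w 1)
  have hfx : ∀ y : V → K, f y = y ⬝ᵥ x := by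
    intro y
    have h1 : y = ∑ w, y w • (Pi.single w (1 : K) : V → K) := by
      ext u
      rw [Finset.sum_apply]
      simp [Pi.single_apply]
    conv_lhs => rw [h1]
    rw [map_sum]
    simp only [map_smul, smul_eq_mul, dotProduct, x]
  have hlow : ∀ j < Fintype.card V, ∀ i, ((A ^ j) *ᵥ (v i)) ⬝ᵥ x = 0 := by
    intro j hj i
    rw [← hfx]
    exact hf (Submodule.subset_span ⟨j, hj, i, rfl⟩)
  have hx : x ∈ kryOrth A v := by
    rw [mem_kryOrth]
    intro j i
    rw [Matrix.pow_eq_aeval_mod_charpoly]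
    set q := (Polynomial.X ^ j %ₘ A.charpoly) with hq
    have hdeg : q.natDegree < Fintype.card V := by
      have h1 : A.charpoly.natDegree = Fintype.card V := Matrix.charpoly_natDegree_eq_dim A
      rw [← h1]
      apply Polynomial.natDegree_modByMonic_lt _ (Matrix.charpoly_monic A)
      intro h2
      rw [h2, Polynomial.natDegree_one] at h1
      exact Fintype.card_ne_zero h1.symm
    rw [Polynomial.aeval_eq_sum_range' hdeg, Matrix.sum_mulVec, sum_dotProduct]
    apply Finset.sum_eq_zero
    intro k hk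
    rw [Matrix.smul_mulVec, smul_dotProduct, hlow k (Finset.mem_range.1 hk) i, smul_zero]
  rw [kryOrth_eq_bot A hA v h, Submodule.mem_bot] at hx
  apply hf0
  ext w
  simp [hfx, hx]

end Pool.Agent.H66.SP
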