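import Pool.Agent.H66.SP.Defs

/-!
# SP-13: equal moments at `R` and full span give an isomorphism fixing `R`

PROOF.  Let `A = adj ℤ G`, `B = adj ℤ H` (symmetric), and let `W` be the additive subgroup
(submodule) of `(V → ℤ) × (V → ℤ)` spanned by the pairs `(A^k e_i, B^k e_i)`, `i ∈ R`.
(1) For `(x, y), (x', y') ∈ W`: `x ⬝ᵥ x' = y ⬝ᵥ y'`: bilinear, and on generators
`A^k e_i ⬝ᵥ A^l e_j = (A^(k+l)) i j = (B^(k+l)) i j`.
(2) `W` is stable under `(x, y) ↦ (A x, B y)`.
(3) The first projection `W → (V → ℤ)` is onto by `hfull`, and injective by (1) (if `(0, y) ∈ W`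
then `y ⬝ᵥ y = 0`, so `y = 0`).
(4) For every `v` pick `(e_v, y_v) ∈ W`.  `y_v ⬝ᵥ y_w = δ_{vw}`; an integer vector of norm 1 is
`± e_u`: so `y_v = s_v e_{σ v}` with `s_v = ± 1`, and `σ` is injective (`y_v ⬝ᵥ y_w = 0` for
`v ≠ w`), hence a permutation.
(5) `A u v = e_u ⬝ᵥ A e_v = y_u ⬝ᵥ B y_v = s_u s_v B (σ u) (σ v)` (pairs `(e_u, y_u)` and
`(A e_v, B y_v)` are in `W`).  All entries are `0` or `1` so `A u v = B (σ u) (σ v)`.
(6) for `i ∈ R`, `(e_i, e_i) ∈ W` (`k = 0`), so `y_i = e_i` by (3), `σ i = i`.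
-/

set_option autoImplicit false

namespace Pool.Agent.H66.SP

open Matrix Classical

theorem mom_adj_transpose {V : Type*} (G : SimpleGraph V) :
    (adj ℤ G)ᵀ = adj ℤ G := by
  ext i j
  simp only [adj, Matrix.transpose_apply, Matrix.of_apply, G.adj_comm]

theorem mom_gen {V : Type*} [Fintype V] [DecidableEq V] (M : Matrix V V ℤ) (hM : Mᵀ = M)
    (k l : ℕ) (i j : V) :
    (M ^ k *ᵥ Pi.single i 1) ⬝ᵥ (M ^ l *ᵥ Pi.single j 1) = (M ^ (k + l)) i j := by
  have h1 : M ^ k *ᵥ (Pi.single i 1 : V → ℤ) = (Pi.single i 1 : V → ℤ) ᵥ* M ^ k := by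
    rw [← Matrix.mulVec_transpose, Matrix.transpose_pow, hM]
  rw [h1, ← Matrix.dotProduct_mulVec, Matrix.mulVec_mulVec, ← pow_add]
  simp

/-- an integer vector of norm one -/
theorem mom_unit {V : Type*} [Fintype V] [DecidableEq V] (y : V → ℤ) (h : y ⬝ᵥ y = 1) :
    ∃ u : V, ∃ s : ℤ, s * s = 1 ∧ y = Pi.single u s := by
  have hne : ∃ u, y u ≠ 0 := by
    by_contra hcon
    push Not at hcon
    have : y = 0 := by
      funext u
      exact hcon u
    rw [this] at h
    simp at h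
  obtain ⟨u, hu⟩ := hne
  have hsum : y u * y u + ∑ w ∈ Finset.univ.erase u, y w * y w = 1 := by
    have h2 : ∑ w, y w * y w = 1 := h
    rw [← Finset.add_sum_erase Finset.univ _ (Finset.mem_univ u)] at h2
    exact h2
  have hnn : 0 ≤ ∑ w ∈ Finset.univ.erase u, y w * y w :=
    Finset.sum_nonneg fun w _ => mul_self_nonneg _
  have hpos : 0 < y u * y u := mul_self_pos.mpr hu
  have hz : ∑ w ∈ Finset.univ.erase u, y w * y w = 0 := by omega
  have hz2 := (Finset.sum_eq_zero_iff_of_nonneg (fun w _ => mul_self_nonneg (y w))).mp hz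
  refine ⟨u, y u, by omega, ?_⟩
  funext w
  by_cases hw : w = u
  · subst hw
    simp
  · rw [Pi.single_eq_of_ne hw]
    have := hz2 w (Finset.mem_erase.mpr ⟨hw, Finset.mem_univ w⟩)
    exact mul_self_eq_zero.mp this

theorem iso_of_moments {V : Type*} [Fintype V] [DecidableEq V] (G H : SimpleGraph V) (R : Set V)
    (hfull : Full G R)
    (hmom : ∀ (k : ℕ), ∀ i ∈ R, ∀ j ∈ R, (adj ℤ G ^ k) i j = (adj ℤ H ^ k) i j) :
    ∃ φ : G ≃g H, ∀ i ∈ R, φ i = i := by
  have hA := mom_adj_transpose G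
  have hB := mom_adj_transpose H
  set A := adj ℤ G with hAdef
  set B := adj ℤ H with hBdef
  let gens : Set ((V → ℤ) × (V → ℤ)) :=
    {p | ∃ k : ℕ, ∃ i ∈ R, p = (A ^ k *ᵥ Pi.single i 1, B ^ k *ᵥ Pi.single i 1)}
  let W : Submodule ℤ ((V → ℤ) × (V → ℤ)) := Submodule.span ℤ gens
  -- (1)
  have h1 : ∀ p ∈ W, ∀ q ∈ W, p.1 ⬝ᵥ q.1 = p.2 ⬝ᵥ q.2 := by
    intro p hp q hq
    induction hp using Submodule.span_induction with
    | mem p hp =>
      obtain ⟨k, i, hi, rfl⟩ := hp
      induction hq using Submodule.span_induction with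
      | mem q hq =>
        obtain ⟨l, j, hj, rfl⟩ := hq
        show (A ^ k *ᵥ Pi.single i 1) ⬝ᵥ (A ^ l *ᵥ Pi.single j 1)
          = (B ^ k *ᵥ Pi.single i 1) ⬝ᵥ (B ^ l *ᵥ Pi.single j 1)
        rw [mom_gen A hA, mom_gen B hB, hmom _ i hi j hj]
      | zero => simp
      | add x y _ _ hx hy =>
        simp only [Prod.fst_add, Prod.snd_add, dotProduct_add, hx, hy]
      | smul a x _ hx =>
        simp only [Prod.smul_fst, Prod.smul_snd, dotProduct_smul, hx]
    | zero => simp
    | add x y _ _ hx hy =>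
      simp only [Prod.fst_add, Prod.snd_add, add_dotProduct, hx, hy]
    | smul a x _ hx =>
      simp only [Prod.smul_fst, Prod.smul_snd, smul_dotProduct, hx]
  -- (2)
  have h2 : ∀ p ∈ W, ((A *ᵥ p.1, B *ᵥ p.2) : (V → ℤ) × (V → ℤ)) ∈ W := by
    intro p hp
    induction hp using Submodule.span_induction with
    | mem p hp =>
      obtain ⟨k, i, hi, rfl⟩ := hp
      apply Submodule.subset_span
      refine ⟨k + 1, i, hi, ?_⟩
      simp only [Matrix.mulVec_mulVec, pow_succ']
    | zero =>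
      have : ((A *ᵥ (0 : (V → ℤ) × (V → ℤ)).1, B *ᵥ (0 : (V → ℤ) × (V → ℤ)).2) :
          (V → ℤ) × (V → ℤ)) = 0 := by
        simp
      rw [this]
      exact W.zero_mem
    | add x y _ _ hx hy =>
      have : ((A *ᵥ (x + y).1, B *ᵥ (x + y).2) : (V → ℤ) × (V → ℤ))
          = (A *ᵥ x.1, B *ᵥ x.2) + (A *ᵥ y.1, B *ᵥ y.2) := by
        simp [Matrix.mulVec_add]
      rw [this]
      exact W.add_mem hx hy
    | smul a x _ hx =>
      have : ((A *ᵥ (a • x).1, B *ᵥ (a • x).2) : (V → ℤ) × (V → ℤ))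
          = a • (A *ᵥ x.1, B *ᵥ x.2) := by
        rw [Prod.smul_fst, Prod.smul_snd, Matrix.mulVec_smul, Matrix.mulVec_smul, Prod.smul_mk]
      rw [this]
      exact W.smul_mem a hx
  -- (3)
  have h3 : ∀ x : V → ℤ, ∃ y : V → ℤ, (x, y) ∈ W := by
    intro x
    have hx : x ∈ Submodule.span ℤ
        {y : V → ℤ | ∃ k : ℕ, ∃ i ∈ R, y = (adj ℤ G ^ k) *ᵥ Pi.single i 1} := by
      rw [hfull]
      trivial
    induction hx using Submodule.span_induction with
    | mem x hx =>
      obtain ⟨k, i, hi, rfl⟩ := hx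
      exact ⟨B ^ k *ᵥ Pi.single i 1, Submodule.subset_span ⟨k, i, hi, rfl⟩⟩
    | zero => exact ⟨0, W.zero_mem⟩
    | add x y _ _ hx hy =>
      obtain ⟨x', hx'⟩ := hx
      obtain ⟨y', hy'⟩ := hy
      exact ⟨x' + y', W.add_mem hx' hy'⟩
    | smul a x _ hx =>
      obtain ⟨x', hx'⟩ := hx
      exact ⟨a • x', W.smul_mem a hx'⟩
  choose y hy using fun v : V => h3 (Pi.single v 1)
  have hdot : ∀ v w, y v ⬝ᵥ y w = if v = w then 1 else 0 := by
    intro v w
    rw [← h1 _ (hy v) _ (hy w)]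
    simp [Pi.single_apply, eq_comm]
  have hunit : ∀ v, ∃ u : V, ∃ s : ℤ, s * s = 1 ∧ y v = Pi.single u s := by
    intro v
    apply mom_unit
    rw [hdot, if_pos rfl]
  choose σ s hs hys using hunit
  have hinj : Function.Injective σ := by
    intro v w hvw
    by_contra hne
    have h := hdot v w
    rw [if_neg hne, hys v, hys w, hvw] at h
    simp only [dotProduct_single, Pi.single_eq_same] at h
    rcases mul_eq_zero.mp h with h0 | h0
    · have := hs v
      rw [h0] at this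
      simp at this
    · have := hs w
      rw [h0] at this
      simp at this
  have hbij : Function.Bijective σ := Finite.injective_iff_bijective.mp hinj
  have hent : ∀ u v, A u v = s u * s v * B (σ u) (σ v) := by
    intro u v
    have h := h1 _ (hy u) _ (h2 _ (hy v))
    simp only at h
    rw [hys u, hys v] at h
    have e1 : (Pi.single u (1 : ℤ) : V → ℤ) ⬝ᵥ (A *ᵥ Pi.single v 1) = A u v := by
      simp
    have e2 : (Pi.single (σ u) (s u) : V → ℤ) ⬝ᵥ (B *ᵥ Pi.single (σ v) (s v))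
        = s u * s v * B (σ u) (σ v) := by
      simp
      ring
    rw [e1, e2] at h
    exact h
  have h01 : ∀ (K : SimpleGraph V) (u v : V), adj ℤ K u v = if K.Adj u v then 1 else 0 := by
    intro K u v
    rfl
  have hadj : ∀ u v, G.Adj u v ↔ H.Adj (σ u) (σ v) := by
    intro u v
    have h := hent u v
    rw [hAdef, hBdef, h01, h01] at h
    have hss : (s u * s v) * (s u * s v) = 1 := by
      have := hs u
      have := hs v
      calc (s u * s v) * (s u * s v) = (s u * s u) * (s v * s v) := by ring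
        _ = 1 := by rw [hs u, hs v]; ring
    by_cases hg : G.Adj u v
    · by_cases hh : H.Adj (σ u) (σ v)
      · exact ⟨fun _ => hh, fun _ => hg⟩
      · rw [if_pos hg, if_neg hh] at h
        simp at h
    · by_cases hh : H.Adj (σ u) (σ v)
      · rw [if_neg hg, if_pos hh, mul_one] at h
        rw [← h] at hss
        simp at hss
      · exact ⟨fun h' => absurd h' hg, fun h' => absurd h' hh⟩
  refine ⟨⟨Equiv.ofBijective σ hbij, ?_⟩, ?_⟩
  · intro u v
    exact (hadj u v).symm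
  · intro i hi
    show σ i = i
    have hii : ((Pi.single i 1, Pi.single i 1) : (V → ℤ) × (V → ℤ)) ∈ W := by
      apply Submodule.subset_span
      refine ⟨0, i, hi, ?_⟩
      rw [pow_zero, pow_zero, Matrix.one_mulVec]
    have hdiff : ((0 : V → ℤ), y i - Pi.single i 1) ∈ W := by
      have := W.sub_mem (hy i) hii
      simpa using this
    have hz := h1 _ hdiff _ hdiff
    simp only [zero_dotProduct] at hz
    have hz2 : y i - Pi.single i 1 = 0 := by
      rw [← dotProduct_self_eq_zero]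
      exact hz.symm
    have hyi : y i = Pi.single i 1 := sub_eq_zero.mp hz2
    rw [hys i] at hyi
    by_contra hne
    have h := congrFun hyi i
    rw [Pi.single_eq_same, Pi.single_eq_of_ne (fun h' => hne h'.symm)] at h
    simp at h

end Pool.Agent.H66.SP
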