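import Pool.Agent.H66.SP.Adj2

/-!
# SP-16: the characteristic polynomials of `G`, `G - i`, `G - j`, `G - i - j` determine the
number of walks from `i` to `j` of every length

PROOF.  By `cp_empty`, `cadj_diag`, `jacobi_two`, `cadj_symm` (for `i ≠ j`):
`(cadj G i j)^2 = cp G {i} * cp G {j} - cp G ∅ * cp G {i,j}`, the same for `H`, so
`cadj G i j = cadj H i j` or `cadj G i j = - cadj H i j` (`ℤ[X]` is a domain); for `i = j` the
first holds by `cadj_diag`.  By `cadj_div` (with `k` replaced by `k + 1`) and the equality of the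
characteristic polynomials, comparing coefficients: `(A^k) i j = ± (B^k) i j` with the same sign.
In the case of the sign `-`: both numbers are nonnegative (entries of powers of nonnegative
matrices) so both are `0`.
(For the sign: `(-p) /ₘ q = -(p /ₘ q)`; `Polynomial.neg_divByMonic` or via `divByMonic` of
`C (-1) * p`.)
-/

set_option autoImplicit false

namespace Pool.Agent.H66.SP

open Matrix Classical Polynomial

theorem momsp_nonneg {V : Type*} [Fintype V] [DecidableEq V] (G : SimpleGraph V) (k : ℕ)
    (i j : V) : 0 ≤ (adj ℤ G ^ k) i j := by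
  induction k generalizing i j with
  | zero => rw [pow_zero, Matrix.one_apply]; split_ifs <;> simp
  | succ k ih =>
    rw [pow_succ, Matrix.mul_apply]
    apply Finset.sum_nonneg
    intro l _
    apply mul_nonneg (ih i l)
    unfold adj
    rw [Matrix.of_apply]
    split_ifs <;> simp

theorem momsp_coeff {V : Type*} [Fintype V] [DecidableEq V] (G : SimpleGraph V) (k : ℕ)
    (i j : V) : ((X ^ (k + 1) * cadj G i j) /ₘ (adj ℤ G).charpoly).coeff 0 =
      (adj ℤ G ^ k) i j := by
  rw [cadj_div, Finset.sum_range_succ, coeff_add, finsetSum_coeff, Finset.sum_eq_zero]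
  · simp
  · intro b hb
    rw [Finset.mem_range] at hb
    rw [coeff_C_mul, coeff_X_pow, if_neg (by omega), mul_zero]

theorem moments_eq {V : Type*} [Fintype V] [DecidableEq V] (G H : SimpleGraph V) (i j : V)
    (h : ∀ S : Finset V, S ⊆ {i, j} → cp G S = cp H S) (k : ℕ) :
    (adj ℤ G ^ k) i j = (adj ℤ H ^ k) i j := by
  have h0 : (adj ℤ G).charpoly = (adj ℤ H).charpoly := by
    rw [← cp_empty, ← cp_empty, h ∅ (Finset.empty_subset _)]
  have hi : cp G {i} = cp H {i} := h _ (by simp)
  have hj : cp G {j} = cp H {j} := h _ (by simp)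
  have hc : cadj G i j = cadj H i j ∨ cadj G i j = - cadj H i j := by
    by_cases hij : i = j
    · subst hij
      left; rw [cadj_diag, cadj_diag, hi]
    · have h2 : cp G {i, j} = cp H {i, j} := h _ (Finset.Subset.refl _)
      have e1 := jacobi_two G i j hij
      have e2 := jacobi_two H i j hij
      rw [cadj_diag, cadj_diag, cadj_symm G j i] at e1
      rw [cadj_diag, cadj_diag, cadj_symm H j i, ← hi, ← hj, ← h0, ← h2, ← e1] at e2
      have e3 : cadj G i j * cadj G i j = cadj H i j * cadj H i j := by
        linear_combination e2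
      exact mul_self_eq_mul_self_iff.mp e3
  rcases hc with hc | hc
  · rw [← momsp_coeff G k i j, ← momsp_coeff H k i j, hc, h0]
  · have e1 := momsp_coeff G k i j
    have e2 := momsp_coeff H k i j
    have e3 : (X ^ (k + 1) * cadj G i j) /ₘ (adj ℤ G).charpoly =
        - ((X ^ (k + 1) * cadj H i j) /ₘ (adj ℤ H).charpoly) := by
      have hm : (adj ℤ H).charpoly.Monic := Matrix.charpoly_monic _
      have hq := modByMonic_add_div (X ^ (k + 1) * cadj H i j) (adj ℤ H).charpoly
      have hd := degree_modByMonic_lt (X ^ (k + 1) * cadj H i j) hm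
      have hu := (div_modByMonic_unique (f := -(X ^ (k + 1) * cadj H i j))
        (-((X ^ (k + 1) * cadj H i j) /ₘ (adj ℤ H).charpoly))
        (-((X ^ (k + 1) * cadj H i j) %ₘ (adj ℤ H).charpoly)) hm
        ⟨by linear_combination -hq, by rw [degree_neg]; exact hd⟩).1
      rw [hc, h0, mul_neg, hu]
    rw [e3, coeff_neg, e2] at e1
    have n1 := momsp_nonneg G k i j
    have n2 := momsp_nonneg H k i j
    omega

end Pool.Agent.H66.SP
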