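import Pool.Agent.H66.SP.Pad
import Pool.Agent.H66.SP.Mom
import Pool.Agent.H66.SP.MomSp

/-!
# SP-18: counting fully generated graphs by their characteristic polynomials

PROOF.  Let `𝒮` be the set of `S ⊆ R` with at most two elements; `card 𝒮 ≤ (card R + 1)^2` (every
such `S` is `∅` or `{a, b}`, `a, b ∈ R`).  Map `G` to the family `(cp G S * X ^ S.card)_{S ∈ 𝒮}`; by
`charpoly_isol` the entries are in the set of the characteristic polynomials of graphs on
`Fin n`, with `sp n` elements.  So the image has at most `sp n ^ card 𝒮 ≤ sp n ^ (card R + 1)^2`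
elements (`sp n ≥ 1`).  Each fibre restricted to the `G` with `Full G R` has at most `n!` elements: fix one
element `G` of it; for every `H` in the fibre `cp G S = cp H S` for `S ∈ 𝒮`, so by `moments_eq` and
`iso_of_moments` there is an isomorphism `G ≃g H`, i.e. `H` is the image of `G` under one of the
`n!` permutations of `Fin n` (`Finset.card_le_mul_card_image` or `Finset.card_le_mul_card_image_of_maps_to`).
-/

set_option autoImplicit false

namespace Pool.Agent.H66.SP

open Matrix Classical Polynomial

/-- the number of different characteristic polynomials of graphs on `n` vertices -/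
noncomputable def sp (n : ℕ) : ℕ :=
  ((Finset.univ : Finset (SimpleGraph (Fin n))).image (fun G => (adj ℤ G).charpoly)).card

/-- the subsets of `R` with at most two elements -/
noncomputable def smalls {n : ℕ} (R : Finset (Fin n)) : Finset (Finset (Fin n)) :=
  R.powerset.filter (fun S => S.card ≤ 2)

theorem card_smalls_le {n : ℕ} (R : Finset (Fin n)) : (smalls R).card ≤ (R.card + 1) ^ 2 := by
  classical
  have hsub : smalls R ⊆ insert ∅ ((R ×ˢ R).image (fun p => ({p.1, p.2} : Finset (Fin n)))) := by
    intro S hS
    unfold smalls at hS
    rw [Finset.mem_filter, Finset.mem_powerset] at hS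
    obtain ⟨hSR, hc⟩ := hS
    have h3 : S.card = 0 ∨ S.card = 1 ∨ S.card = 2 := by omega
    rcases h3 with h | h | h
    · rw [Finset.card_eq_zero] at h
      rw [h]
      exact Finset.mem_insert_self _ _
    · obtain ⟨a, ha⟩ := Finset.card_eq_one.1 h
      refine Finset.mem_insert_of_mem (Finset.mem_image.2 ⟨(a, a), ?_, ?_⟩)
      · have : a ∈ R := hSR (by rw [ha]; exact Finset.mem_singleton_self _)
        exact Finset.mem_product.2 ⟨this, this⟩
      · rw [ha]; simp
    · obtain ⟨a, b, _, hab⟩ := Finset.card_eq_two.1 h
      refine Finset.mem_insert_of_mem (Finset.mem_image.2 ⟨(a, b), ?_, ?_⟩)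
      · have h1 : a ∈ R := hSR (by rw [hab]; simp)
        have h2 : b ∈ R := hSR (by rw [hab]; simp)
        exact Finset.mem_product.2 ⟨h1, h2⟩
      · rw [hab]
  refine (Finset.card_le_card hsub).trans ((Finset.card_insert_le _ _).trans ?_)
  have h1 := Finset.card_image_le (s := R ×ˢ R) (f := fun p => ({p.1, p.2} : Finset (Fin n)))
  rw [Finset.card_product] at h1
  nlinarith

theorem card_full_le (n : ℕ) (R : Finset (Fin n)) :
    ((Finset.univ : Finset (SimpleGraph (Fin n))).filter
      (fun G => Full G (R : Set (Fin n)))).card ≤ n.factorial * sp n ^ ((R.card + 1) ^ 2) := by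
  classical
  set F := (Finset.univ : Finset (SimpleGraph (Fin n))).filter
      (fun G => Full G (R : Set (Fin n))) with hF
  set P : Finset (Polynomial ℤ) :=
    (Finset.univ : Finset (SimpleGraph (Fin n))).image (fun G => (adj ℤ G).charpoly) with hP
  let f : SimpleGraph (Fin n) → (Finset (Fin n) → Polynomial ℤ) :=
    fun G S => if S ∈ smalls R then (adj ℤ (isol G S)).charpoly else 0
  let T : Finset (Finset (Fin n) → Polynomial ℤ) :=
    Fintype.piFinset (fun S => if S ∈ smalls R then P else {0})
  have hT : T.card = sp n ^ (smalls R).card := by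
    simp only [T]
    rw [Fintype.card_piFinset]
    have : ∀ S : Finset (Fin n), ((if S ∈ smalls R then P else {0}) : Finset (Polynomial ℤ)).card
        = if S ∈ smalls R then sp n else 1 := by
      intro S
      by_cases h : S ∈ smalls R
      · simp [h, hP, sp]
      · simp [h]
    rw [Finset.prod_congr rfl (fun S _ => this S)]
    rw [Finset.prod_ite]
    simp
  have hmaps : ∀ G ∈ F, f G ∈ T := by
    intro G _
    simp only [T, f, Fintype.mem_piFinset]
    intro S
    by_cases h : S ∈ smalls R
    · simp only [h, if_true, hP]
      exact Finset.mem_image_of_mem _ (Finset.mem_univ _)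
    · simp [h]
  have hfib : ∀ a ∈ T, (F.filter (fun G => f G = a)).card ≤ n.factorial := by
    intro a _
    by_cases hne : (F.filter (fun G => f G = a)).Nonempty
    · obtain ⟨G, hG⟩ := hne
      rw [Finset.mem_filter, hF, Finset.mem_filter] at hG
      have hsub : F.filter (fun G => f G = a) ⊆
          (Finset.univ : Finset (Equiv.Perm (Fin n))).image
            (fun σ : Equiv.Perm (Fin n) => SimpleGraph.comap (fun x => σ x) G) := by
        intro H hH
        rw [Finset.mem_filter, hF, Finset.mem_filter] at hH
        have hfe : f G = f H := hG.2.trans hH.2.symm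
        have hcp : ∀ S ∈ smalls R, cp G S = cp H S := by
          intro S hS
          have h1 := congrFun hfe S
          simp only [f, hS, if_true] at h1
          rw [charpoly_isol, charpoly_isol] at h1
          exact mul_right_cancel₀ (pow_ne_zero _ X_ne_zero) h1
        obtain ⟨φ, _⟩ := iso_of_moments G H (R : Set (Fin n)) hG.1.2 (by
          intro k i hi j hj
          refine moments_eq G H i j (fun S hS => hcp S ?_) k
          refine Finset.mem_filter.2 ⟨Finset.mem_powerset.2 (fun x hx => ?_), ?_⟩
          · have := hS hx
            rw [Finset.mem_insert, Finset.mem_singleton] at this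
            rcases this with h | h
            · exact h ▸ hi
            · exact h ▸ hj
          · exact (Finset.card_le_card hS).trans Finset.card_le_two)
        refine Finset.mem_image.2 ⟨φ.symm.toEquiv, Finset.mem_univ _, ?_⟩
        ext u v
        rw [SimpleGraph.comap_adj]
        exact φ.symm.map_adj_iff
      refine (Finset.card_le_card hsub).trans (Finset.card_image_le.trans ?_)
      rw [Finset.card_univ, Fintype.card_perm, Fintype.card_fin]
    · rw [Finset.not_nonempty_iff_eq_empty] at hne
      rw [hne]
      simp
  have hmain := Finset.card_le_mul_card_image_of_maps_to hmaps n.factorial hfib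
  refine hmain.trans (Nat.mul_le_mul_left _ ?_)
  rw [hT]
  refine Nat.pow_le_pow_right ?_ (card_smalls_le R)
  unfold sp
  exact Finset.card_pos.2 (Finset.Nonempty.image ⟨⊥, Finset.mem_univ _⟩ _)

end Pool.Agent.H66.SP
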