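import Pool.Agent.H66.SP.Main
import Pool.Agent.H66.SP.Pigeon

/-!
# SP-20: the number of characteristic polynomials

PROOF of `card_graph_fin`: `Fintype.card (SimpleGraph (Fin n)) = 2 ^ (n.choose 2)` (induction with
`card_graph_sum`, or the bijection with subsets of the non-diagonal elements of `Sym2`; perhaps in Mathlib).

PROOF of `sp_lower`.  Let `L = Nat.clog 2 n`, `n` large (so that `80 L ≤ n`, `n ≥ 5`), `R ⊆ Fin n` with
`card R = 80 L`.  By `card_not_full` at least `(1 - 1/n) 2^(n(n-1)/2) ≥ 2^(n(n-1)/2 - 1)` graphs are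
`Full`, so by `card_full_le` `n! sp(n)^((80L+1)^2) ≥ 2^(n(n-1)/2 - 1)`; `n! ≤ n^n ≤ 2^(n L)`, so
`(81 L)^2 log2 (sp n) ≥ n(n-1)/2 - 1 - n L ≥ n^2/4` for `n ≥ N₀`, and `L ≤ log2 n + 1 ≤ 2 log2 n`:
`log2 (sp n) ≥ c₀ n^2 / (log n)^2` for `n ≥ N₀`.  For `2 ≤ n < N₀`: `sp n ≥ 2` (the empty graph has
characteristic polynomial `X^n`, a graph with exactly one edge `X^n - X^(n-2)`, or: the complete
graph; use the coefficient of `X^(n-2)` or the fact that a symmetric matrix `A` with
`charpoly = X^n` is nilpotent so `0`); so a smaller `c > 0` works for all `n ≥ 2`.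
-/

set_option autoImplicit false

namespace Pool.Agent.H66.SP

open Matrix Classical Polynomial

theorem card_graph_fin (n : ℕ) : Fintype.card (SimpleGraph (Fin n)) = 2 ^ (n.choose 2) := by
  let e : SimpleGraph (Fin n) ≃ Set {a : Sym2 (Fin n) // ¬ a.IsDiag} :=
    { toFun := fun G => {a | a.1 ∈ G.edgeSet}
      invFun := fun s => SimpleGraph.fromEdgeSet (Subtype.val '' s)
      left_inv := by
        intro G
        ext u v
        rw [SimpleGraph.fromEdgeSet_adj]
        constructor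
        · rintro ⟨⟨a, ha, hav⟩, _⟩
          have : a.1 ∈ G.edgeSet := ha
          rw [hav] at this
          exact this
        · intro h
          exact ⟨⟨⟨s(u, v), by simpa using h.ne⟩, h, rfl⟩, h.ne⟩
      right_inv := by
        intro s
        ext a
        simp only [Set.mem_ofPred_eq, SimpleGraph.edgeSet_fromEdgeSet]
        constructor
        · rintro ⟨⟨b, hb, hba⟩, _⟩
          have : b = a := Subtype.ext hba
          rwa [← this]
        · intro h
          exact ⟨⟨a, h, rfl⟩, fun h' => a.2 h'⟩ }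
  rw [Fintype.card_congr e, Fintype.card_set, Sym2.card_subtype_not_diag, Fintype.card_fin]

theorem two_le_sp (n : ℕ) (hn : 2 ≤ n) : 2 ≤ sp n := by
  unfold sp
  have h1 : (adj ℤ (⊥ : SimpleGraph (Fin n))).charpoly = X ^ n := by
    have : adj ℤ (⊥ : SimpleGraph (Fin n)) = 0 := by
      ext i j
      simp [adj]
    rw [this, Matrix.charpoly_zero, Fintype.card_fin]
  have h2 : (adj ℤ (⊤ : SimpleGraph (Fin n))).charpoly ≠ X ^ n := by
    intro h
    have h3 : (adj ℤ (⊤ : SimpleGraph (Fin n))).charpoly.eval ((n : ℤ) - 1) = 0 := by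
      rw [Matrix.eval_charpoly]
      rw [← Matrix.exists_mulVec_eq_zero_iff]
      refine ⟨fun _ => 1, ?_, ?_⟩
      · intro h0
        have := congrFun h0 ⟨0, by omega⟩
        simp at this
      · ext i
        rw [Matrix.sub_mulVec]
        simp only [Pi.sub_apply, Pi.zero_apply, Matrix.mulVec, dotProduct, Matrix.scalar_apply,
          Matrix.diagonal_apply, adj, Matrix.of_apply, SimpleGraph.top_adj]
        simp only [mul_one, Finset.sum_ite_eq, Finset.mem_univ, if_true]
        have : ∑ j : Fin n, (if i ≠ j then (1 : ℤ) else 0) = (n : ℤ) - 1 := by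
          have h5 : ∀ j : Fin n, (if i ≠ j then (1 : ℤ) else 0) = 1 - (if i = j then 1 else 0) := by
            intro j
            by_cases hij : i = j <;> simp [hij]
          rw [Finset.sum_congr rfl fun j _ => h5 j]
          rw [Finset.sum_sub_distrib]
          simp
        rw [this]
        ring
    rw [h] at h3
    simp only [eval_pow, eval_X] at h3
    have h4 : (n : ℤ) - 1 = 0 := by
      exact (pow_eq_zero_iff (show n ≠ 0 by omega)).mp h3
    omega
  have h3 : ({(adj ℤ (⊥ : SimpleGraph (Fin n))).charpoly,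
      (adj ℤ (⊤ : SimpleGraph (Fin n))).charpoly} : Finset (Polynomial ℤ)) ⊆
      (Finset.univ : Finset (SimpleGraph (Fin n))).image (fun G => (adj ℤ G).charpoly) := by
    intro q hq
    rw [Finset.mem_insert, Finset.mem_singleton] at hq
    rw [Finset.mem_image]
    rcases hq with hq | hq
    · exact ⟨⊥, Finset.mem_univ _, hq.symm⟩
    · exact ⟨⊤, Finset.mem_univ _, hq.symm⟩
  have h4 := Finset.card_le_card h3
  rw [Finset.card_pair] at h4
  · exact h4
  · rw [h1]
    exact fun h => h2 h.symm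

theorem clog_le_log (n : ℕ) (hn : 2 ≤ n) : (Nat.clog 2 n : ℝ) ≤ 3 * Real.log n := by
  have hn0 : (0 : ℝ) < n := by
    have : 0 < n := by omega
    exact_mod_cast this
  have h1 : 2 ^ (Nat.clog 2 n - 1) < n :=
    Nat.pow_pred_clog_lt_self (by norm_num) (by omega)
  have h2 : 1 ≤ Nat.clog 2 n := by
    have := Nat.clog_pos (b := 2) (by norm_num) hn
    omega
  have h3 : (2 : ℝ) ^ (Nat.clog 2 n - 1) < n := by exact_mod_cast h1
  have h4 : Real.log ((2 : ℝ) ^ (Nat.clog 2 n - 1)) ≤ Real.log n :=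
    Real.log_le_log (by positivity) h3.le
  rw [Real.log_pow, Nat.cast_sub h2] at h4
  have h5 : Real.log 2 ≤ Real.log n := Real.log_le_log (by norm_num) (by exact_mod_cast hn)
  have h6 := Real.log_two_gt_d9
  have h7 : (1 : ℝ) ≤ (Nat.clog 2 n : ℝ) := by exact_mod_cast h2
  push_cast at h4
  nlinarith

theorem sp_lower_large : ∃ c : ℝ, 0 < c ∧ ∃ N : ℕ, ∀ n : ℕ, N ≤ n →
    (2 : ℝ) ^ (c * (n : ℝ) ^ 2 / Real.log n ^ 2) ≤ (sp n : ℝ) := by
  have hlog : ∀ᶠ n : ℕ in Filter.atTop, Real.log (n : ℝ) ≤ (1 / 1000) * (n : ℝ) := by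
    have h := Real.isLittleO_log_id_atTop.bound (show (0 : ℝ) < 1 / 1000 by norm_num)
    have h' := tendsto_natCast_atTop_atTop.eventually h
    filter_upwards [h'] with n hn
    have h1 : ‖Real.log (n : ℝ)‖ ≤ 1 / 1000 * ‖(id (n : ℝ) : ℝ)‖ := hn
    rw [Real.norm_eq_abs, Real.norm_eq_abs, id] at h1
    rw [abs_of_nonneg (show (0 : ℝ) ≤ (n : ℝ) from Nat.cast_nonneg n)] at h1
    exact (le_abs_self _).trans h1
  obtain ⟨N, hN⟩ := Filter.eventually_atTop.mp hlog
  refine ⟨1 / (8 * 59049), by norm_num, max N 10, ?_⟩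
  intro n hn
  have hn1 : N ≤ n := (le_max_left _ _).trans hn
  have hn2 : 10 ≤ n := (le_max_right _ _).trans hn
  have hnR : (10 : ℝ) ≤ n := by exact_mod_cast hn2
  have hl := hN n hn1
  have hL := clog_le_log n (by omega)
  have h80 : 80 * Nat.clog 2 n ≤ n := by
    have : (80 * Nat.clog 2 n : ℝ) ≤ n := by nlinarith
    exact_mod_cast this
  obtain ⟨R, -, hR⟩ := Finset.exists_subset_card_eq
    (s := (Finset.univ : Finset (Fin n))) (n := 80 * Nat.clog 2 n) (by simpa using h80)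
  have h1 := card_not_full n (by omega) R hR.ge
  have h2 := card_full_le n R
  rw [hR] at h2
  have h3 : ((Finset.univ : Finset (SimpleGraph (Fin n))).filter
      (fun G => Full G (R : Set (Fin n)))).card +
      ((Finset.univ : Finset (SimpleGraph (Fin n))).filter
      (fun G => ¬ Full G (R : Set (Fin n)))).card = Fintype.card (SimpleGraph (Fin n)) := by
    rw [Finset.card_filter_add_card_filter_not, Finset.card_univ]
  rw [card_graph_fin] at h1 h3
  set a := ((Finset.univ : Finset (SimpleGraph (Fin n))).filter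
      (fun G => Full G (R : Set (Fin n)))).card with ha
  set b := ((Finset.univ : Finset (SimpleGraph (Fin n))).filter
      (fun G => ¬ Full G (R : Set (Fin n)))).card with hb
  set L := Nat.clog 2 n with hLdef
  have h3R : (a : ℝ) + b = (2 : ℝ) ^ (n.choose 2) := by exact_mod_cast h3
  have h1R : (n : ℝ) * b ≤ (2 : ℝ) ^ (n.choose 2) := by exact_mod_cast h1
  have h2R : (a : ℝ) ≤ (n.factorial : ℝ) * (sp n : ℝ) ^ ((80 * L + 1) ^ 2) := by exact_mod_cast h2
  have hb0 : (0 : ℝ) ≤ b := Nat.cast_nonneg b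
  have h4 : (2 : ℝ) ^ (n.choose 2) ≤ 2 * a := by nlinarith
  have hfac : (n.factorial : ℝ) ≤ (n : ℝ) ^ n := by exact_mod_cast Nat.factorial_le_pow n
  have hsp : (2 : ℝ) ≤ (sp n : ℝ) := by exact_mod_cast two_le_sp n (by omega)
  have h5 : (2 : ℝ) ^ (n.choose 2) ≤ 2 * ((n : ℝ) ^ n * (sp n : ℝ) ^ ((80 * L + 1) ^ 2)) := by
    refine h4.trans (mul_le_mul_of_nonneg_left (h2R.trans ?_) (by norm_num))
    exact mul_le_mul_of_nonneg_right hfac (by positivity)
  have hn0 : (0 : ℝ) < n := by linarith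
  have hs0 : (0 : ℝ) < sp n := by linarith
  have h6 := Real.log_le_log (by positivity) h5
  rw [Real.log_pow, Real.log_mul (by norm_num) (by positivity),
    Real.log_mul (by positivity) (by positivity), Real.log_pow, Real.log_pow] at h6
  have hch : ((n.choose 2 : ℕ) : ℝ) = (n : ℝ) * (n - 1) / 2 := Nat.cast_choose_two ℝ n
  rw [hch] at h6
  have hlogn : 0 < Real.log n := Real.log_pos (by linarith)
  have hlogs : 0 < Real.log (sp n) := Real.log_pos (by linarith)
  have hL1 : (1 : ℝ) ≤ L := by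
    have := Nat.clog_pos (b := 2) (n := n) (by norm_num) (by omega)
    exact_mod_cast this
  have h7 : (((80 * L + 1) ^ 2 : ℕ) : ℝ) ≤ 59049 * Real.log n ^ 2 := by
    push_cast
    have h71 : (80 * (L : ℝ) + 1) ≤ 243 * Real.log n := by nlinarith
    have h72 : (0 : ℝ) ≤ 80 * (L : ℝ) + 1 := by positivity
    calc (80 * (L : ℝ) + 1) ^ 2 ≤ (243 * Real.log n) ^ 2 := pow_le_pow_left₀ h72 h71 2
      _ = 59049 * Real.log n ^ 2 := by ring
  have h8 := Real.log_two_gt_d9
  have h9 := Real.log_two_lt_d9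
  have h10 : (((80 * L + 1) ^ 2 : ℕ) : ℝ) * Real.log (sp n) ≤
      59049 * Real.log n ^ 2 * Real.log (sp n) := mul_le_mul_of_nonneg_right h7 hlogs.le
  have h11 : (n : ℝ) ^ 2 / 8 ≤ 59049 * Real.log n ^ 2 * Real.log (sp n) := by
    have h12 : (n : ℝ) * Real.log n ≤ (n : ℝ) * (1 / 1000 * n) :=
      mul_le_mul_of_nonneg_left hl hn0.le
    have h13 : (0.34 : ℝ) * ((n : ℝ) * (n - 1)) ≤ (n : ℝ) * (n - 1) / 2 * Real.log 2 := by
      have : (0 : ℝ) ≤ (n : ℝ) * (n - 1) := mul_nonneg hn0.le (by linarith)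
      nlinarith
    nlinarith
  rw [← Real.log_le_log_iff (by positivity) hs0, Real.log_rpow (by norm_num)]
  have h14 : 1 / (8 * 59049) * (n : ℝ) ^ 2 / Real.log n ^ 2 ≤ Real.log (sp n) := by
    rw [div_le_iff₀ (by positivity)]
    nlinarith
  have h15 : (0 : ℝ) ≤ 1 / (8 * 59049) * (n : ℝ) ^ 2 / Real.log n ^ 2 := by positivity
  nlinarith

theorem sp_lower : ∃ c : ℝ, 0 < c ∧ ∀ n : ℕ, 2 ≤ n →
    (2 : ℝ) ^ (c * (n : ℝ) ^ 2 / Real.log n ^ 2) ≤ (sp n : ℝ) := by
  obtain ⟨c, hc, N, hN⟩ := sp_lower_large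
  refine ⟨min c (1 / (4 * ((N : ℝ) + 1) ^ 2)), lt_min hc (by positivity), ?_⟩
  intro n hn
  have hnR : (2 : ℝ) ≤ n := by exact_mod_cast hn
  have hlogn : Real.log 2 ≤ Real.log n := Real.log_le_log (by norm_num) hnR
  have h8 := Real.log_two_gt_d9
  have hl0 : 0 < Real.log n := by linarith
  by_cases h : N ≤ n
  · refine le_trans ?_ (hN n h)
    apply Real.rpow_le_rpow_of_exponent_le (by norm_num)
    apply div_le_div_of_nonneg_right _ (by positivity)
    exact mul_le_mul_of_nonneg_right (min_le_left _ _) (by positivity)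
  · have h1 : (2 : ℝ) ^ (min c (1 / (4 * ((N : ℝ) + 1) ^ 2)) * (n : ℝ) ^ 2 / Real.log n ^ 2) ≤
        (2 : ℝ) ^ (1 : ℝ) := by
      apply Real.rpow_le_rpow_of_exponent_le (by norm_num)
      rw [div_le_one (by positivity)]
      have h2 : (n : ℝ) ≤ N + 1 := by
        have : n ≤ N + 1 := by omega
        exact_mod_cast this
      have h3 : (n : ℝ) ^ 2 ≤ ((N : ℝ) + 1) ^ 2 := pow_le_pow_left₀ (by linarith) h2 2
      have h4 : min c (1 / (4 * ((N : ℝ) + 1) ^ 2)) * (n : ℝ) ^ 2 ≤
          1 / (4 * ((N : ℝ) + 1) ^ 2) * ((N : ℝ) + 1) ^ 2 :=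
        mul_le_mul (min_le_right _ _) h3 (by positivity) (by positivity)
      have h5 : 1 / (4 * ((N : ℝ) + 1) ^ 2) * ((N : ℝ) + 1) ^ 2 = 1 / 4 := by
        field_simp
      rw [h5] at h4
      nlinarith
    rw [Real.rpow_one] at h1
    have h2 : (2 : ℝ) ≤ (sp n : ℝ) := by exact_mod_cast two_le_sp n hn
    linarith

end Pool.Agent.H66.SP
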