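import Pool.Agent.H66.SP.Defs

/-!
# SP-1: Odlyzko's lemma

A subspace `E` of `K^V` of dimension `d` is orthogonal to at most `2^(|V| - d)` vectors of
`{0,1}^V`.

PROOF. Let `d = finrank E`. There are `d` pivot coordinates: a set `T ⊆ V` with `|T| = d` such that
the restriction `E → K^T` is injective (bijective).  (E.g. the restrictions to `E` of the
coordinate functionals `Pi.proj v`, `v ∈ V`, span the dual of `E` since an `x ∈ E` killed by all of
them is `0`; so some `d` of them form a basis of the dual.)  If `b, b'` are both orthogonal to `E`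
and agree outside of `T`, then `z = bv b - bv b'` is supported on `T` and orthogonal to `E`;
choosing for `t ∈ T` the element `x ∈ E` with `x|_T = e_t` one gets `z t = 0`, so `z = 0` and
`b = b'`.  So `b ↦ b|_{Tᶜ}` is injective on the set, which has at most `2^(|V| - d)` elements.
(Alternative: induction on the dimension or on `|V|`.)
-/

set_option autoImplicit false

namespace Pool.Agent.H66.SP

open Matrix Classical

/-- the coordinate functional `v`, restricted to `E` -/
noncomputable def coordE {K : Type*} [Field K] {V : Type*}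
    (E : Submodule K (V → K)) (v : V) : Module.Dual K E :=
  (LinearMap.proj v : (V → K) →ₗ[K] K).comp E.subtype

theorem coordE_apply {K : Type*} [Field K] {V : Type*}
    (E : Submodule K (V → K)) (v : V) (x : E) : coordE E v x = (x : V → K) v := rfl

theorem span_coordE {K : Type*} [Field K] {V : Type*} [Fintype V] [DecidableEq V]
    (E : Submodule K (V → K)) : Submodule.span K (Set.range (coordE E)) = ⊤ := by
  rw [eq_top_iff]
  intro φ _
  obtain ⟨ψ, hψ⟩ := LinearMap.dualMap_surjective_of_injective (f := E.subtype)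
    (Submodule.subtype_injective E) φ
  have h : φ = ∑ v : V, ψ (Pi.single v 1) • coordE E v := by
    apply LinearMap.ext
    intro x
    rw [← hψ]
    rw [LinearMap.sum_apply]
    have hx : ((x : E) : V → K) = ∑ v : V, ((x : V → K) v) • (Pi.single v (1 : K) : V → K) := by
      ext w
      simp [Finset.sum_apply, Pi.single_apply]
    rw [LinearMap.dualMap_apply, Submodule.subtype_apply]
    conv_lhs => rw [hx]
    rw [map_sum]
    apply Finset.sum_congr rfl
    intro v _
    rw [map_smul, LinearMap.smul_apply, coordE_apply, smul_eq_mul, smul_eq_mul, mul_comm]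
  rw [h]
  apply Submodule.sum_mem
  intro v _
  exact Submodule.smul_mem _ _ (Submodule.subset_span ⟨v, rfl⟩)

theorem exists_pivots {K : Type*} [Field K] {V : Type*} [Fintype V] [DecidableEq V]
    (E : Submodule K (V → K)) : ∃ T : Finset V, T.card = Module.finrank K E ∧
      LinearIndependent K (fun t : T => coordE E (t : V)) := by
  obtain ⟨κ, a, ha, hs, hl⟩ := exists_linearIndependent' (K := K) (coordE E)
  haveI : Finite κ := Finite.of_injective a ha
  haveI : Fintype κ := Fintype.ofFinite κ
  have hsp : ⊤ ≤ Submodule.span K (Set.range (coordE E ∘ a)) := by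
    rw [hs, span_coordE]
  let B := Module.Basis.mk hl hsp
  have hcard : Fintype.card κ = Module.finrank K E := by
    rw [← Module.finrank_eq_card_basis B]
    exact Subspace.dual_finrank_eq
  refine ⟨Finset.univ.map ⟨a, ha⟩, ?_, ?_⟩
  · rw [Finset.card_map, Finset.card_univ, hcard]
  · have e : (↥(Finset.univ.map ⟨a, ha⟩ : Finset V)) ≃ κ :=
      (Equiv.ofBijective (fun k : κ => (⟨a k, by simp⟩ : ↥(Finset.univ.map ⟨a, ha⟩ : Finset V)))
        ⟨fun x y hxy => ha (by simpa using hxy), fun ⟨y, hy⟩ => by
          simp only [Finset.mem_map, Finset.mem_univ, true_and, Function.Embedding.coeFn_mk] at hy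
          obtain ⟨k, rfl⟩ := hy
          exact ⟨k, rfl⟩⟩).symm
    let f : κ ≃ (↥(Finset.univ.map ⟨a, ha⟩ : Finset V)) :=
      Equiv.ofBijective (fun k : κ => (⟨a k, by simp⟩ : ↥(Finset.univ.map ⟨a, ha⟩ : Finset V)))
        ⟨fun x y hxy => ha (by simpa using hxy), fun ⟨y, hy⟩ => by
          simp only [Finset.mem_map, Finset.mem_univ, true_and, Function.Embedding.coeFn_mk] at hy
          obtain ⟨k, rfl⟩ := hy
          exact ⟨k, rfl⟩⟩
    exact (linearIndependent_equiv' f (by ext k; rfl)).1 hl

theorem orth_ext {K : Type*} [Field K] {V : Type*} [Fintype V] [DecidableEq V]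
    (E : Submodule K (V → K)) (T : Finset V)
    (hT : LinearIndependent K (fun t : T => coordE E (t : V))) (b c : V → Bool)
    (hb : ∀ x ∈ E, bv K b ⬝ᵥ x = 0) (hc : ∀ x ∈ E, bv K c ⬝ᵥ x = 0)
    (hbc : ∀ v, v ∉ T → b v = c v) : b = c := by
  have h0 : ∑ t : T, (bv K b (t : V) - bv K c (t : V)) • coordE E (t : V) = 0 := by
    apply LinearMap.ext
    intro x
    rw [LinearMap.sum_apply, LinearMap.zero_apply]
    have h1 : (bv K b - bv K c) ⬝ᵥ (x : V → K) = 0 := by
      rw [sub_dotProduct, hb _ x.2, hc _ x.2, sub_zero]
    rw [← h1, dotProduct]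
    rw [← Finset.sum_subset (Finset.subset_univ T) (fun v _ hv => by
      rw [Pi.sub_apply, show bv K b v = bv K c v by unfold bv; rw [hbc v hv], sub_self, zero_mul])]
    rw [← Finset.sum_coe_sort T (fun v => (bv K b - bv K c) v * (x : V → K) v)]
    apply Finset.sum_congr rfl
    intro t _
    rw [LinearMap.smul_apply, coordE_apply, smul_eq_mul, Pi.sub_apply]
  have h2 := Fintype.linearIndependent_iff.1 hT _ h0
  ext v
  by_cases hv : v ∈ T
  · have h3 := h2 ⟨v, hv⟩
    simp only [bv] at h3
    by_cases h4 : b v = true <;> by_cases h5 : c v = true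
    · rw [h4, h5]
    · rw [if_pos h4, if_neg h5, sub_zero] at h3
      exact absurd h3 one_ne_zero
    · rw [if_neg h4, if_pos h5, zero_sub, neg_eq_zero] at h3
      exact absurd h3 one_ne_zero
    · simp [h4, h5]
  · rw [hbc v hv]

theorem card_orth_le {K : Type*} [Field K] {V : Type*} [Fintype V] [DecidableEq V]
    (E : Submodule K (V → K)) :
    ((Finset.univ : Finset (V → Bool)).filter (fun b => ∀ x ∈ E, bv K b ⬝ᵥ x = 0)).card
      * 2 ^ Module.finrank K E ≤ 2 ^ Fintype.card V := by
  obtain ⟨T, hTc, hT⟩ := exists_pivots E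
  have h1 : (2 : ℕ) ^ Module.finrank K E = (Finset.univ : Finset (T → Bool)).card := by
    rw [← hTc]; simp
  have h2 : (2 : ℕ) ^ Fintype.card V = (Finset.univ : Finset (V → Bool)).card := by simp
  rw [h1, h2, ← Finset.card_product]
  apply Finset.card_le_card_of_injOn
    (fun p : (V → Bool) × (T → Bool) => fun v => if h : v ∈ T then p.2 ⟨v, h⟩ else p.1 v)
  · intro p _; simp
  · rintro ⟨b, f⟩ hb ⟨c, g⟩ hc heq
    simp only [Finset.coe_product, Finset.coe_univ, Set.mem_prod, Finset.coe_filter,
      Finset.mem_univ, true_and, Set.mem_setOf_eq, Set.mem_univ, and_true] at hb hc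
    have hf : f = g := by
      ext t
      have := congrFun heq (t : V)
      simpa [t.2] using this
    have hbc : b = c := by
      apply orth_ext E T hT b c hb hc
      intro v hv
      have := congrFun heq v
      simpa [hv] using this
    rw [hf, hbc]

end Pool.Agent.H66.SP
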