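import Pool.Agent.H66.SP.Defs

/-!
# SP-3: few eigenvalues; control by `m` vectors gives multiplicities at most `m`

PROOF of `card_eigs`: take the roots of `A.charpoly` (`toFinset`); `eig A μ ≠ ⊥` means that `μ` is
an eigenvalue of `A.mulVecLin = Matrix.toLin' A`, hence a root of the characteristic polynomial;
the number of roots is at most the degree `Fintype.card V`.

PROOF of `mult_le_of_ctl`: the linear map `eig A μ → (Fin m → K)`, `x ↦ (i ↦ v i ⬝ᵥ x)` is
injective by the hypothesis, so `finrank (eig A μ) ≤ m` (`LinearMap.finrank_le_finrank_of_injective`).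
-/

set_option autoImplicit false

namespace Pool.Agent.H66.SP

open Matrix Classical

theorem card_eigs {K : Type*} [Field K] {V : Type*} [Fintype V] [DecidableEq V]
    (A : Matrix V V K) :
    ∃ S : Finset K, S.card ≤ Fintype.card V ∧ ∀ μ, eig A μ ≠ ⊥ → μ ∈ S := by
  refine ⟨A.charpoly.roots.toFinset, ?_, ?_⟩
  · refine (Multiset.toFinset_card_le _).trans ((Polynomial.card_roots' _).trans ?_)
    rw [Matrix.charpoly_natDegree_eq_dim]
  · intro μ hμ
    have hne : A.charpoly ≠ 0 := (Matrix.charpoly_monic A).ne_zero
    rw [Multiset.mem_toFinset, Polynomial.mem_roots hne]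
    have h1 : Module.End.HasEigenvalue A.mulVecLin μ := hμ
    have h2 : Module.End.HasEigenvalue (Matrix.toLin' A) μ := h1
    have h3 := (Module.End.hasEigenvalue_iff_isRoot_charpoly (f := Matrix.toLin' A) μ).1 h2
    rwa [Matrix.charpoly_toLin'] at h3

theorem mult_le_of_ctl {K : Type*} [Field K] {V : Type*} [Fintype V] [DecidableEq V]
    (A : Matrix V V K) {m : ℕ} (v : Fin m → V → K) (h : Ctl A v) (μ : K) : mult A μ ≤ m := by
  let f : eig A μ →ₗ[K] (Fin m → K) :=
    { toFun := fun x i => v i ⬝ᵥ (x : V → K)
      map_add' := by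
        intro x y
        funext i
        simp [dotProduct_add]
      map_smul' := by
        intro c x
        funext i
        simp [dotProduct_smul] }
  have hf : Function.Injective f := by
    rw [← LinearMap.ker_eq_bot, LinearMap.ker_eq_bot']
    intro x hx
    apply Subtype.ext
    exact h μ x x.2 fun i => congrFun hx i
  have := LinearMap.finrank_le_finrank_of_injective hf
  rwa [Module.finrank_fin_fun] at this

end Pool.Agent.H66.SP
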