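import Pool.Agent.H66.SP.Kill
import Pool.Agent.H66.SP.Eigs

/-!
# SP-7: the number of tuples which do not control; existence of controlling tuples

PROOF of `card_not_ctl_le`: let `S` be the set of `card_eigs` for `adj K G`.  If
`b : Fin m → V → Bool` does not control then there are `μ` and `x ≠ 0`, `x ∈ eig (adj K G) μ`,
orthogonal to all `bv K (b i)`; in particular `eig ≠ ⊥`, so `μ ∈ S`; union bound over the at most
`card V` elements of `S` with `kill` (`t` bounds the dimension of `eig (adj K G) μ`).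

PROOF of `exists_ctlC`: by the previous count, the number of `b` which do not control is at most
`card V * 2^(card V * m) * (2^m * 3^t) / 3^m < 2^(card V * m)`, the number of all `b`.
-/

set_option autoImplicit false

namespace Pool.Agent.H66.SP

open Matrix Classical

theorem card_not_ctl_le {K : Type*} [Field K] {V : Type*} [Fintype V] [DecidableEq V]
    (A : Matrix V V K) (t m : ℕ) (ht : ∀ μ : K, mult A μ ≤ t) :
    ((Finset.univ : Finset (Fin m → V → Bool)).filter
      (fun b => ¬ Ctl A (fun i => bv K (b i)))).card * 3 ^ m ≤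
      Fintype.card V * (2 ^ (Fintype.card V * m) * (2 ^ m * 3 ^ t)) := by
  obtain ⟨S, hS, hmem⟩ := card_eigs A
  have hsub : ((Finset.univ : Finset (Fin m → V → Bool)).filter
      (fun b => ¬ Ctl A (fun i => bv K (b i)))) ⊆
      S.biUnion (fun μ => (Finset.univ : Finset (Fin m → V → Bool)).filter
        (fun b => ∃ x ∈ eig A μ, x ≠ 0 ∧ ∀ i, bv K (b i) ⬝ᵥ x = 0)) := by
    intro b hb
    rw [Finset.mem_filter] at hb
    have h1 := hb.2
    unfold Ctl at h1
    push Not at h1
    obtain ⟨μ, x, hx, hort, hne⟩ := h1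
    rw [Finset.mem_biUnion]
    refine ⟨μ, hmem μ ?_, ?_⟩
    · intro hbot
      rw [hbot, Submodule.mem_bot] at hx
      exact hne hx
    · rw [Finset.mem_filter]
      exact ⟨Finset.mem_univ _, x, hx, hne, hort⟩
  have h2 := (Finset.card_le_card hsub).trans Finset.card_biUnion_le
  calc _ ≤ (∑ μ ∈ S, ((Finset.univ : Finset (Fin m → V → Bool)).filter
        (fun b => ∃ x ∈ eig A μ, x ≠ 0 ∧ ∀ i, bv K (b i) ⬝ᵥ x = 0)).card) * 3 ^ m :=
        Nat.mul_le_mul_right _ h2
    _ = ∑ μ ∈ S, ((Finset.univ : Finset (Fin m → V → Bool)).filter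
        (fun b => ∃ x ∈ eig A μ, x ≠ 0 ∧ ∀ i, bv K (b i) ⬝ᵥ x = 0)).card * 3 ^ m := by
        rw [Finset.sum_mul]
    _ ≤ ∑ μ ∈ S, 2 ^ (Fintype.card V * m) * (2 ^ m * 3 ^ t) :=
        Finset.sum_le_sum fun μ _ => kill m t (eig A μ) (ht μ)
    _ = S.card * (2 ^ (Fintype.card V * m) * (2 ^ m * 3 ^ t)) := by
        rw [Finset.sum_const, smul_eq_mul]
    _ ≤ _ := Nat.mul_le_mul_right _ hS

theorem exists_ctlC {V : Type*} [Fintype V] [DecidableEq V] (G : SimpleGraph V) (t m : ℕ)
    (ht : ∀ μ : ℂ, mult (adj ℂ G) μ ≤ t) (hm : Fintype.card V * (2 ^ m * 3 ^ t) < 3 ^ m) :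
    ∃ b : Fin m → V → Bool, CtlC G b := by
  by_contra hno
  push Not at hno
  have h1 := card_not_ctl_le (adj ℂ G) t m ht
  have h2 : ((Finset.univ : Finset (Fin m → V → Bool)).filter
      (fun b => ¬ Ctl (adj ℂ G) (fun i => bv ℂ (b i)))) = Finset.univ := by
    rw [Finset.filter_eq_self]
    intro b _
    exact hno b
  rw [h2] at h1
  have h3 : (Finset.univ : Finset (Fin m → V → Bool)).card = 2 ^ (Fintype.card V * m) := by
    rw [Finset.card_univ, Fintype.card_fun, Fintype.card_fun, Fintype.card_bool, Fintype.card_fin,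
      ← pow_mul]
  rw [h3] at h1
  have h4 : 0 < 2 ^ (Fintype.card V * m) := by positivity
  have h5 : 2 ^ (Fintype.card V * m) * (Fintype.card V * (2 ^ m * 3 ^ t)) <
      2 ^ (Fintype.card V * m) * 3 ^ m := Nat.mul_lt_mul_of_pos_left hm h4
  have h6 : Fintype.card V * (2 ^ (Fintype.card V * m) * (2 ^ m * 3 ^ t)) =
      2 ^ (Fintype.card V * m) * (Fintype.card V * (2 ^ m * 3 ^ t)) := by ring
  rw [h6] at h1
  exact absurd h1 (not_le.2 h5)

end Pool.Agent.H66.SP
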