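import Pool.Agent.H66.SP.Defs

/-!
# SP-4: adding one vertex

`ext G b` has vertex type `V ⊕ Unit`.  For `z ∈ eig (adj K (ext G b)) μ` write `x = z ∘ inl`,
`s = z (inr ())`.  The eigenvalue equation says `adj G *ᵥ x + s • bv b = μ • x` and
`bv b ⬝ᵥ x = μ * s`.

PROOF of `mult_ext_le`: the linear map `z ↦ z (inr ())` on `eig (adj K (ext G b)) μ` has kernel
isomorphic (via `z ↦ z ∘ inl`) to `{x ∈ eig (adj K G) μ | bv b ⬝ᵥ x = 0}`, of dimension at most
`mult (adj K G) μ`, and its range has dimension at most 1.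

PROOF of `mult_ext_le'`: if some `x₀ ∈ eig (adj K G) μ` has `bv b ⬝ᵥ x₀ ≠ 0` then the kernel above
has dimension at most `mult (adj K G) μ - 1` (it embeds in a proper subspace of `eig`), so the
total is at most `mult (adj K G) μ`.
-/

set_option autoImplicit false

namespace Pool.Agent.H66.SP

open Matrix Classical

section Aux

variable {K : Type*} [Field K] {V : Type*} [Fintype V]

theorem ext_mulVec_inl (G : SimpleGraph V) (b : V → Bool) (z : V ⊕ Unit → K) (v : V) :
    (adj K (ext G b) *ᵥ z) (Sum.inl v) =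
      (adj K G *ᵥ (fun u => z (Sum.inl u))) v + bv K b v * z (Sum.inr ()) := by
  simp [Matrix.mulVec, dotProduct, Fintype.sum_sum_type, adj, ext, glue, bv]

theorem ext_mulVec_inr (G : SimpleGraph V) (b : V → Bool) (z : V ⊕ Unit → K) :
    (adj K (ext G b) *ᵥ z) (Sum.inr ()) = bv K b ⬝ᵥ (fun u => z (Sum.inl u)) := by
  simp only [Matrix.mulVec, dotProduct, Fintype.sum_sum_type, adj, ext, glue, bv]
  simp

/-- the eigenvectors orthogonal to the new neighbourhood -/
def interF (G : SimpleGraph V) (b : V → Bool) (μ : K) : Submodule K (V → K) where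
  carrier := {x | x ∈ eig (adj K G) μ ∧ bv K b ⬝ᵥ x = 0}
  add_mem' := by
    intro x y hx hy
    refine ⟨Submodule.add_mem _ hx.1 hy.1, ?_⟩
    rw [dotProduct_add, hx.2, hy.2, add_zero]
  zero_mem' := ⟨Submodule.zero_mem _, by simp⟩
  smul_mem' := by
    intro c x hx
    refine ⟨Submodule.smul_mem _ _ hx.1, ?_⟩
    rw [dotProduct_smul, hx.2, smul_zero]

theorem inter_mem (G : SimpleGraph V) (b : V → Bool) (μ : K) (z : V ⊕ Unit → K)
    (hz : z ∈ eig (adj K (ext G b)) μ) (h0 : z (Sum.inr ()) = 0) :
    (fun u => z (Sum.inl u)) ∈ interF G b μ := by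
  rw [mem_eig] at hz
  constructor
  · rw [mem_eig]
    ext v
    have h := congrFun hz (Sum.inl v)
    rw [ext_mulVec_inl, h0, mul_zero, add_zero] at h
    rw [h]
    rfl
  · have h := congrFun hz (Sum.inr ())
    rw [ext_mulVec_inr] at h
    rw [h]
    simp [h0]

theorem mult_ext_le_interF (G : SimpleGraph V) (b : V → Bool) (μ : K) :
    mult (adj K (ext G b)) μ ≤ Module.finrank K (interF G b μ) + 1 := by
  set f : eig (adj K (ext G b)) μ →ₗ[K] K :=
    (LinearMap.proj (Sum.inr ())).comp (Submodule.subtype _) with hf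
  have h1 := LinearMap.finrank_range_add_finrank_ker f
  have h2 : Module.finrank K (LinearMap.range f) ≤ 1 := by
    have := Submodule.finrank_le (LinearMap.range f)
    rwa [Module.finrank_self] at this
  have hk : ∀ z : LinearMap.ker f, ((z : eig (adj K (ext G b)) μ) : V ⊕ Unit → K) (Sum.inr ()) = 0 :=
    fun z => LinearMap.mem_ker.1 z.2
  set g : LinearMap.ker f →ₗ[K] interF G b μ :=
    { toFun := fun z => ⟨fun u => ((z : eig (adj K (ext G b)) μ) : V ⊕ Unit → K) (Sum.inl u),
        inter_mem G b μ _ z.1.2 (hk z)⟩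
      map_add' := fun x y => by ext; rfl
      map_smul' := fun c x => by ext; rfl } with hg
  have hginj : Function.Injective g := by
    intro x y hxy
    apply Subtype.ext
    apply Subtype.ext
    ext w
    rcases w with u | ⟨⟩
    · have := congrFun (congrArg Subtype.val hxy) u
      exact this
    · rw [hk x, hk y]
  have h3 : Module.finrank K (LinearMap.ker f) ≤ Module.finrank K (interF G b μ) :=
    LinearMap.finrank_le_finrank_of_injective hginj
  unfold mult
  omega

theorem interF_le (G : SimpleGraph V) (b : V → Bool) (μ : K) :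
    interF G b μ ≤ eig (adj K G) μ := fun _ hx => hx.1

end Aux

theorem mult_ext_le {K : Type*} [Field K] {V : Type*} [Fintype V] [DecidableEq V]
    (G : SimpleGraph V) (b : V → Bool) (μ : K) :
    mult (adj K (ext G b)) μ ≤ mult (adj K G) μ + 1 := by
  have h1 := mult_ext_le_interF G b μ
  have h2 : Module.finrank K (interF G b μ) ≤ mult (adj K G) μ :=
    Submodule.finrank_mono (interF_le G b μ)
  omega

theorem mult_ext_le' {K : Type*} [Field K] {V : Type*} [Fintype V] [DecidableEq V]
    (G : SimpleGraph V) (b : V → Bool) (μ : K)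
    (h : ∃ x ∈ eig (adj K G) μ, bv K b ⬝ᵥ x ≠ 0) :
    mult (adj K (ext G b)) μ ≤ mult (adj K G) μ := by
  have h1 := mult_ext_le_interF G b μ
  have h2 : Module.finrank K (interF G b μ) < mult (adj K G) μ := by
    apply Submodule.finrank_lt_finrank_of_lt
    refine lt_of_le_of_ne (interF_le G b μ) ?_
    intro he
    obtain ⟨x, hx, hne⟩ := h
    rw [← he] at hx
    exact hne hx.2
  omega

end Pool.Agent.H66.SP
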