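import Pool.Agent.H66.SP.Kry

/-!
# SP-6: control over the complex numbers gives control outside of few primes

PROOF.  Let `k = Fintype.card V`.  If `k = 0` take `P = ∅` (every `x : V → _` is `0`).
Let `k ≥ 1`.  By `krylov_top` over `ℂ` the vectors `(adj ℂ G)^j *ᵥ bv ℂ (b i)`, `j < k`, `i`, span
`ℂ^V`; they are the images of the integer vectors `y_{j,i} = (adj ℤ G)^j *ᵥ bv ℤ (b i)`.  A spanning
set of a space of dimension `k` contains a basis; so there is a choice `c : V → ℕ × ι`,
`c v = (j_v, i_v)`, `j_v < k`, such that the integer matrix `W : Matrix V V ℤ`,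
`W u v = y_{j_v, i_v} u`, has `det W ≠ 0` (its image in `ℂ` is invertible).
The entries satisfy `|y_{j,i} u| ≤ k^j ≤ k^k` (induction on `j`), so by `Matrix.det_le`
`|det W| ≤ k! (k^k)^k ≤ k^k * k^(k^2) = k^(k^2+k)`.  Let `P` be the set of prime factors of
`(det W).natAbs`; `2^(card P) ≤ |det W| ≤ k^(k^2+k) ≤ 2^(k (k^2+k))` (as `k ≤ 2^k`) so
`card P ≤ k (k^2 + k) ≤ 2 k^3`.
Let `p ∉ P` be prime, `K = KK p`, `x ∈ eig (adj K G) μ` with `bv K (b i) ⬝ᵥ x = 0` for all `i`.
Then `((adj K G)^j *ᵥ bv K (b i)) ⬝ᵥ x = bv K (b i) ⬝ᵥ ((adj K G)^j *ᵥ x) = μ^j (bv b_i ⬝ᵥ x) = 0`,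
so `x` is orthogonal to all the columns of `W mod p`, whose determinant `(det W : K)` is nonzero;
so `x = 0` (`Matrix.eq_zero_of_mulVec_eq_zero` or `vecMul` version).
-/

set_option autoImplicit false

namespace Pool.Agent.H66.SP

open Matrix Classical

theorem prim_adj_map {K : Type*} [CommRing K] {V : Type*} (G : SimpleGraph V) :
    (adj ℤ G).map (Int.castRingHom K) = adj K G := by
  ext u v
  simp only [adj, Matrix.map_apply, Matrix.of_apply]
  split_ifs <;> simp

theorem prim_bv_map {K : Type*} [CommRing K] {V : Type*} (b : V → Bool) :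
    (Int.castRingHom K) ∘ (bv ℤ b) = bv K b := by
  funext u
  simp only [Function.comp, bv]
  split_ifs <;> simp

theorem prim_cast {K : Type*} [CommRing K] {V : Type*} [Fintype V] [DecidableEq V]
    (G : SimpleGraph V) (b : V → Bool) (j : ℕ) (u : V) :
    ((((adj ℤ G) ^ j *ᵥ bv ℤ b) u : ℤ) : K) = ((adj K G) ^ j *ᵥ bv K b) u := by
  have h := RingHom.map_mulVec (Int.castRingHom K) ((adj ℤ G) ^ j) (bv ℤ b) u
  rw [Matrix.map_pow, prim_adj_map, prim_bv_map] at h
  exact h

theorem prim_symm {K : Type*} [Zero K] [One K] {V : Type*} (G : SimpleGraph V) :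
    (adj K G)ᵀ = adj K G := by
  ext u v
  simp only [adj, Matrix.transpose_apply, Matrix.of_apply, G.adj_comm]

theorem prim_dot {K : Type*} [Field K] {V : Type*} [Fintype V] [DecidableEq V] (A : Matrix V V K)
    (hA : Aᵀ = A) {μ : K} {x : V → K} (hx : A *ᵥ x = μ • x) (j : ℕ) :
    ∀ w : V → K, (A ^ j *ᵥ w) ⬝ᵥ x = μ ^ j * (w ⬝ᵥ x) := by
  induction j with
  | zero => intro w; simp
  | succ j ih =>
    intro w
    rw [pow_succ, ← Matrix.mulVec_mulVec, ih, pow_succ, mul_assoc]
    congr 1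
    rw [dotProduct_comm, Matrix.dotProduct_mulVec, ← Matrix.mulVec_transpose, hA, hx, smul_dotProduct,
      smul_eq_mul, dotProduct_comm]

theorem prim_bound {V : Type*} [Fintype V] [DecidableEq V] (G : SimpleGraph V) (b : V → Bool)
    (j : ℕ) : ∀ u : V, |((adj ℤ G) ^ j *ᵥ bv ℤ b) u| ≤ (Fintype.card V : ℤ) ^ j := by
  induction j with
  | zero =>
    intro u
    rw [pow_zero, Matrix.one_mulVec, pow_zero]
    unfold bv
    split_ifs <;> simp
  | succ j ih =>
    intro u
    rw [pow_succ', ← Matrix.mulVec_mulVec]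
    have h1 : (adj ℤ G *ᵥ ((adj ℤ G) ^ j *ᵥ bv ℤ b)) u =
        ∑ v, adj ℤ G u v * ((adj ℤ G) ^ j *ᵥ bv ℤ b) v := rfl
    rw [h1]
    refine (Finset.abs_sum_le_sum_abs _ _).trans ?_
    have h2 : ∀ v ∈ (Finset.univ : Finset V), |adj ℤ G u v * ((adj ℤ G) ^ j *ᵥ bv ℤ b) v| ≤
        (Fintype.card V : ℤ) ^ j := by
      intro v _
      rw [abs_mul]
      have h3 : |adj ℤ G u v| ≤ 1 := by
        simp only [adj, Matrix.of_apply]
        split_ifs <;> simp
      calc |adj ℤ G u v| * |((adj ℤ G) ^ j *ᵥ bv ℤ b) v|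
          ≤ 1 * |((adj ℤ G) ^ j *ᵥ bv ℤ b) v| := mul_le_mul_of_nonneg_right h3 (abs_nonneg _)
        _ ≤ (Fintype.card V : ℤ) ^ j := by rw [one_mul]; exact ih v
    refine (Finset.sum_le_sum h2).trans (le_of_eq ?_)
    rw [Finset.sum_const, Finset.card_univ, nsmul_eq_mul, pow_succ']

theorem primes_ctrl {V : Type*} [Fintype V] [DecidableEq V] (G : SimpleGraph V) {ι : Type*}
    (b : ι → V → Bool) (h : CtlC G b) :
    ∃ P : Finset ℕ, P.card ≤ 2 * Fintype.card V ^ 3 ∧
      ∀ (p : ℕ) [Fact p.Prime], p ∉ P → CtlP p G b := by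
  obtain ⟨k, hk⟩ : ∃ k, k = Fintype.card V := ⟨_, rfl⟩
  have hspan := krylov_top (adj ℂ G) (prim_symm G) (fun i => bv ℂ (b i)) h
  obtain ⟨B, hBs, hBspan, hBli⟩ := exists_linearIndependent ℂ
    {y : V → ℂ | ∃ j < Fintype.card V, ∃ i, y = ((adj ℂ G) ^ j) *ᵥ (bv ℂ (b i))}
  have hBtop : ⊤ ≤ Submodule.span ℂ (Set.range (fun x : B => (x : V → ℂ))) := by
    rw [Subtype.range_coe, hBspan, hspan]
  let bas := Module.Basis.mk hBli hBtop
  have : Finite B := hBli.finite
  have : Fintype B := Fintype.ofFinite B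
  have hcard : Fintype.card V = Fintype.card B := by
    rw [← Module.finrank_eq_card_basis bas, Module.finrank_fintype_fun_eq_card]
  let e : V ≃ B := Fintype.equivOfCardEq hcard
  have hc : ∀ v : V, ∃ j < Fintype.card V, ∃ i, ((e v : B) : V → ℂ) = ((adj ℂ G) ^ j) *ᵥ (bv ℂ (b i)) :=
    fun v => hBs (e v).2
  choose j hj i hi using hc
  obtain ⟨W, hW⟩ : ∃ W : Matrix V V ℤ, W = Matrix.of fun v u => ((adj ℤ G) ^ (j v) *ᵥ bv ℤ (b (i v))) u :=
    ⟨_, rfl⟩
  have hWK : ∀ (K : Type) [Field K] (v u : V), (W.map (Int.castRingHom K)) v u =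
      ((adj K G) ^ (j v) *ᵥ bv K (b (i v))) u := by
    intro K _ v u
    rw [hW, Matrix.map_apply, Matrix.of_apply]
    exact prim_cast G (b (i v)) (j v) u
  have hdet : W.det ≠ 0 := by
    have h1 : LinearIndependent ℂ (W.map (Int.castRingHom ℂ)).row := by
      have h2 : (W.map (Int.castRingHom ℂ)).row = fun v => ((e v : B) : V → ℂ) := by
        funext v u
        rw [hi v]
        exact hWK ℂ v u
      rw [h2]
      exact hBli.comp _ e.injective
    have h3 := (Matrix.isUnit_iff_isUnit_det _).1 (Matrix.linearIndependent_rows_iff_isUnit.1 h1)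
    have h4 : (W.map (Int.castRingHom ℂ)).det = ((W.det : ℤ) : ℂ) := by
      have := RingHom.map_det (Int.castRingHom ℂ) W
      rw [RingHom.mapMatrix_apply] at this
      exact this.symm
    rw [h4] at h3
    intro h5
    rw [h5] at h3
    simp at h3
  refine ⟨W.det.natAbs.primeFactors, ?_, ?_⟩
  · have h1 : ∀ v u : V, AbsoluteValue.abs (W v u) ≤ (k : ℤ) ^ k := by
      intro v u
      rw [AbsoluteValue.abs_apply, hW, Matrix.of_apply]
      refine (prim_bound G (b (i v)) (j v) u).trans ?_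
      rw [← hk]
      have hk1 : 1 ≤ k := by rw [hk]; exact Fintype.card_pos_iff.2 ⟨u⟩
      exact pow_le_pow_right₀ (by exact_mod_cast hk1) (by rw [hk]; exact (hj v).le)
    have h2 := Matrix.det_le h1
    rw [AbsoluteValue.abs_apply, ← hk, nsmul_eq_mul] at h2
    have h3 : W.det.natAbs ≤ k.factorial * (k ^ k) ^ k := by
      have : ((W.det.natAbs : ℕ) : ℤ) ≤ ((k.factorial * (k ^ k) ^ k : ℕ) : ℤ) := by
        rw [Int.natCast_natAbs]
        push_cast
        exact h2
      exact_mod_cast this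
    have h4 : 2 ^ W.det.natAbs.primeFactors.card ≤ W.det.natAbs := by
      have h5 : ∏ _p ∈ W.det.natAbs.primeFactors, 2 ≤ ∏ p ∈ W.det.natAbs.primeFactors, p :=
        Finset.prod_le_prod (fun _ _ => by norm_num)
          (fun p hp => (Nat.prime_of_mem_primeFactors hp).two_le)
      rw [Finset.prod_const] at h5
      exact h5.trans (Nat.le_of_dvd (Int.natAbs_pos.2 hdet) (Nat.prod_primeFactors_dvd _))
    have h6 : k.factorial * (k ^ k) ^ k ≤ 2 ^ (2 * k ^ 3) := by
      have h7 : k ≤ 2 ^ k := Nat.lt_two_pow_self.le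
      have h8 : k.factorial ≤ k ^ k := Nat.factorial_le_pow k
      calc k.factorial * (k ^ k) ^ k ≤ k ^ k * (k ^ k) ^ k := Nat.mul_le_mul_right _ h8
        _ = k ^ (k + k * k) := by rw [← pow_mul, ← pow_add]
        _ ≤ (2 ^ k) ^ (k + k * k) := Nat.pow_le_pow_left h7 _
        _ = 2 ^ (k * (k + k * k)) := by rw [← pow_mul]
        _ ≤ 2 ^ (2 * k ^ 3) := by
          refine Nat.pow_le_pow_right (by norm_num) ?_
          have h9 : k * k ≤ k * k * k := by
            rcases Nat.eq_zero_or_pos k with h | h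
            · rw [h]
            · exact Nat.le_mul_of_pos_right _ h
          calc k * (k + k * k) = k * k + k * k * k := by ring
            _ ≤ k * k * k + k * k * k := Nat.add_le_add_right h9 _
            _ = 2 * k ^ 3 := by ring
    rw [← hk]
    exact (Nat.pow_le_pow_iff_right (by norm_num)).1 (h4.trans (h3.trans h6))
  · intro p hp hpP μ x hx hbx
    have hx' := (mem_eig _ _ _).1 hx
    have : CharP (KK p) p := charP_of_injective_algebraMap (algebraMap (ZMod p) (KK p)).injective p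
    have hdetK : (W.map (Int.castRingHom (KK p))).det ≠ 0 := by
      have h4 : (W.map (Int.castRingHom (KK p))).det = ((W.det : ℤ) : KK p) := by
        have := RingHom.map_det (Int.castRingHom (KK p)) W
        rw [RingHom.mapMatrix_apply] at this
        exact this.symm
      rw [h4]
      intro h5
      rw [CharP.intCast_eq_zero_iff (KK p) p] at h5
      apply hpP
      rw [Nat.mem_primeFactors]
      exact ⟨hp.out, Int.natCast_dvd.1 h5, (Int.natAbs_pos.2 hdet).ne'⟩
    refine Matrix.eq_zero_of_mulVec_eq_zero hdetK ?_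
    funext v
    have h6 : ((W.map (Int.castRingHom (KK p))) *ᵥ x) v =
        ((adj (KK p) G) ^ (j v) *ᵥ bv (KK p) (b (i v))) ⬝ᵥ x := by
      show ∑ u, (W.map (Int.castRingHom (KK p))) v u * x u = ∑ u, _ * x u
      refine Finset.sum_congr rfl fun u _ => ?_
      rw [hWK (KK p) v u]
    rw [h6, prim_dot _ (prim_symm G) hx', hbx, mul_zero]
    rfl

end Pool.Agent.H66.SP
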