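import Pool.Agent.H66.SP.Odl
import Pool.Agent.H66.SP.Eigs
import Pool.Agent.H66.SP.Inter
import Pool.Agent.H66.SP.Prim
import Pool.Agent.H66.SP.Exist

/-!
# SP-8: one step of the vertex exposure

PROOF.  Let `k = card V`.  Suppose `MultOK t (m+1) (ext G b)` fails.
(i) Either there is `μ : ℂ` with `mult (adj ℂ (ext G b)) μ ≥ t + 1`.  By `mult_ext_le`
`mult (adj ℂ G) μ ≥ t ≥ 1`, so `= t` by `hG`, and by `mult_ext_le'` `b` is orthogonal to
`eig (adj ℂ G) μ`, a space of dimension `t`, nonzero; so `μ ∈ S` (`card_eigs`) and the number of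
such `b` is at most `k * 2^k / 2^t` (`card_orth_le`, union bound).
(ii) Or there are a prime `p` and `μ : KK p` with `mult (adj (KK p) (ext G b)) μ ≥ m + 2`, so
`mult (adj (KK p) G) μ = m + 1` and `b` is orthogonal to `eig (adj (KK p) G) μ`, of dimension
`m + 1`.  By `exists_ctlC` there is a controlling tuple `c : Fin m → V → Bool`; let `P` be the set
of primes of `primes_ctrl`; if `p ∉ P` then `mult (adj (KK p) G) μ ≤ m` by `mult_le_of_ctl`, a
contradiction; so `p ∈ P`, and `μ` is in the set of `card_eigs` of `adj (KK p) G`.  The number of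
such `b` is at most `2 k^3 * k * 2^k / 2^(m+1)`.
(For the union bound over primes `p ∈ P` with the `Fact` instance, one may use
`if hp : p.Prime then (filter ...) else ∅`.)
-/

set_option autoImplicit false

namespace Pool.Agent.H66.SP

open Matrix Classical

/-- union bound over the eigenvalues of large multiplicity -/
theorem trans_union {K : Type*} [Field K] {V : Type*} [Fintype V] [DecidableEq V]
    (A : Matrix V V K) (d : ℕ) (hd : 1 ≤ d) :
    ((Finset.univ : Finset (V → Bool)).filter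
      (fun b => ∃ μ : K, d ≤ mult A μ ∧ ∀ x ∈ eig A μ, bv K b ⬝ᵥ x = 0)).card * 2 ^ d ≤
      Fintype.card V * 2 ^ Fintype.card V := by
  obtain ⟨S, hS, hS'⟩ := card_eigs A
  have hsub : (Finset.univ : Finset (V → Bool)).filter
      (fun b => ∃ μ : K, d ≤ mult A μ ∧ ∀ x ∈ eig A μ, bv K b ⬝ᵥ x = 0) ⊆
      (S.filter (fun μ => d ≤ mult A μ)).biUnion (fun μ =>
        (Finset.univ : Finset (V → Bool)).filter (fun b => ∀ x ∈ eig A μ, bv K b ⬝ᵥ x = 0)) := by
    intro b hb
    rw [Finset.mem_filter] at hb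
    obtain ⟨-, μ, h1, h2⟩ := hb
    rw [Finset.mem_biUnion]
    refine ⟨μ, ?_, ?_⟩
    · rw [Finset.mem_filter]
      refine ⟨hS' μ ?_, h1⟩
      intro h0
      have h3 : mult A μ = 0 := by
        unfold mult
        rw [h0]
        exact finrank_bot K (V → K)
      omega
    · rw [Finset.mem_filter]
      exact ⟨Finset.mem_univ _, h2⟩
  calc _ ≤ (∑ μ ∈ S.filter (fun μ => d ≤ mult A μ),
        ((Finset.univ : Finset (V → Bool)).filter
          (fun b => ∀ x ∈ eig A μ, bv K b ⬝ᵥ x = 0)).card) * 2 ^ d :=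
        Nat.mul_le_mul_right _ ((Finset.card_le_card hsub).trans Finset.card_biUnion_le)
    _ = ∑ μ ∈ S.filter (fun μ => d ≤ mult A μ),
        ((Finset.univ : Finset (V → Bool)).filter
          (fun b => ∀ x ∈ eig A μ, bv K b ⬝ᵥ x = 0)).card * 2 ^ d := by
        rw [Finset.sum_mul]
    _ ≤ ∑ μ ∈ S.filter (fun μ => d ≤ mult A μ), 2 ^ Fintype.card V := by
        refine Finset.sum_le_sum (fun μ hμ => ?_)
        rw [Finset.mem_filter] at hμ
        refine le_trans ?_ (card_orth_le (eig A μ))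
        exact Nat.mul_le_mul_left _ (Nat.pow_le_pow_right (by norm_num) hμ.2)
    _ ≤ Fintype.card V * 2 ^ Fintype.card V := by
        rw [Finset.sum_const, smul_eq_mul]
        exact Nat.mul_le_mul_right _ ((Finset.card_filter_le _ _).trans hS)

/-- a jump of the multiplicity forces orthogonality -/
theorem trans_orth {K : Type*} [Field K] {V : Type*} [Fintype V] [DecidableEq V]
    (G : SimpleGraph V) (b : V → Bool) (d : ℕ) (μ : K) (h0 : mult (adj K G) μ ≤ d)
    (h1 : d < mult (adj K (ext G b)) μ) :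
    d ≤ mult (adj K G) μ ∧ ∀ x ∈ eig (adj K G) μ, bv K b ⬝ᵥ x = 0 := by
  constructor
  · have := mult_ext_le G b μ
    omega
  · intro x hx
    by_contra hne
    have := mult_ext_le' G b μ ⟨x, hx, hne⟩
    omega

theorem card_trans_le {V : Type*} [Fintype V] [DecidableEq V] (t m : ℕ) (ht : 1 ≤ t)
    (G : SimpleGraph V) (hG : MultOK t (m + 1) G)
    (hm : Fintype.card V * (2 ^ m * 3 ^ t) < 3 ^ m) :
    (((Finset.univ : Finset (V → Bool)).filter
      (fun b => ¬ MultOK t (m + 1) (ext G b))).card : ℝ) ≤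
      2 ^ Fintype.card V * ((Fintype.card V : ℝ) / 2 ^ t +
        2 * (Fintype.card V : ℝ) ^ 4 / 2 ^ (m + 1)) := by
  obtain ⟨c, hc⟩ := exists_ctlC G t m hG.1 hm
  obtain ⟨P, hP, hP'⟩ := primes_ctrl G c hc
  set F : Finset (V → Bool) := (Finset.univ : Finset (V → Bool)).filter
      (fun b => ∃ μ : ℂ, t ≤ mult (adj ℂ G) μ ∧ ∀ x ∈ eig (adj ℂ G) μ, bv ℂ b ⬝ᵥ x = 0) with hF
  let Q : ℕ → Finset (V → Bool) := fun p =>
    if hp : p.Prime then
      haveI : Fact p.Prime := ⟨hp⟩
      (Finset.univ : Finset (V → Bool)).filter (fun b => ∃ μ : KK p,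
        m + 1 ≤ mult (adj (KK p) G) μ ∧ ∀ x ∈ eig (adj (KK p) G) μ, bv (KK p) b ⬝ᵥ x = 0)
    else ∅
  have hQ : ∀ p, (Q p).card * 2 ^ (m + 1) ≤ Fintype.card V * 2 ^ Fintype.card V := by
    intro p
    by_cases hp : p.Prime
    · have : Fact p.Prime := ⟨hp⟩
      have h1 := trans_union (adj (KK p) G) (m + 1) (by omega)
      have h2 : Q p = (Finset.univ : Finset (V → Bool)).filter (fun b => ∃ μ : KK p,
        m + 1 ≤ mult (adj (KK p) G) μ ∧ ∀ x ∈ eig (adj (KK p) G) μ, bv (KK p) b ⬝ᵥ x = 0) := by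
        simp only [Q, dif_pos hp]
      rw [h2]
      exact h1
    · have h2 : Q p = ∅ := by
        simp only [Q, dif_neg hp]
      rw [h2, Finset.card_empty, Nat.zero_mul]
      exact Nat.zero_le _
  have hsub : (Finset.univ : Finset (V → Bool)).filter
      (fun b => ¬ MultOK t (m + 1) (ext G b)) ⊆ F ∪ P.biUnion Q := by
    intro b hb
    rw [Finset.mem_filter] at hb
    have hb' := hb.2
    rw [Finset.mem_union, Finset.mem_biUnion]
    by_cases h1 : ∀ μ : ℂ, mult (adj ℂ (ext G b)) μ ≤ t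
    · right
      have h2 : ¬ ∀ (p : ℕ) [Fact p.Prime] (μ : KK p),
          mult (adj (KK p) (ext G b)) μ ≤ m + 1 := fun h => hb' ⟨h1, h⟩
      push Not at h2
      obtain ⟨p, hp, μ, hμ⟩ := h2
      obtain ⟨h3, h4⟩ := trans_orth G b (m + 1) μ (hG.2 p μ) hμ
      refine ⟨p, ?_, ?_⟩
      · by_contra hpP
        have h5 := mult_le_of_ctl (adj (KK p) G) _ (hP' p hpP) μ
        omega
      · simp only [Q, dif_pos hp.out]
        rw [Finset.mem_filter]
        exact ⟨Finset.mem_univ _, μ, h3, h4⟩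
    · left
      push Not at h1
      obtain ⟨μ, hμ⟩ := h1
      rw [hF, Finset.mem_filter]
      exact ⟨Finset.mem_univ _, μ, trans_orth G b t μ (hG.1 μ) hμ⟩
  have hFc : (F.card : ℝ) ≤ 2 ^ Fintype.card V * ((Fintype.card V : ℝ) / 2 ^ t) := by
    have h1 : F.card * 2 ^ t ≤ Fintype.card V * 2 ^ Fintype.card V :=
      trans_union (adj ℂ G) t ht
    have h2 : (F.card : ℝ) * 2 ^ t ≤ (Fintype.card V : ℝ) * 2 ^ Fintype.card V := by
      exact_mod_cast h1
    have h3 : (0 : ℝ) < 2 ^ t := by positivity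
    rw [← mul_div_assoc, le_div_iff₀ h3]
    linarith
  have hQc : ∀ p, ((Q p).card : ℝ) ≤
      2 ^ Fintype.card V * ((Fintype.card V : ℝ) / 2 ^ (m + 1)) := by
    intro p
    have h2 : ((Q p).card : ℝ) * 2 ^ (m + 1) ≤ (Fintype.card V : ℝ) * 2 ^ Fintype.card V := by
      exact_mod_cast hQ p
    have h3 : (0 : ℝ) < 2 ^ (m + 1) := by positivity
    rw [← mul_div_assoc, le_div_iff₀ h3]
    linarith
  have hcard : ((Finset.univ : Finset (V → Bool)).filter
      (fun b => ¬ MultOK t (m + 1) (ext G b))).card ≤ F.card + ∑ p ∈ P, (Q p).card :=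
    (Finset.card_le_card hsub).trans ((Finset.card_union_le _ _).trans
      (Nat.add_le_add_left Finset.card_biUnion_le _))
  have hsum : (∑ p ∈ P, ((Q p).card : ℝ)) ≤
      2 ^ Fintype.card V * (2 * (Fintype.card V : ℝ) ^ 4 / 2 ^ (m + 1)) := by
    calc (∑ p ∈ P, ((Q p).card : ℝ)) ≤
          ∑ _p ∈ P, 2 ^ Fintype.card V * ((Fintype.card V : ℝ) / 2 ^ (m + 1)) :=
          Finset.sum_le_sum (fun p _ => hQc p)
      _ = (P.card : ℝ) * (2 ^ Fintype.card V * ((Fintype.card V : ℝ) / 2 ^ (m + 1))) := by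
          rw [Finset.sum_const, nsmul_eq_mul]
      _ ≤ (2 * (Fintype.card V : ℝ) ^ 3) *
          (2 ^ Fintype.card V * ((Fintype.card V : ℝ) / 2 ^ (m + 1))) := by
          refine mul_le_mul_of_nonneg_right ?_ (by positivity)
          exact_mod_cast hP
      _ = 2 ^ Fintype.card V * (2 * (Fintype.card V : ℝ) ^ 4 / 2 ^ (m + 1)) := by
          ring
  have hcard' : (((Finset.univ : Finset (V → Bool)).filter
      (fun b => ¬ MultOK t (m + 1) (ext G b))).card : ℝ) ≤
      (F.card : ℝ) + ∑ p ∈ P, ((Q p).card : ℝ) := by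
    exact_mod_cast hcard
  calc _ ≤ (F.card : ℝ) + ∑ p ∈ P, ((Q p).card : ℝ) := hcard'
    _ ≤ 2 ^ Fintype.card V * ((Fintype.card V : ℝ) / 2 ^ t) +
        2 ^ Fintype.card V * (2 * (Fintype.card V : ℝ) ^ 4 / 2 ^ (m + 1)) := add_le_add hFc hsum
    _ = _ := by ring

end Pool.Agent.H66.SP
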