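import Pool.Agent.H66.SP.Defs

/-!
# SP-14: diagonal entries of the adjugate and the 2x2 Jacobi identity

For a square matrix `M` over a commutative ring and `i ≠ j`:
(a) `M.adjugate i i = det (M with row and column i removed)`;
(b) `adj i i * adj j j - adj i j * adj j i = det M * det (M with rows and columns i, j removed)`.

PROOF of (a): `adjugate_apply`: `M.adjugate i i = det (M.updateRow i (Pi.single i 1))`, expand /
reindex to a block matrix `fromBlocks` (equivalence `V ≃ {v // v ∉ {i}} ⊕ Unit`,
`Matrix.det_fromBlocks_zero₂₁` or similar).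
PROOF of (b): it is enough to prove it for the generic matrix (`Matrix.mvPolynomialX`) and then
over its fraction field, where `M` and all its submatrices are invertible; or directly: let `C` be
the matrix obtained from the identity matrix by replacing the columns `i` and `j` by the columns
`i`, `j` of `M.adjugate`.  Then `M * C` is the matrix `M` with the columns `i` and `j` replaced by
`(det M) e_i` and `(det M) e_j`, so `det M * det C = (det M)^2 * det (M with rows and columns i, j
removed)`, and `det C = adj i i * adj j j - adj i j * adj j i`.  Hence (b) when `det M` is a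
non zero divisor; here `M = charmatrix A` over `ℤ[X]` has `det M` monic, so this is enough for the
theorem `jacobi_two` below.
-/

set_option autoImplicit false

namespace Pool.Agent.H66.SP

open Matrix Classical Polynomial

/-- the adjugate of the characteristic matrix of `G` -/
noncomputable def cadj {V : Type*} [Fintype V] [DecidableEq V] (G : SimpleGraph V) :
    Matrix V V ℤ[X] :=
  (charmatrix (adj ℤ G)).adjugate

theorem adj1_charmatrix_sub {V W : Type*} [Fintype V] [DecidableEq V] [Fintype W]
    [DecidableEq W] (A : Matrix V V ℤ) (f : W → V) (hf : Function.Injective f) :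
    charmatrix (A.submatrix f f) = (charmatrix A).submatrix f f := by
  ext a b : 2
  rw [submatrix_apply, charmatrix_apply, charmatrix_apply, submatrix_apply]
  congr 1
  by_cases h : a = b
  · rw [h, diagonal_apply_eq, diagonal_apply_eq]
  · rw [diagonal_apply_ne _ h, diagonal_apply_ne _ (fun h2 => h (hf h2))]

theorem adj1_cp {V : Type*} [Fintype V] [DecidableEq V] (G : SimpleGraph V) (S : Finset V) :
    cp G S = (toSquareBlockProp (charmatrix (adj ℤ G)) (fun v => ¬ v ∈ S)).det := by
  rw [cp, charpoly, adj1_charmatrix_sub _ _ Subtype.val_injective]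
  rfl

theorem adj1_det_one {V R : Type*} [DecidableEq V] [CommRing R]
    (M : Matrix V V R) (i : V) (p : V → Prop) [Fintype {a // p a}] (hp : ∀ v, p v ↔ v = i) :
    (toSquareBlockProp M p).det = M i i := by
  have hs : Subsingleton {v // p v} := by
    refine ⟨fun a b => Subtype.ext ?_⟩
    rw [(hp _).mp a.2, (hp _).mp b.2]
  have hd := det_eq_elem_of_subsingleton (toSquareBlockProp M p) ⟨i, (hp i).mpr rfl⟩
  rw [hd, toSquareBlockProp_def, of_apply]

theorem adj1_adjugate_diag {V R : Type*} [Fintype V] [DecidableEq V] [CommRing R]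
    (M : Matrix V V R) (i : V) (p : V → Prop) [DecidablePred p] (hp : ∀ v, p v ↔ v = i) :
    M.adjugate i i = (toSquareBlockProp M (fun v => ¬ p v)).det := by
  rw [adjugate_apply, twoBlockTriangular_det' _ p, adj1_det_one _ i p hp, updateRow_self,
    Pi.single_eq_same, one_mul]
  · congr 1
    ext a b
    have ha : (a : V) ≠ i := fun h => a.2 ((hp _).mpr h)
    rw [toSquareBlockProp_def, toSquareBlockProp_def, of_apply, of_apply, updateRow_ne ha]
  · intro a ha b hb
    rw [(hp a).mp ha, updateRow_self, Pi.single_eq_of_ne (fun h => hb ((hp b).mpr h))]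

theorem adj1_det_pair {V R : Type*} [DecidableEq V] [CommRing R]
    (M : Matrix V V R) (i j : V) (hij : i ≠ j) (p : V → Prop) [Fintype {a // p a}]
    (hp : ∀ v, p v ↔ v = i ∨ v = j) :
    (toSquareBlockProp M p).det = M i i * M j j - M i j * M j i := by
  have hi : p i := (hp i).mpr (Or.inl rfl)
  have hj : p j := (hp j).mpr (Or.inr rfl)
  obtain ⟨f, hf0, hf1⟩ : ∃ f : Fin 2 → {v // p v},
      f 0 = ⟨i, hi⟩ ∧ f 1 = ⟨j, hj⟩ := ⟨![⟨i, hi⟩, ⟨j, hj⟩], rfl, rfl⟩
  have hb : Function.Bijective f := by
    constructor
    · intro a b hab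
      fin_cases a <;> fin_cases b
      · rfl
      · exfalso
        have h : f 0 = f 1 := hab
        rw [hf0, hf1] at h
        exact hij (Subtype.ext_iff.mp h)
      · exfalso
        have h : f 1 = f 0 := hab
        rw [hf0, hf1] at h
        exact hij (Subtype.ext_iff.mp h).symm
      · rfl
    · rintro ⟨v, hv⟩
      rcases (hp v).mp hv with rfl | rfl
      · exact ⟨0, hf0⟩
      · exact ⟨1, hf1⟩
  rw [← det_submatrix_equiv_self (Equiv.ofBijective f hb), det_fin_two]
  simp only [submatrix_apply, Equiv.ofBijective_apply, hf0, hf1, toSquareBlockProp_def, of_apply]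

theorem adj1_jacobi {V R : Type*} [Fintype V] [DecidableEq V] [CommRing R] [IsDomain R]
    (M : Matrix V V R) (hM : M.det ≠ 0) (i j : V) (hij : i ≠ j) (p : V → Prop)
    [DecidablePred p] (hp : ∀ v, p v ↔ v = i ∨ v = j) :
    M.adjugate i i * M.adjugate j j - M.adjugate i j * M.adjugate j i
      = M.det * (toSquareBlockProp M (fun v => ¬ p v)).det := by
  have hi : p i := (hp i).mpr (Or.inl rfl)
  have hj : p j := (hp j).mpr (Or.inr rfl)
  obtain ⟨C, hC⟩ : ∃ C : Matrix V V R, C = Matrix.of fun a b =>
      if p b then M.adjugate a b else (1 : Matrix V V R) a b := ⟨_, rfl⟩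
  have hC1 : ∀ a b, p b → C a b = M.adjugate a b := by
    intro a b hb
    rw [hC, of_apply, if_pos hb]
  have hC2 : ∀ a b, ¬ p b → C a b = (1 : Matrix V V R) a b := by
    intro a b hb
    rw [hC, of_apply, if_neg hb]
  have hdC : C.det = M.adjugate i i * M.adjugate j j - M.adjugate i j * M.adjugate j i := by
    rw [twoBlockTriangular_det' C p, adj1_det_pair C i j hij p hp,
      hC1 i i hi, hC1 j j hj, hC1 i j hj, hC1 j i hi]
    · have h1 : toSquareBlockProp C (fun v => ¬ p v) = 1 := by
        ext a b
        rw [toSquareBlockProp_def, of_apply, hC2 _ _ b.2]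
        by_cases hab : a = b
        · rw [hab, one_apply_eq, one_apply_eq]
        · rw [one_apply_ne hab, one_apply_ne (fun h => hab (Subtype.ext h))]
      rw [h1, det_one, mul_one]
    · intro a ha b hb
      rw [hC2 a b hb, one_apply_ne]
      rintro rfl
      exact hb ha
  have hMC : ∀ a b, (M * C) a b = if p b then
      M.det * (1 : Matrix V V R) a b else M a b := by
    intro a b
    by_cases hb : p b
    · rw [if_pos hb]
      have h1 : (M * C) a b = (M * M.adjugate) a b := by
        rw [mul_apply, mul_apply]
        exact Finset.sum_congr rfl fun c _ => by rw [hC1 c b hb]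
      rw [h1, mul_adjugate, Matrix.smul_apply, smul_eq_mul]
    · rw [if_neg hb]
      have h1 : (M * C) a b = (M * (1 : Matrix V V R)) a b := by
        rw [mul_apply, mul_apply]
        exact Finset.sum_congr rfl fun c _ => by rw [hC2 c b hb]
      rw [h1, Matrix.mul_one]
  have hdMC : (M * C).det
      = (M.det * M.det) * (toSquareBlockProp M (fun v => ¬ p v)).det := by
    rw [twoBlockTriangular_det (M * C) p, adj1_det_pair (M * C) i j hij p hp]
    · have h1 : toSquareBlockProp (M * C) (fun v => ¬ p v)
          = toSquareBlockProp M (fun v => ¬ p v) := by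
        ext a b
        rw [toSquareBlockProp_def, toSquareBlockProp_def, of_apply, of_apply, hMC, if_neg b.2]
      rw [h1, hMC, hMC, hMC, hMC, if_pos hi, if_pos hj, if_pos hi, if_pos hj, one_apply_eq,
        one_apply_eq, one_apply_ne hij, one_apply_ne hij.symm]
      ring
    · intro a ha b hb
      rw [hMC, if_pos hb, one_apply_ne, mul_zero]
      rintro rfl
      exact ha hb
  rw [det_mul, hdC, mul_assoc] at hdMC
  exact mul_left_cancel₀ hM hdMC

theorem cadj_symm {V : Type*} [Fintype V] [DecidableEq V] (G : SimpleGraph V) (i j : V) :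
    cadj G i j = cadj G j i := by
  have h1 : (adj ℤ G)ᵀ = adj ℤ G := by
    ext a b
    rw [transpose_apply, adj, of_apply, of_apply, SimpleGraph.adj_comm]
  have h2 : (cadj G)ᵀ = cadj G := by
    rw [cadj, adjugate_transpose, ← charmatrix_transpose, h1]
  have h3 := congrFun (congrFun h2 j) i
  rw [transpose_apply] at h3
  exact h3

theorem cadj_diag {V : Type*} [Fintype V] [DecidableEq V] (G : SimpleGraph V) (i : V) :
    cadj G i i = cp G {i} := by
  rw [cadj, adj1_cp]
  exact adj1_adjugate_diag _ i (fun v => v ∈ ({i} : Finset V)) (fun v => Finset.mem_singleton)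

theorem jacobi_two {V : Type*} [Fintype V] [DecidableEq V] (G : SimpleGraph V) (i j : V)
    (hij : i ≠ j) :
    cadj G i i * cadj G j j - cadj G i j * cadj G j i = (adj ℤ G).charpoly * cp G {i, j} := by
  rw [cadj, adj1_cp]
  exact adj1_jacobi _ (charpoly_monic (adj ℤ G)).ne_zero i j hij
    (fun v => v ∈ ({i, j} : Finset V))
    (fun v => by rw [Finset.mem_insert, Finset.mem_singleton])

theorem cp_empty {V : Type*} [Fintype V] [DecidableEq V] (G : SimpleGraph V) :
    cp G ∅ = (adj ℤ G).charpoly := by
  rw [cp, charpoly, adj1_charmatrix_sub _ _ Subtype.val_injective]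
  exact det_submatrix_equiv_self
    (Equiv.subtypeUnivEquiv (fun v => Finset.notMem_empty v)) (charmatrix (adj ℤ G))

end Pool.Agent.H66.SP
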