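import Pool.Agent.H66.SP.Adj1

/-!
# SP-15: the adjugate of the characteristic matrix and the moments

PROOF.  Let `A = adj ℤ G`, `φ = charpoly`, `N = cadj G` (a matrix over `ℤ[X]`), so
`N * charmatrix A = φ • 1`.  As `X^k - A^k = (X - A) * ∑_{a + b = k - 1} X^a A^b` (matrices over
`ℤ[X]`, `X` a scalar: `Commute.mul_geom_sum₂` or induction on `k`), we get
`X^k N = N * C(A^k) + φ • ∑_{b < k} X^(k-1-b) C(A^b)`.
The entries of `N` have degree `< card V = natDegree φ` (e.g. each entry of the adjugate is a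
determinant of size `card V` with one row constant; or: by the recursion `N_ij` ...).
So `∑_{b<k} C((A^b) i j) X^(k-1-b)` is the quotient of `X^k N_ij` by the monic polynomial `φ`
(`Polynomial.div_modByMonic_unique`).
-/

set_option autoImplicit false

namespace Pool.Agent.H66.SP

open Matrix Classical Polynomial

theorem adj2_key {V : Type*} [Fintype V] [DecidableEq V] (A : Matrix V V ℤ) (k : ℕ) :
    (X ^ k : ℤ[X]) • (charmatrix A).adjugate =
      (charmatrix A).adjugate * (C : ℤ →+* ℤ[X]).mapMatrix (A ^ k) +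
      A.charpoly • ∑ b ∈ Finset.range k, (X ^ (k - 1 - b) : ℤ[X]) •
        (C : ℤ →+* ℤ[X]).mapMatrix (A ^ b) := by
  have hX : (X : ℤ[X]) • (charmatrix A).adjugate =
      A.charpoly • (1 : Matrix V V ℤ[X]) +
        (charmatrix A).adjugate * (C : ℤ →+* ℤ[X]).mapMatrix A := by
    have h1 : (charmatrix A).adjugate * charmatrix A = A.charpoly • (1 : Matrix V V ℤ[X]) := by
      rw [adjugate_mul]; rfl
    have h2 : charmatrix A = Matrix.scalar V (X : ℤ[X]) - (C : ℤ →+* ℤ[X]).mapMatrix A := rfl
    rw [← h1]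
    conv_rhs =>
      rw [← Matrix.mul_add]
    have h3 : charmatrix A + (C : ℤ →+* ℤ[X]).mapMatrix A = Matrix.scalar V (X : ℤ[X]) := by
      rw [h2]; abel
    rw [h3]
    ext i j
    simp [Matrix.scalar_apply, Matrix.mul_diagonal, mul_comm]
  induction k with
  | zero => simp
  | succ k ih =>
    have h4 : (X ^ (k + 1) : ℤ[X]) • (charmatrix A).adjugate =
        (X : ℤ[X]) • ((X ^ k : ℤ[X]) • (charmatrix A).adjugate) := by
      rw [smul_smul, pow_succ']
    rw [h4, ih, smul_add, ← Matrix.smul_mul, hX, Matrix.add_mul, Matrix.smul_mul, Matrix.one_mul,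
      Matrix.mul_assoc, ← map_mul, ← pow_succ', Finset.sum_range_succ]
    have h5 : (X : ℤ[X]) • A.charpoly • ∑ b ∈ Finset.range k, (X ^ (k - 1 - b) : ℤ[X]) •
        (C : ℤ →+* ℤ[X]).mapMatrix (A ^ b) =
        A.charpoly • ∑ b ∈ Finset.range k, (X ^ (k + 1 - 1 - b) : ℤ[X]) •
        (C : ℤ →+* ℤ[X]).mapMatrix (A ^ b) := by
      rw [smul_comm, Finset.smul_sum]
      congr 1
      apply Finset.sum_congr rfl
      intro b hb
      rw [Finset.mem_range] at hb
      rw [smul_smul, ← pow_succ']
      congr 2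
      omega
    rw [h5, smul_add]
    simp only [add_tsub_cancel_right, le_refl, tsub_eq_zero_of_le, pow_zero, one_smul]
    abel

theorem adj2_deg {V : Type*} [Fintype V] [DecidableEq V] (A : Matrix V V ℤ) (i j : V) :
    ((charmatrix A).adjugate i j).degree < (Fintype.card V : WithBot ℕ) := by
  have hpos : 0 < Fintype.card V := Fintype.card_pos_iff.mpr ⟨i⟩
  rw [adjugate_apply, det_apply]
  have hle : (∑ σ : Equiv.Perm V, Equiv.Perm.sign σ •
      ∏ l, (charmatrix A).updateRow j (Pi.single i 1) (σ l) l).natDegree ≤ Fintype.card V - 1 := by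
    apply natDegree_sum_le_of_forall_le
    intro σ _
    have h1 : (∏ l, (charmatrix A).updateRow j (Pi.single i 1) (σ l) l).natDegree ≤
        Fintype.card V - 1 := by
      refine (natDegree_prod_le _ _).trans ?_
      rw [← Finset.add_sum_erase Finset.univ _ (Finset.mem_univ (σ⁻¹ j))]
      have h2 : ((charmatrix A).updateRow j (Pi.single i 1) (σ (σ⁻¹ j)) (σ⁻¹ j)).natDegree = 0 := by
        rw [show σ (σ⁻¹ j) = j by simp, updateRow_self]
        by_cases h : i = σ⁻¹ j
        · rw [h, Pi.single_eq_same, natDegree_one]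
        · rw [Pi.single_eq_of_ne (fun h' => h h'.symm), natDegree_zero]
      rw [h2, zero_add]
      refine (Finset.sum_le_card_nsmul _ _ 1 ?_).trans ?_
      · intro l hl
        rw [Finset.mem_erase] at hl
        have h3 : σ l ≠ j := by
          intro h; apply hl.1; rw [← h]; simp
        rw [updateRow_ne h3]
        refine (charmatrix_apply_natDegree_le _ _).trans ?_
        split_ifs <;> simp
      · rw [Finset.card_erase_of_mem (Finset.mem_univ _)]; simp
    rcases Int.units_eq_one_or (Equiv.Perm.sign σ) with h | h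
    · rw [h, one_smul]; exact h1
    · rw [h]; simpa using h1
  refine lt_of_le_of_lt degree_le_natDegree ?_
  exact_mod_cast (by omega : _ < Fintype.card V)

theorem cadj_div {V : Type*} [Fintype V] [DecidableEq V] (G : SimpleGraph V) (i j : V) (k : ℕ) :
    (X ^ k * cadj G i j) /ₘ (adj ℤ G).charpoly =
      ∑ b ∈ Finset.range k, C ((adj ℤ G ^ b) i j) * X ^ (k - 1 - b) := by
  have h := adj2_key (adj ℤ G) k
  have hij := congrFun (congrFun h i) j
  have hmon : (adj ℤ G).charpoly.Monic := charpoly_monic _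
  have : Nonempty V := ⟨i⟩
  refine (div_modByMonic_unique (∑ b ∈ Finset.range k, C ((adj ℤ G ^ b) i j) * X ^ (k - 1 - b))
    (((charmatrix (adj ℤ G)).adjugate * (C : ℤ →+* ℤ[X]).mapMatrix (adj ℤ G ^ k)) i j) hmon
    ⟨?_, ?_⟩).1
  · have h6 : (X ^ k * cadj G i j) = ((X ^ k : ℤ[X]) • (charmatrix (adj ℤ G)).adjugate) i j := rfl
    rw [h6, hij]
    simp only [Matrix.add_apply, Matrix.smul_apply, Matrix.sum_apply, smul_eq_mul]
    congr 1
    congr 1
    apply Finset.sum_congr rfl
    intro b _
    simp [mul_comm]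
  · rw [charpoly_degree_eq_dim, Matrix.mul_apply]
    refine lt_of_le_of_lt (degree_sum_le _ _) ?_
    rw [Finset.sup_lt_iff (by exact WithBot.bot_lt_coe _)]
    intro l _
    refine lt_of_le_of_lt (degree_mul_le _ _) ?_
    have h7 := adj2_deg (adj ℤ G) i l
    have h8 : ((C : ℤ →+* ℤ[X]).mapMatrix (adj ℤ G ^ k) l j).degree ≤ 0 := by
      rw [RingHom.mapMatrix_apply, Matrix.map_apply]; exact degree_C_le
    calc _ ≤ ((charmatrix (adj ℤ G)).adjugate i l).degree + 0 := add_le_add le_rfl h8
      _ = ((charmatrix (adj ℤ G)).adjugate i l).degree := add_zero _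
      _ < _ := h7

end Pool.Agent.H66.SP
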