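import Mathlib

/-!
# Spectra of vertex deleted subgraphs: definitions

`adj K G` adjacency matrix, `bv K b` the 0/1 vector of `b : V → Bool`, `eig A μ` the eigenspace,
`mult A μ` its dimension, `Ctl A v` : no eigenvector of `A` is orthogonal to all the vectors `v i`,
`glue G b H` : the graph on `V ⊕ R` with `G` on `V`, `H` on `R`, and `i : R` joined to the
vertices `u` with `b i u = true`.
-/

set_option autoImplicit false

namespace Pool.Agent.H66.SP

open Matrix

open Classical in
/-- adjacency matrix over `K` -/
noncomputable def adj (K : Type*) [Zero K] [One K] {V : Type*} (G : SimpleGraph V) :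
    Matrix V V K :=
  Matrix.of fun i j => if G.Adj i j then 1 else 0

/-- the 0/1 vector of `b` -/
def bv (K : Type*) [Zero K] [One K] {V : Type*} (b : V → Bool) : V → K :=
  fun v => if b v = true then 1 else 0

/-- eigenspace -/
def eig {K : Type*} [Field K] {V : Type*} [Fintype V] (A : Matrix V V K) (μ : K) :
    Submodule K (V → K) :=
  Module.End.eigenspace A.mulVecLin μ

theorem mem_eig {K : Type*} [Field K] {V : Type*} [Fintype V] (A : Matrix V V K) (μ : K)
    (x : V → K) : x ∈ eig A μ ↔ A *ᵥ x = μ • x := by
  unfold eig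
  rw [Module.End.mem_eigenspace_iff]
  rfl

/-- geometric multiplicity -/
noncomputable def mult {K : Type*} [Field K] {V : Type*} [Fintype V] (A : Matrix V V K) (μ : K) :
    ℕ :=
  Module.finrank K (eig A μ)

/-- no eigenvector of `A` is orthogonal to all the vectors `v i` -/
def Ctl {K : Type*} [Field K] {V : Type*} [Fintype V] (A : Matrix V V K) {ι : Type*}
    (v : ι → V → K) : Prop :=
  ∀ (μ : K) (x : V → K), x ∈ eig A μ → (∀ i, v i ⬝ᵥ x = 0) → x = 0

/-- the algebraic closure of the field with `p` elements -/
abbrev KK (p : ℕ) [Fact p.Prime] : Type := AlgebraicClosure (ZMod p)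

/-- control over the complex numbers -/
def CtlC {V : Type*} [Fintype V] (G : SimpleGraph V) {ι : Type*} (b : ι → V → Bool) : Prop :=
  Ctl (adj ℂ G) (fun i => bv ℂ (b i))

/-- control in characteristic `p` -/
def CtlP (p : ℕ) [Fact p.Prime] {V : Type*} [Fintype V] (G : SimpleGraph V) {ι : Type*}
    (b : ι → V → Bool) : Prop :=
  Ctl (adj (KK p) G) (fun i => bv (KK p) (b i))

/-- all multiplicities are at most `t` over the complex numbers and at most `s` in every positive
characteristic -/
def MultOK (t s : ℕ) {V : Type*} [Fintype V] (G : SimpleGraph V) : Prop :=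
  (∀ μ : ℂ, mult (adj ℂ G) μ ≤ t) ∧
  ∀ (p : ℕ) [Fact p.Prime] (μ : KK p), mult (adj (KK p) G) μ ≤ s

/-- the graph on `V ⊕ R` with `G` on `V`, `H` on `R`, and `i : R` joined to the `u` with
`b i u = true` -/
def glue {V R : Type*} (G : SimpleGraph V) (b : R → V → Bool) (H : SimpleGraph R) :
    SimpleGraph (V ⊕ R) where
  Adj x y :=
    match x, y with
    | .inl u, .inl v => G.Adj u v
    | .inl u, .inr i => b i u = true
    | .inr i, .inl u => b i u = true
    | .inr i, .inr j => H.Adj i j
  symm := ⟨by
    intro x y h
    match x, y with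
    | .inl u, .inl v => exact G.adj_symm h
    | .inl u, .inr i => exact h
    | .inr i, .inl u => exact h
    | .inr i, .inr j => exact H.adj_symm h⟩
  loopless := ⟨by
    intro x h
    match x with
    | .inl u => exact G.loopless.irrefl u h
    | .inr i => exact H.loopless.irrefl i h⟩

/-- add one vertex with neighbourhood `b` -/
def ext {V : Type*} (G : SimpleGraph V) (b : V → Bool) : SimpleGraph (V ⊕ Unit) :=
  glue G (fun _ => b) ⊥

/-- the integral span of the vectors `A^k e_i`, `i ∈ R`, is everything -/
def Full {V : Type*} [Fintype V] [DecidableEq V] (G : SimpleGraph V) (R : Set V) : Prop :=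
  Submodule.span ℤ {y : V → ℤ | ∃ k : ℕ, ∃ i ∈ R, y = (adj ℤ G ^ k) *ᵥ Pi.single i 1} = ⊤

/-- characteristic polynomial of the graph with the vertices of `S` deleted -/
noncomputable def cp {V : Type*} [Fintype V] [DecidableEq V] (G : SimpleGraph V)
    (S : Finset V) : Polynomial ℤ :=
  ((adj ℤ G).submatrix (Subtype.val : {v : V // v ∉ S} → V) Subtype.val).charpoly

end Pool.Agent.H66.SP
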