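import Pool.Agent.H66.SP.Kill
import Pool.Agent.H66.SP.Eigs
import Pool.Agent.H66.SP.Prim
import Pool.Agent.H66.SP.Exist

/-!
# SP-11: random roots control in every characteristic

PROOF.  Let `k = card V`, and write `b = (b¹, b²)` with `b¹ : Fin m₁ → V → Bool` and
`b² : Fin m₂ → V → Bool` (`Equiv.sumArrowEquivProdArrow`).
(i) The number of `b¹` which do not control over `ℂ` is at most
`k 2^(k m₁) (2^m₁ 3^t) / 3^m₁` by `card_not_ctl_le`.
(ii) Let `b¹` control over `ℂ`, and `P` the primes of `primes_ctrl G b¹`.  For `p ∉ P`, `CtlP p G b¹`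
so `CtlP p G b`.  For `p ∈ P` (prime) `CtlP p G b` fails only if `CtlP p G b²` fails, and the number of such
`b²` is at most `k 2^(k m₂) (2^m₂ 3^(m+1)) / 3^m₂` by `card_not_ctl_le` for `adj (KK p) G`.  So for
this `b¹` the number of bad `b²` is at most `2 k^3 * k 2^(k m₂) (2^m₂ 3^(m+1)) / 3^m₂`.
Sum: the number of bad `b` is at most
`2^(k m₂) * k 2^(k m₁) (2^m₁ 3^t)/3^m₁ + 2^(k m₁) * 2 k^4 2^(k m₂) (2^m₂ 3^(m+1)) / 3^m₂`.

Status: complete (helper26).
-/

set_option autoImplicit false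

namespace Pool.Agent.H66.SP

open Matrix Classical

theorem ctl_mono_finc {K : Type*} [Field K] {V : Type*} [Fintype V] {ι κ : Type*}
    (A : Matrix V V K) (v : ι → V → K) (f : κ → ι) (h : Ctl A (fun j => v (f j))) : Ctl A v :=
  fun μ x hx ho => h μ x hx (fun j => ho (f j))

theorem card_final_le {V : Type*} [Fintype V] [DecidableEq V] (t m m₁ m₂ : ℕ)
    (G : SimpleGraph V) (hG : MultOK t (m + 1) G) :
    (((Finset.univ : Finset ((Fin m₁ ⊕ Fin m₂) → V → Bool)).filter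
      (fun b => ¬ ∀ (p : ℕ) [Fact p.Prime], CtlP p G b)).card : ℝ) ≤
      2 ^ (Fintype.card V * (m₁ + m₂)) *
        ((Fintype.card V : ℝ) * (2 ^ m₁ * 3 ^ t / 3 ^ m₁) +
          2 * (Fintype.card V : ℝ) ^ 4 * (2 ^ m₂ * 3 ^ (m + 1) / 3 ^ m₂)) := by
  have hP0 : ∀ b : Fin m₁ → V → Bool, ∃ P : Finset ℕ, P.card ≤ 2 * Fintype.card V ^ 3 ∧
      (CtlC G b → ∀ (p : ℕ) [Fact p.Prime], p ∉ P → CtlP p G b) := by
    intro b
    by_cases h : CtlC G b
    · obtain ⟨P, h1, h2⟩ := primes_ctrl G b h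
      exact ⟨P, h1, fun _ => h2⟩
    · exact ⟨∅, by simp, fun h' => absurd h' h⟩
  choose P hPc hP using hP0
  have hkey : ∀ (B1 : Finset (Fin m₁ → V → Bool)) (B2 : ℕ → Finset (Fin m₂ → V → Bool))
      (S : Finset ((Fin m₁ ⊕ Fin m₂) → V → Bool))
      (_ : ∀ b ∈ S, (fun i => b (Sum.inl i)) ∈ B1 ∨
        ∃ p ∈ P (fun i => b (Sum.inl i)), (fun i => b (Sum.inr i)) ∈ B2 p)
      (_ : B1.card * 3 ^ m₁ ≤ Fintype.card V * (2 ^ (Fintype.card V * m₁) * (2 ^ m₁ * 3 ^ t)))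
      (_ : ∀ p, (B2 p).card * 3 ^ m₂ ≤
        Fintype.card V * (2 ^ (Fintype.card V * m₂) * (2 ^ m₂ * 3 ^ (m + 1)))),
      (S.card : ℝ) ≤ 2 ^ (Fintype.card V * (m₁ + m₂)) *
        ((Fintype.card V : ℝ) * (2 ^ m₁ * 3 ^ t / 3 ^ m₁) +
          2 * (Fintype.card V : ℝ) ^ 4 * (2 ^ m₂ * 3 ^ (m + 1) / 3 ^ m₂)) := by
    intro B1 B2 S hS h1 h2
    set k := Fintype.card V with hk
    let T : Finset ((Fin m₁ → V → Bool) × (Fin m₂ → V → Bool)) :=
      B1 ×ˢ Finset.univ ∪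
        (Finset.univ : Finset (Fin m₁ → V → Bool)).biUnion
          (fun b1 => ({b1} : Finset _) ×ˢ (P b1).biUnion B2)
    have hcard : S.card ≤ T.card := by
      apply Finset.card_le_card_of_injOn
        (fun b => ((fun i => b (Sum.inl i)), (fun i => b (Sum.inr i))))
      · intro b hb
        simp only [T, Finset.coe_union, Finset.coe_product, Finset.mem_coe, Finset.mem_union,
          Finset.mem_product, Finset.mem_univ, and_true, Finset.mem_biUnion, true_and,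
          Finset.mem_singleton, Set.mem_union, Set.mem_prod, Finset.coe_univ, Set.mem_univ]
        rcases hS b hb with h | ⟨p, hp, hp2⟩
        · left
          exact h
        · right
          exact ⟨fun i => b (Sum.inl i), rfl, p, hp, hp2⟩
      · intro b _ b' _ hbb
        simp only [Prod.mk.injEq] at hbb
        funext i
        rcases i with i | i
        · exact congrFun hbb.1 i
        · exact congrFun hbb.2 i
    have hu1 : (Finset.univ : Finset (Fin m₁ → V → Bool)).card = 2 ^ (k * m₁) := by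
      rw [Finset.card_univ, Fintype.card_fun, Fintype.card_fun, Fintype.card_bool,
        Fintype.card_fin, ← pow_mul]
    have hu2 : (Finset.univ : Finset (Fin m₂ → V → Bool)).card = 2 ^ (k * m₂) := by
      rw [Finset.card_univ, Fintype.card_fun, Fintype.card_fun, Fintype.card_bool,
        Fintype.card_fin, ← pow_mul]
    have hT : (T.card : ℝ) ≤ B1.card * 2 ^ (k * m₂) +
        ∑ b1 : Fin m₁ → V → Bool, ∑ p ∈ P b1, ((B2 p).card : ℝ) := by
      have e1 : T.card ≤ B1.card * 2 ^ (k * m₂) +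
          ∑ b1 : Fin m₁ → V → Bool, ∑ p ∈ P b1, (B2 p).card := by
        refine (Finset.card_union_le _ _).trans (Nat.add_le_add ?_ ?_)
        · rw [Finset.card_product, hu2]
        · refine Finset.card_biUnion_le.trans (Finset.sum_le_sum fun b1 _ => ?_)
          rw [Finset.card_product, Finset.card_singleton, one_mul]
          exact Finset.card_biUnion_le
      exact_mod_cast e1
    have h3 : (0 : ℝ) < 3 ^ m₁ := by positivity
    have h4 : (0 : ℝ) < 3 ^ m₂ := by positivity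
    have r1 : (B1.card : ℝ) ≤ (k : ℝ) * 2 ^ (k * m₁) * (2 ^ m₁ * 3 ^ t / 3 ^ m₁) := by
      have : (B1.card : ℝ) * 3 ^ m₁ ≤ k * (2 ^ (k * m₁) * (2 ^ m₁ * 3 ^ t)) := by
        exact_mod_cast h1
      have e : (k : ℝ) * 2 ^ (k * m₁) * (2 ^ m₁ * 3 ^ t / 3 ^ m₁) =
          (k * (2 ^ (k * m₁) * (2 ^ m₁ * 3 ^ t))) / 3 ^ m₁ := by ring
      rw [e, le_div_iff₀ h3]
      exact this
    have r2 : ∀ p, ((B2 p).card : ℝ) ≤
        (k : ℝ) * 2 ^ (k * m₂) * (2 ^ m₂ * 3 ^ (m + 1) / 3 ^ m₂) := by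
      intro p
      have : ((B2 p).card : ℝ) * 3 ^ m₂ ≤ k * (2 ^ (k * m₂) * (2 ^ m₂ * 3 ^ (m + 1))) := by
        exact_mod_cast h2 p
      have e : (k : ℝ) * 2 ^ (k * m₂) * (2 ^ m₂ * 3 ^ (m + 1) / 3 ^ m₂) =
          (k * (2 ^ (k * m₂) * (2 ^ m₂ * 3 ^ (m + 1)))) / 3 ^ m₂ := by ring
      rw [e, le_div_iff₀ h4]
      exact this
    have r3 : ∑ b1 : Fin m₁ → V → Bool, ∑ p ∈ P b1, ((B2 p).card : ℝ) ≤
        2 ^ (k * m₁) * (2 * (k : ℝ) ^ 3 *
          ((k : ℝ) * 2 ^ (k * m₂) * (2 ^ m₂ * 3 ^ (m + 1) / 3 ^ m₂))) := by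
      have hnn : (0 : ℝ) ≤ (k : ℝ) * 2 ^ (k * m₂) * (2 ^ m₂ * 3 ^ (m + 1) / 3 ^ m₂) := by
        positivity
      calc ∑ b1 : Fin m₁ → V → Bool, ∑ p ∈ P b1, ((B2 p).card : ℝ)
          ≤ ∑ b1 : Fin m₁ → V → Bool, (2 * (k : ℝ) ^ 3 *
          ((k : ℝ) * 2 ^ (k * m₂) * (2 ^ m₂ * 3 ^ (m + 1) / 3 ^ m₂))) := by
            refine Finset.sum_le_sum fun b1 _ => ?_
            refine (Finset.sum_le_sum fun p _ => r2 p).trans ?_
            rw [Finset.sum_const, nsmul_eq_mul]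
            refine mul_le_mul_of_nonneg_right ?_ hnn
            exact_mod_cast hPc b1
        _ = _ := by
            rw [Finset.sum_const, nsmul_eq_mul, hu1]
            push_cast
            ring
    have hS' : (S.card : ℝ) ≤ T.card := by exact_mod_cast hcard
    have r4 : (B1.card : ℝ) * 2 ^ (k * m₂) ≤
        (k : ℝ) * 2 ^ (k * m₁) * (2 ^ m₁ * 3 ^ t / 3 ^ m₁) * 2 ^ (k * m₂) :=
      mul_le_mul_of_nonneg_right r1 (by positivity)
    have e5 : (2 : ℝ) ^ (k * (m₁ + m₂)) = 2 ^ (k * m₁) * 2 ^ (k * m₂) := by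
      rw [← pow_add, mul_add]
    calc (S.card : ℝ) ≤ T.card := hS'
      _ ≤ _ := hT
      _ ≤ (k : ℝ) * 2 ^ (k * m₁) * (2 ^ m₁ * 3 ^ t / 3 ^ m₁) * 2 ^ (k * m₂) +
          2 ^ (k * m₁) * (2 * (k : ℝ) ^ 3 *
          ((k : ℝ) * 2 ^ (k * m₂) * (2 ^ m₂ * 3 ^ (m + 1) / 3 ^ m₂))) := add_le_add r4 r3
      _ = _ := by
          rw [e5]
          ring
  refine hkey ((Finset.univ : Finset (Fin m₁ → V → Bool)).filter (fun b => ¬ CtlC G b))
    (fun p => if hp : p.Prime then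
      (haveI : Fact p.Prime := ⟨hp⟩
       (Finset.univ : Finset (Fin m₂ → V → Bool)).filter (fun b => ¬ CtlP p G b)) else ∅)
    _ ?_ ?_ ?_
  · intro b hb
    rw [Finset.mem_filter] at hb
    have hb2 := hb.2
    push Not at hb2
    obtain ⟨p, hp, hpb⟩ := hb2
    by_cases hc : CtlC G (fun i => b (Sum.inl i))
    · right
      refine ⟨p, ?_, ?_⟩
      · by_contra hnp
        exact hpb (ctl_mono_finc _ _ (Sum.inl : Fin m₁ → Fin m₁ ⊕ Fin m₂) (hP _ hc p hnp))
      · rw [dif_pos hp.out, Finset.mem_filter]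
        refine ⟨Finset.mem_univ _, fun h => hpb ?_⟩
        exact ctl_mono_finc _ _ (Sum.inr : Fin m₂ → Fin m₁ ⊕ Fin m₂) h
    · left
      rw [Finset.mem_filter]
      exact ⟨Finset.mem_univ _, hc⟩
  · exact card_not_ctl_le (adj ℂ G) t m₁ hG.1
  · intro p
    by_cases hp : p.Prime
    · haveI : Fact p.Prime := ⟨hp⟩
      rw [dif_pos hp]
      exact card_not_ctl_le (adj (KK p) G) (m + 1) m₂ (hG.2 p)
    · rw [dif_neg hp]
      simp

end Pool.Agent.H66.SP
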