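import Pool.Agent.H66.SP.Odl

/-!
# SP-2: random 0/1 vectors kill a subspace of small dimension

PROOF.  Put `w E = 3 ^ finrank E - 1`.  For one `b`, let `E_b = {x ∈ E | b · x = 0}`.  If
`b` is not orthogonal to `E` then `finrank E_b = finrank E - 1`, otherwise `E_b = E`; if `E ≠ 0`
(dimension `d ≥ 1`) the number `N` of `b` orthogonal to `E` is at most `2^(|V|-1)` by
`card_orth_le`.  So `∑_b w (E_b) = N (3^d - 1) + (2^|V| - N) (3^(d-1) - 1) ≤
2^|V| ((3^d - 1) + (3^(d-1) - 1)) / 2 ≤ (2/3) 2^|V| (3^d - 1) = (2/3) 2^|V| w E`, also true for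
`d = 0`.  By induction on `m` (split `Fin (m+1) → V → Bool` as first entry and rest, `Fin.cons`):
`∑_{b : Fin m → V → Bool} w (E ∩ {b i}ᗮ) ≤ (2/3)^m 2^(|V| m) w E`.  The `b` which are counted in
the theorem have `w ≥ 2 ≥ 1`, so their number is at most `(2/3)^m 2^(|V| m) 3^t`.
It may be easier to prove directly by induction on `m` (for all `E`) the inequality
`count(m, E) * 3^m ≤ 2^(|V| m) * 2^m * (3^(finrank E) - 1)` (natural numbers, truncated
subtraction is harmless as `3^d ≥ 1`): `count(m+1, E) = ∑_b count(m, E_b)`, and for `m = 0` the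
count is `1 ≤ 3^d - 1` if `E ≠ 0` and `0` if `E = 0`.
-/

set_option autoImplicit false

namespace Pool.Agent.H66.SP

open Matrix Classical

/-- the subspace of `E` orthogonal to the 0/1 vector `b` -/
private noncomputable def cut {K : Type*} [Field K] {V : Type*} [Fintype V] [DecidableEq V]
    (E : Submodule K (V → K)) (b : V → Bool) : Submodule K (V → K) :=
  { carrier := {x | x ∈ E ∧ bv K b ⬝ᵥ x = 0}
    add_mem' := fun {x y} hx hy => ⟨E.add_mem hx.1 hy.1, by rw [dotProduct_add, hx.2, hy.2, add_zero]⟩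
    zero_mem' := ⟨E.zero_mem, dotProduct_zero _⟩
    smul_mem' := fun c x hx => ⟨E.smul_mem c hx.1, by rw [dotProduct_smul, hx.2, smul_zero]⟩ }

private lemma mem_cut {K : Type*} [Field K] {V : Type*} [Fintype V] [DecidableEq V]
    {E : Submodule K (V → K)} {b : V → Bool} {x : V → K} :
    x ∈ cut E b ↔ x ∈ E ∧ bv K b ⬝ᵥ x = 0 := Iff.rfl

private lemma cut_sub {K : Type*} [Field K] {V : Type*} [Fintype V] [DecidableEq V]
    (E : Submodule K (V → K)) (b : V → Bool) : cut E b ≤ E := fun _ hx => hx.1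

private lemma cut_le {K : Type*} [Field K] {V : Type*} [Fintype V] [DecidableEq V]
    (E : Submodule K (V → K)) (b : V → Bool) :
    Module.finrank K (cut E b) ≤ Module.finrank K E :=
  Submodule.finrank_mono (cut_sub E b)

private lemma cut_lt {K : Type*} [Field K] {V : Type*} [Fintype V] [DecidableEq V]
    (E : Submodule K (V → K)) (b : V → Bool) (h : ¬ ∀ x ∈ E, bv K b ⬝ᵥ x = 0) :
    Module.finrank K (cut E b) + 1 ≤ Module.finrank K E := by
  have h1 : cut E b < E := by
    refine lt_of_le_of_ne (cut_sub E b) fun h2 => h fun x hx => ?_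
    rw [← h2] at hx
    exact (mem_cut.1 hx).2
  exact Submodule.finrank_lt_finrank_of_lt h1

/-- the counting function -/
private noncomputable def cnt {K : Type*} [Field K] {V : Type*} [Fintype V] [DecidableEq V] (m : ℕ)
    (E : Submodule K (V → K)) : ℕ :=
  ((Finset.univ : Finset (Fin m → V → Bool)).filter
      (fun b => ∃ x ∈ E, x ≠ 0 ∧ ∀ i, bv K (b i) ⬝ᵥ x = 0)).card

private lemma cnt_succ {K : Type*} [Field K] {V : Type*} [Fintype V] [DecidableEq V] (m : ℕ)
    (E : Submodule K (V → K)) : cnt (m + 1) E = ∑ b : V → Bool, cnt m (cut E b) := by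
  unfold cnt
  simp only [Finset.card_filter]
  rw [← (Fin.consEquiv (fun _ : Fin (m + 1) => V → Bool)).sum_comp, Fintype.sum_prod_type]
  refine Finset.sum_congr rfl fun b _ => Finset.sum_congr rfl fun c _ => ?_
  have e : (∃ x ∈ E, x ≠ 0 ∧ ∀ i, bv K ((Fin.consEquiv (fun _ : Fin (m + 1) => V → Bool)) (b, c) i)
      ⬝ᵥ x = 0) ↔ (∃ x ∈ cut E b, x ≠ 0 ∧ ∀ i, bv K (c i) ⬝ᵥ x = 0) := by
    constructor
    · rintro ⟨x, hx, hx0, h⟩
      exact ⟨x, mem_cut.2 ⟨hx, h 0⟩, hx0, fun i => h i.succ⟩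
    · rintro ⟨x, hx, hx0, h⟩
      refine ⟨x, (mem_cut.1 hx).1, hx0, fun i => ?_⟩
      refine Fin.cases ?_ (fun j => ?_) i
      · exact (mem_cut.1 hx).2
      · exact h j
  simp only [e]

private lemma kill_arith (N P A : ℕ) (hA : 1 ≤ A) (hN : 2 * N ≤ P) :
    3 * (N * (3 * A - 1) + (P - N) * (A - 1)) ≤ P * 2 * (3 * A - 1) := by
  obtain ⟨a, rfl⟩ : ∃ a, A = a + 1 := ⟨A - 1, by omega⟩
  obtain ⟨q, rfl⟩ : ∃ q, P = 2 * N + q := ⟨P - 2 * N, by omega⟩
  have e1 : 3 * (a + 1) - 1 = 3 * a + 2 := by omega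
  have e2 : 2 * N + q - N = N + q := by omega
  rw [e1, e2, Nat.add_sub_cancel]
  nlinarith [Nat.zero_le (N * a), Nat.zero_le (q * a), Nat.zero_le N, Nat.zero_le q]

private lemma kill_sum {K : Type*} [Field K] {V : Type*} [Fintype V] [DecidableEq V]
    (E : Submodule K (V → K)) :
    3 * ∑ b : V → Bool, (3 ^ Module.finrank K (cut E b) - 1) ≤
      2 ^ Fintype.card V * 2 * (3 ^ Module.finrank K E - 1) := by
  rcases Nat.eq_zero_or_pos (Module.finrank K E) with h0 | hpos
  · have h1 : ∀ b : V → Bool, 3 ^ Module.finrank K (cut E b) - 1 = 0 := by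
      intro b
      have h2 := cut_le E b
      rw [h0] at h2
      rw [Nat.le_zero.1 h2]
      rfl
    simp [h1]
  · set d := Module.finrank K E with hd
    set S : Finset (V → Bool) :=
      (Finset.univ : Finset (V → Bool)).filter (fun b => ∀ x ∈ E, bv K b ⬝ᵥ x = 0) with hS
    have hN : 2 * S.card ≤ 2 ^ Fintype.card V := by
      have h1 := card_orth_le (K := K) (V := V) E
      have h2 : 2 ^ 1 ≤ 2 ^ d := Nat.pow_le_pow_right (by norm_num) hpos
      calc 2 * S.card = S.card * 2 ^ 1 := by ring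
        _ ≤ S.card * 2 ^ d := Nat.mul_le_mul_left _ h2
        _ ≤ 2 ^ Fintype.card V := h1
    obtain ⟨e, he⟩ : ∃ e, d = e + 1 := ⟨d - 1, by omega⟩
    have hA : 1 ≤ 3 ^ e := Nat.one_le_pow _ _ (by norm_num)
    have h3 : 3 ^ d = 3 * 3 ^ e := by rw [he, pow_succ, mul_comm]
    have hle : ∑ b : V → Bool, (3 ^ Module.finrank K (cut E b) - 1) ≤
        S.card * (3 * 3 ^ e - 1) + (2 ^ Fintype.card V - S.card) * (3 ^ e - 1) := by
      rw [← Finset.sum_filter_add_sum_filter_not Finset.univ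
        (fun b : V → Bool => ∀ x ∈ E, bv K b ⬝ᵥ x = 0)]
      refine add_le_add ?_ ?_
      · refine (Finset.sum_le_card_nsmul _ _ (3 * 3 ^ e - 1) fun b _ => ?_).trans (le_of_eq rfl)
        rw [← h3]
        exact Nat.sub_le_sub_right (Nat.pow_le_pow_right (by norm_num) (cut_le E b)) 1
      · refine (Finset.sum_le_card_nsmul _ _ (3 ^ e - 1) fun b hb => ?_).trans ?_
        · have h4 := cut_lt E b (Finset.mem_filter.1 hb).2
          rw [← hd, he] at h4
          exact Nat.sub_le_sub_right (Nat.pow_le_pow_right (by norm_num) (by omega)) 1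
        · rw [smul_eq_mul]
          refine Nat.mul_le_mul_right _ ?_
          have h5 := Finset.card_filter_add_card_filter_not (s := (Finset.univ : Finset (V → Bool)))
            (fun b : V → Bool => ∀ x ∈ E, bv K b ⬝ᵥ x = 0)
          rw [Finset.card_univ, Fintype.card_fun, Fintype.card_bool] at h5
          exact Nat.le_sub_of_add_le (by rw [add_comm]; exact h5.le)
    calc 3 * ∑ b : V → Bool, (3 ^ Module.finrank K (cut E b) - 1)
        ≤ 3 * (S.card * (3 * 3 ^ e - 1) + (2 ^ Fintype.card V - S.card) * (3 ^ e - 1)) :=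
          Nat.mul_le_mul_left _ hle
      _ ≤ 2 ^ Fintype.card V * 2 * (3 * 3 ^ e - 1) := kill_arith _ _ _ hA hN
      _ = 2 ^ Fintype.card V * 2 * (3 ^ d - 1) := by rw [h3]

private lemma kill_aux {K : Type*} [Field K] {V : Type*} [Fintype V] [DecidableEq V] (m : ℕ) :
    ∀ E : Submodule K (V → K), cnt m E * 3 ^ m ≤
      2 ^ (Fintype.card V * m) * 2 ^ m * (3 ^ Module.finrank K E - 1) := by
  induction m with
  | zero =>
    intro E
    simp only [pow_zero, mul_one, Nat.mul_zero, one_mul]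
    by_cases h : Module.finrank K E = 0
    · have h1 : cnt 0 E = 0 := by
        unfold cnt
        rw [Finset.card_eq_zero, Finset.filter_eq_empty_iff]
        rintro b _ ⟨x, hx, hx0, _⟩
        rw [Submodule.finrank_eq_zero] at h
        rw [h, Submodule.mem_bot] at hx
        exact hx0 hx
      rw [h1]
      exact Nat.zero_le _
    · have h1 : cnt 0 E ≤ 1 := by
        unfold cnt
        refine (Finset.card_le_univ _).trans ?_
        simp
      have h2 : 3 ^ 1 ≤ 3 ^ Module.finrank K E :=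
        Nat.pow_le_pow_right (by norm_num) (Nat.pos_of_ne_zero h)
      omega
  | succ m ih =>
    intro E
    rw [cnt_succ, Finset.sum_mul]
    calc ∑ b : V → Bool, cnt m (cut E b) * 3 ^ (m + 1)
        = 3 * ∑ b : V → Bool, cnt m (cut E b) * 3 ^ m := by
          rw [Finset.mul_sum]
          exact Finset.sum_congr rfl fun b _ => by ring
      _ ≤ 3 * ∑ b : V → Bool, 2 ^ (Fintype.card V * m) * 2 ^ m *
            (3 ^ Module.finrank K (cut E b) - 1) :=
          Nat.mul_le_mul_left _ (Finset.sum_le_sum fun b _ => ih (cut E b))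
      _ = 2 ^ (Fintype.card V * m) * 2 ^ m *
            (3 * ∑ b : V → Bool, (3 ^ Module.finrank K (cut E b) - 1)) := by
          rw [← Finset.mul_sum]
          ring
      _ ≤ 2 ^ (Fintype.card V * m) * 2 ^ m *
            (2 ^ Fintype.card V * 2 * (3 ^ Module.finrank K E - 1)) :=
          Nat.mul_le_mul_left _ (kill_sum E)
      _ = 2 ^ (Fintype.card V * (m + 1)) * 2 ^ (m + 1) * (3 ^ Module.finrank K E - 1) := by
          rw [Nat.mul_succ, pow_add]
          ring

theorem kill {K : Type*} [Field K] {V : Type*} [Fintype V] [DecidableEq V] (m t : ℕ)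
    (E : Submodule K (V → K)) (ht : Module.finrank K E ≤ t) :
    ((Finset.univ : Finset (Fin m → V → Bool)).filter
      (fun b => ∃ x ∈ E, x ≠ 0 ∧ ∀ i, bv K (b i) ⬝ᵥ x = 0)).card * 3 ^ m ≤
      2 ^ (Fintype.card V * m) * (2 ^ m * 3 ^ t) := by
  have h1 := kill_aux (K := K) (V := V) m E
  have h2 : 3 ^ Module.finrank K E - 1 ≤ 3 ^ t :=
    (Nat.sub_le _ _).trans (Nat.pow_le_pow_right (by norm_num) ht)
  calc _ = cnt m E * 3 ^ m := rfl
    _ ≤ 2 ^ (Fintype.card V * m) * 2 ^ m * (3 ^ Module.finrank K E - 1) := h1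
    _ ≤ 2 ^ (Fintype.card V * m) * 2 ^ m * 3 ^ t := Nat.mul_le_mul_left _ h2
    _ = 2 ^ (Fintype.card V * m) * (2 ^ m * 3 ^ t) := by ring

end Pool.Agent.H66.SP
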