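import Pool.Agent.H66.SP.Defs

/-!
# SP-12: no eigenvector modulo a prime vanishes on `R`: the integral span is everything

PROOF of `full_of_eig`.  Let `M` be the span of the vectors `A^k e_i`, `i ∈ R` (`A = adj ℤ G`), and
suppose `M ≠ ⊤`.  `V → ℤ` is a finitely generated module so there is a maximal submodule `N ⊇ M`
(`IsCoatomic`), and `(V → ℤ) / N` is a simple `ℤ`-module, so has prime order `p`; so there are a
prime `p` and a nonzero additive map `f : (V → ℤ) → ZMod p` which vanishes on `M`.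
(Other way: the quotient `Q = (V → ℤ)/M` is a nonzero finitely generated abelian group, so there is
a prime `p` with `p Q ≠ Q`.)  Put `c v = f (Pi.single v 1)`, so `f y = ∑ v, y v * c v`; `c ≠ 0`.
Let `K = KK p` and view `c` as a vector `c' : V → K`, `c' ≠ 0`.  For all `k` and `i ∈ R`,
`(adj K G ^ k *ᵥ c') i = ∑ v, (A^k) i v * c v = f (A^k e_i) = 0` (`A` symmetric).
Let `U = {x : V → K | ∀ k, ∀ i ∈ R, (adj K G ^ k *ᵥ x) i = 0}`, a subspace stable under
`adj K G`, containing `c' ≠ 0`.  `K` is algebraically closed, so there is an eigenvector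
`x ∈ U`, `x ≠ 0` (`Module.End.exists_eigenvalue` for the restriction); it vanishes on `R` (`k = 0`),
contradicting the hypothesis.

PROOF of `full_glue`.  Let `x ∈ eig (adj K (glue G b H)) μ` vanish on all `inr i`.  Then
`x' = x ∘ inl` satisfies `adj K G *ᵥ x' = μ • x'` (look at the coordinates `inl u`) and
`bv K (b i) ⬝ᵥ x' = μ * x (inr i) = 0` (coordinate `inr i`); so `x' = 0` by `CtlP` and `x = 0`.
Apply `full_of_eig` with `R = Set.range inr`.
-/

set_option autoImplicit false

namespace Pool.Agent.H66.SP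

open Matrix Classical

lemma SpanTop_exists {V : Type*} [Fintype V] (M : Submodule ℤ (V → ℤ)) (hM : M ≠ ⊤) :
    ∃ (p : ℕ) (_ : Fact p.Prime) (f : (V → ℤ) →+ ZMod p), f ≠ 0 ∧ ∀ y ∈ M, f y = 0 := by
  obtain ⟨N, hN, hMN⟩ := (eq_top_or_exists_le_coatom M).resolve_left hM
  have hs : IsSimpleModule ℤ ((V → ℤ) ⧸ N) := isSimpleModule_iff_isCoatom.2 hN
  obtain ⟨I, hI, ⟨e⟩⟩ := isSimpleModule_iff_quot_maximal.1 hs
  have hI0 : I ≠ ⊥ := Ring.ne_bot_of_isMaximal_of_not_isField hI Int.not_isField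
  obtain ⟨a, ha⟩ := (IsPrincipalIdealRing.principal I).principal
  subst ha
  have ha0 : a ≠ 0 := by
    rintro rfl
    apply hI0
    simp
  have hap : Prime a := (Ideal.span_singleton_prime ha0).1 hI.isPrime
  have hp : a.natAbs.Prime := Int.prime_iff_natAbs_prime.1 hap
  refine ⟨a.natAbs, ⟨hp⟩, ((Int.quotientSpanEquivZMod a).toAddEquiv.toAddMonoidHom).comp
    ((e.toLinearMap.comp N.mkQ).toAddMonoidHom), ?_, ?_⟩
  · intro h0
    apply hN.1
    rw [eq_top_iff]
    intro y _
    have h1 := DFunLike.congr_fun h0 y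
    have h2 : (Int.quotientSpanEquivZMod a) (e (N.mkQ y)) = 0 := h1
    have h3 : e (N.mkQ y) = 0 := (map_eq_zero_iff _ (Int.quotientSpanEquivZMod a).injective).1 h2
    have h4 : N.mkQ y = 0 := (map_eq_zero_iff _ e.injective).1 h3
    exact (Submodule.Quotient.mk_eq_zero N).1 h4
  · intro y hy
    have h4 : N.mkQ y = 0 := (Submodule.Quotient.mk_eq_zero N).2 (hMN hy)
    show (Int.quotientSpanEquivZMod a) (e (N.mkQ y)) = 0
    rw [h4, map_zero, map_zero]

lemma SpanTop_map {V : Type*} [Fintype V] [DecidableEq V] (K : Type*) [Field K] (G : SimpleGraph V) :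
    adj K G = (Int.castRingHom K).mapMatrix (adj ℤ G) := by
  ext i j
  simp only [adj, Matrix.of_apply, RingHom.mapMatrix_apply, Matrix.map_apply]
  split_ifs <;> simp

lemma SpanTop_symm {V : Type*} [Fintype V] (G : SimpleGraph V) : (adj ℤ G).IsSymm := by
  ext i j
  simp only [adj, Matrix.of_apply, Matrix.transpose_apply, G.adj_comm]

lemma SpanTop_pow {V : Type*} [Fintype V] [DecidableEq V] (K : Type*) [Field K]
    (G : SimpleGraph V) (k : ℕ) (i j : V) :
    (adj K G ^ k) i j = (((adj ℤ G ^ k) i j : ℤ) : K) := by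
  rw [SpanTop_map, ← map_pow, RingHom.mapMatrix_apply, Matrix.map_apply]
  rfl

lemma SpanTop_apply {V : Type*} [Fintype V] [DecidableEq V] {p : ℕ} (f : (V → ℤ) →+ ZMod p)
    (y : V → ℤ) : f y = ∑ v, (y v : ZMod p) * f (Pi.single v 1) := by
  conv_lhs => rw [← Finset.univ_sum_single y]
  rw [map_sum]
  refine Finset.sum_congr rfl fun v _ => ?_
  have h : (Pi.single v (y v) : V → ℤ) = y v • Pi.single v 1 := by
    rw [← Pi.single_smul, smul_eq_mul, mul_one]
  rw [h, map_zsmul, zsmul_eq_mul]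

/-- the vectors all of whose iterates vanish on `R` -/
def SpanTop_U {V : Type*} [Fintype V] [DecidableEq V] {K : Type*} [Field K] (A : Matrix V V K)
    (R : Set V) : Submodule K (V → K) where
  carrier := {x | ∀ k : ℕ, ∀ i ∈ R, (A ^ k *ᵥ x) i = 0}
  zero_mem' := by
    intro k i _
    rw [Matrix.mulVec_zero]
    rfl
  add_mem' := by
    intro x y hx hy k i hi
    rw [Matrix.mulVec_add, Pi.add_apply, hx k i hi, hy k i hi, add_zero]
  smul_mem' := by
    intro c x hx k i hi
    rw [Matrix.mulVec_smul, Pi.smul_apply, hx k i hi, smul_zero]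

lemma SpanTop_stable {V : Type*} [Fintype V] [DecidableEq V] {K : Type*} [Field K]
    (A : Matrix V V K) (R : Set V) : ∀ x ∈ SpanTop_U A R, A.mulVecLin x ∈ SpanTop_U A R := by
  intro x hx k i hi
  rw [Matrix.mulVecLin_apply, Matrix.mulVec_mulVec, ← pow_succ]
  exact hx (k + 1) i hi

theorem full_of_eig {V : Type*} [Fintype V] [DecidableEq V] (G : SimpleGraph V) (R : Set V)
    (h : ∀ (p : ℕ) [Fact p.Prime] (μ : KK p) (x : V → KK p), x ∈ eig (adj (KK p) G) μ →
      (∀ i ∈ R, x i = 0) → x = 0) : Full G R := by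
  by_contra hF
  obtain ⟨p, hp, f, hf, hfM⟩ := SpanTop_exists _ hF
  have hinj : Function.Injective (algebraMap (ZMod p) (KK p)) := (algebraMap (ZMod p) (KK p)).injective
  let c : V → KK p := fun v => algebraMap (ZMod p) (KK p) (f (Pi.single v 1))
  have hc : c ≠ 0 := by
    intro h0
    apply hf
    refine DFunLike.ext _ _ fun y => ?_
    rw [SpanTop_apply]
    refine Finset.sum_eq_zero fun v _ => ?_
    have h1 : algebraMap (ZMod p) (KK p) (f (Pi.single v 1)) = 0 := congrFun h0 v
    rw [(map_eq_zero_iff _ hinj).1 h1, mul_zero]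
  have hcU : c ∈ SpanTop_U (adj (KK p) G) R := by
    intro k i hi
    have h1 : f ((adj ℤ G ^ k) *ᵥ Pi.single i 1) = 0 :=
      hfM _ (Submodule.subset_span ⟨k, i, hi, rfl⟩)
    rw [SpanTop_apply, Matrix.mulVec_single_one] at h1
    have h2 := congrArg (algebraMap (ZMod p) (KK p)) h1
    rw [map_zero, map_sum] at h2
    rw [← h2]
    show ∑ v, (adj (KK p) G ^ k) i v * c v = _
    refine Finset.sum_congr rfl fun v _ => ?_
    rw [map_mul, SpanTop_pow, Matrix.col_apply, ((SpanTop_symm G).pow k).apply i v, map_intCast]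
  have : Nontrivial (SpanTop_U (adj (KK p) G) R) :=
    ⟨⟨⟨c, hcU⟩, 0, fun h0 => hc (congrArg Subtype.val h0)⟩⟩
  obtain ⟨μ, hμ⟩ := Module.End.exists_eigenvalue
    ((adj (KK p) G).mulVecLin.restrict (SpanTop_stable (adj (KK p) G) R))
  obtain ⟨x, hx⟩ := hμ.exists_hasEigenvector
  apply hx.2
  have h1 := hx.apply_eq_smul
  have h2 : (adj (KK p) G) *ᵥ (x : V → KK p) = μ • (x : V → KK p) := congrArg Subtype.val h1
  have h3 := h p μ x ((mem_eig _ _ _).2 h2) (fun i hi => by
    have h4 := x.2 0 i hi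
    rwa [pow_zero, Matrix.one_mulVec] at h4)
  exact Subtype.ext h3

theorem full_glue {V R : Type*} [Fintype V] [DecidableEq V] [Fintype R] [DecidableEq R]
    (G : SimpleGraph V) (b : R → V → Bool) (H : SimpleGraph R)
    (h : ∀ (p : ℕ) [Fact p.Prime], CtlP p G b) :
    Full (glue G b H) (Set.range Sum.inr) := by
  refine full_of_eig _ _ ?_
  intro p hp μ x hx hR
  have hR' : ∀ i : R, x (Sum.inr i) = 0 := fun i => hR _ ⟨i, rfl⟩
  rw [mem_eig] at hx
  have h1 : ∀ w : V ⊕ R, ∑ v : V, adj (KK p) (glue G b H) w (Sum.inl v) * x (Sum.inl v) =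
      μ * x w := by
    intro w
    have h2 := congrFun hx w
    have h3 : ∑ z : V ⊕ R, adj (KK p) (glue G b H) w z * x z = μ * x w := h2
    rw [Fintype.sum_sum_type] at h3
    rw [← h3]
    symm
    rw [add_eq_left]
    refine Finset.sum_eq_zero fun i _ => ?_
    rw [hR' i, mul_zero]
  have h4 : (fun v => x (Sum.inl v)) = 0 := by
    refine h p μ (fun v => x (Sum.inl v)) ?_ ?_
    · rw [mem_eig]
      ext u
      exact h1 (Sum.inl u)
    · intro i
      have h5 := h1 (Sum.inr i)
      rw [hR' i, mul_zero] at h5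
      rw [← h5]
      refine Finset.sum_congr rfl fun v _ => ?_
      congr 1
      by_cases hb : b i v = true
      · simp [bv, adj, glue, hb]
      · simp [bv, adj, glue, hb]
  ext w
  rcases w with v | i
  · exact congrFun h4 v
  · exact hR' i

end Pool.Agent.H66.SP
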