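import Pool.Agent.H66.SP.Rec
import Pool.Agent.H66.SP.FinC
import Pool.Agent.H66.SP.SpanTop

/-!
# SP-19: almost all graphs are generated by every fixed set of `C log n` vertices

Let `L = Nat.clog 2 n` (so `n ≤ 2^L`), `t = 4 L`, `m = 14 L`, `m₁ = 20 L`, `m₂ = 60 L`,
`C = 80`.
-/

set_option autoImplicit false

namespace Pool.Agent.H66.SP

open Matrix Classical

theorem full_mono {V : Type*} [Fintype V] [DecidableEq V] {G : SimpleGraph V} {R R' : Set V}
    (h : R ⊆ R') (hG : Full G R) : Full G R' := by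
  unfold Full at hG ⊢
  rw [eq_top_iff, ← hG]
  apply Submodule.span_mono
  rintro y ⟨k, i, hi, rfl⟩
  exact ⟨k, i, h hi, rfl⟩

/-- the numerical estimate for the vertex exposure -/
theorem num1 (n L : ℕ) (hL : 2 ≤ L) (hn : n ≤ 2 ^ L) :
    n * (2 ^ (14 * L) * 3 ^ (4 * L)) < 3 ^ (14 * L) := by
  calc n * (2 ^ (14 * L) * 3 ^ (4 * L)) ≤ 2 ^ L * (2 ^ (14 * L) * 3 ^ (4 * L)) :=
        Nat.mul_le_mul_right _ hn
    _ = 2654208 ^ L := by
        rw [pow_mul, pow_mul, ← mul_pow, ← mul_pow]; norm_num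
    _ < 4782969 ^ L := Nat.pow_lt_pow_left (by norm_num) (by omega)
    _ = 3 ^ (14 * L) := by rw [pow_mul]; norm_num

theorem num2 (k n L : ℕ) (hL : 2 ≤ L) (hn : n ≤ 2 ^ L) (hk : k ≤ n) :
    (n : ℝ) * ((k : ℝ) * ((k : ℝ) / 2 ^ (4 * L) + 2 * (k : ℝ) ^ 4 / 2 ^ (14 * L + 1)) +
      ((k : ℝ) * (2 ^ (20 * L) * 3 ^ (4 * L) / 3 ^ (20 * L)) +
        2 * (k : ℝ) ^ 4 * (2 ^ (60 * L) * 3 ^ (14 * L + 1) / 3 ^ (60 * L)))) ≤ 1 := by
  have hn' : (n : ℝ) ≤ 2 ^ L := by exact_mod_cast hn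
  have hk' : (k : ℝ) ≤ 2 ^ L := by exact_mod_cast hk.trans hn
  have hk0 : (0 : ℝ) ≤ k := Nat.cast_nonneg _
  have hn0 : (0 : ℝ) ≤ n := Nat.cast_nonneg _
  have e1 : (n : ℝ) * ((k : ℝ) * ((k : ℝ) / 2 ^ (4 * L))) ≤ (1 / 2) ^ L := by
    calc (n : ℝ) * ((k : ℝ) * ((k : ℝ) / 2 ^ (4 * L)))
        ≤ 2 ^ L * (2 ^ L * (2 ^ L / 2 ^ (4 * L))) := by gcongr
      _ = (1 / 2) ^ L := by
        rw [pow_mul, ← div_pow, ← mul_pow, ← mul_pow]; norm_num
  have e2 : (n : ℝ) * ((k : ℝ) * (2 * (k : ℝ) ^ 4 / 2 ^ (14 * L + 1))) ≤ (1 / 256) ^ L := by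
    calc (n : ℝ) * ((k : ℝ) * (2 * (k : ℝ) ^ 4 / 2 ^ (14 * L + 1)))
        ≤ 2 ^ L * (2 ^ L * (2 * (2 ^ L) ^ 4 / 2 ^ (14 * L + 1))) := by gcongr
      _ = (1 / 256) ^ L := by
        rw [pow_succ (2 : ℝ) (14 * L), pow_mul]
        rw [show (2 : ℝ) ^ L * (2 ^ L * (2 * (2 ^ L) ^ 4 / ((2 ^ 14) ^ L * 2))) =
          2 ^ L * (2 ^ L * ((2 ^ L) ^ 4 / (2 ^ 14) ^ L)) by
            rw [mul_comm 2 (((2 : ℝ) ^ L) ^ 4)]
            rw [mul_div_mul_right _ _ (two_ne_zero)]]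
        rw [← pow_mul, mul_comm L 4, pow_mul, ← div_pow, ← mul_pow, ← mul_pow]; norm_num
  have e3 : (n : ℝ) * ((k : ℝ) * (2 ^ (20 * L) * 3 ^ (4 * L) / 3 ^ (20 * L))) ≤ (1 / 10) ^ L := by
    calc (n : ℝ) * ((k : ℝ) * (2 ^ (20 * L) * 3 ^ (4 * L) / 3 ^ (20 * L)))
        ≤ 2 ^ L * (2 ^ L * (2 ^ (20 * L) * 3 ^ (4 * L) / 3 ^ (20 * L))) := by gcongr
      _ = (2 ^ 22 * 3 ^ 4 / 3 ^ 20) ^ L := by
        rw [pow_mul, pow_mul, pow_mul, ← mul_pow, ← div_pow, ← mul_pow, ← mul_pow]; norm_num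
      _ ≤ (1 / 10) ^ L := by
        apply pow_le_pow_left₀ (by positivity); norm_num
  have e4 : (n : ℝ) * (2 * (k : ℝ) ^ 4 * (2 ^ (60 * L) * 3 ^ (14 * L + 1) / 3 ^ (60 * L))) ≤
      6 * (1 / 100) ^ L := by
    calc (n : ℝ) * (2 * (k : ℝ) ^ 4 * (2 ^ (60 * L) * 3 ^ (14 * L + 1) / 3 ^ (60 * L)))
        ≤ 2 ^ L * (2 * (2 ^ L) ^ 4 * (2 ^ (60 * L) * 3 ^ (14 * L + 1) / 3 ^ (60 * L))) := by
          gcongr
      _ = 6 * (2 ^ 65 * 3 ^ 14 / 3 ^ 60) ^ L := by
        rw [pow_succ (3 : ℝ) (14 * L)]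
        rw [show (2 : ℝ) ^ L * (2 * (2 ^ L) ^ 4 * (2 ^ (60 * L) * (3 ^ (14 * L) * 3) /
            3 ^ (60 * L))) = 6 * (2 ^ L * ((2 ^ L) ^ 4 * (2 ^ (60 * L) * 3 ^ (14 * L) /
            3 ^ (60 * L)))) by ring]
        rw [← pow_mul, mul_comm L 4, pow_mul, pow_mul 2 60 L, pow_mul 3 14 L, pow_mul 3 60 L,
          ← mul_pow, ← div_pow, ← mul_pow, ← mul_pow]
        norm_num
      _ ≤ 6 * (1 / 100) ^ L := by
        apply mul_le_mul_of_nonneg_left _ (by norm_num)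
        apply pow_le_pow_left₀ (by positivity)
        norm_num
  have f1 : ((1 : ℝ) / 2) ^ L ≤ (1 / 2) ^ 2 := pow_le_pow_of_le_one (by norm_num) (by norm_num) hL
  have f2 : ((1 : ℝ) / 256) ^ L ≤ (1 / 256) ^ 2 :=
    pow_le_pow_of_le_one (by norm_num) (by norm_num) hL
  have f3 : ((1 : ℝ) / 10) ^ L ≤ (1 / 10) ^ 2 :=
    pow_le_pow_of_le_one (by norm_num) (by norm_num) hL
  have f4 : ((1 : ℝ) / 100) ^ L ≤ (1 / 100) ^ 2 :=
    pow_le_pow_of_le_one (by norm_num) (by norm_num) hL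
  have : (n : ℝ) * ((k : ℝ) * ((k : ℝ) / 2 ^ (4 * L) + 2 * (k : ℝ) ^ 4 / 2 ^ (14 * L + 1)) +
      ((k : ℝ) * (2 ^ (20 * L) * 3 ^ (4 * L) / 3 ^ (20 * L)) +
        2 * (k : ℝ) ^ 4 * (2 ^ (60 * L) * 3 ^ (14 * L + 1) / 3 ^ (60 * L)))) =
      (n : ℝ) * ((k : ℝ) * ((k : ℝ) / 2 ^ (4 * L))) +
      (n : ℝ) * ((k : ℝ) * (2 * (k : ℝ) ^ 4 / 2 ^ (14 * L + 1))) +
      (n : ℝ) * ((k : ℝ) * (2 ^ (20 * L) * 3 ^ (4 * L) / 3 ^ (20 * L))) +
      (n : ℝ) * (2 * (k : ℝ) ^ 4 * (2 ^ (60 * L) * 3 ^ (14 * L + 1) / 3 ^ (60 * L))) := by ring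
  rw [this]
  norm_num at f1 f2 f3 f4 e1 e2 e3 e4 ⊢
  linarith

/-- the type of the roots -/
abbrev RR (L : ℕ) : Type := Fin (20 * L) ⊕ Fin (60 * L)

theorem card_not_full_sum (n₁ L : ℕ) (hL : 2 ≤ L) (hn : n₁ + 80 * L ≤ 2 ^ L) :
    ((n₁ + 80 * L : ℕ) : ℝ) * (((Finset.univ : Finset (SimpleGraph (Fin n₁ ⊕
      (Fin (20 * L) ⊕ Fin (60 * L))))).filter
      (fun K => ¬ Full K (Set.range Sum.inr))).card : ℝ) ≤
      (Fintype.card (SimpleGraph (Fin n₁ ⊕ (Fin (20 * L) ⊕ Fin (60 * L)))) : ℝ) := by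
  have hRc0 : Fintype.card (Fin (20 * L) ⊕ Fin (60 * L)) = 80 * L := by
    rw [Fintype.card_sum, Fintype.card_fin, Fintype.card_fin]; ring
  have hcg : ((Finset.univ : Finset (SimpleGraph (Fin n₁ ⊕
      (Fin (20 * L) ⊕ Fin (60 * L))))).filter
      (fun K => ¬ Full K (Set.range Sum.inr))).card =
      ∑ G : SimpleGraph (Fin n₁), ∑ H : SimpleGraph (Fin (20 * L) ⊕ Fin (60 * L)),
        ((Finset.univ : Finset ((Fin (20 * L) ⊕ Fin (60 * L)) → Fin n₁ → Bool)).filter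
          (fun b => ¬ Full (glue G b H) (Set.range Sum.inr))).card := by
    convert card_filter_glue (V := Fin n₁) (R := Fin (20 * L) ⊕ Fin (60 * L))
      (fun K => ¬ Full K (Set.range Sum.inr)) using 6
  rw [hcg]
  clear hcg
  set ε₁ : ℝ := (n₁ : ℝ) * ((n₁ : ℝ) / 2 ^ (4 * L) + 2 * (n₁ : ℝ) ^ 4 / 2 ^ (14 * L + 1))
    with hε₁
  set ε₂ : ℝ := ((n₁ : ℝ) * (2 ^ (20 * L) * 3 ^ (4 * L) / 3 ^ (20 * L)) +
        2 * (n₁ : ℝ) ^ 4 * (2 ^ (60 * L) * 3 ^ (14 * L + 1) / 3 ^ (60 * L))) with hε₂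
  have hε₂0 : 0 ≤ ε₂ := by positivity
  have hnum : ((n₁ + 80 * L : ℕ) : ℝ) * (ε₁ + ε₂) ≤ 1 :=
    num2 n₁ (n₁ + 80 * L) L hL hn (by omega)
  have hrec := card_not_multOK_le n₁ (4 * L) (14 * L) (by omega)
    (num1 n₁ L hL (by omega))
  rw [← hε₁] at hrec
  -- the bound for one `G`
  set T : ℝ := 2 ^ (n₁ * (80 * L)) with hT
  have hb : ∀ G : SimpleGraph (Fin n₁), ∀ H : SimpleGraph (RR L),
      (((Finset.univ : Finset (RR L → Fin n₁ → Bool)).filter
        (fun b => ¬ Full (glue G b H) (Set.range Sum.inr))).card : ℝ) ≤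
      T * ((if ¬ MultOK (4 * L) (14 * L + 1) G then 1 else 0) + ε₂) := by
    intro G H
    by_cases hG : MultOK (4 * L) (14 * L + 1) G
    · rw [if_neg (by simpa using hG), zero_add]
      have h1 := card_final_le (4 * L) (14 * L) (20 * L) (60 * L) G hG
      rw [Fintype.card_fin, ← hε₂, show 20 * L + 60 * L = 80 * L by ring, ← hT] at h1
      refine le_trans ?_ h1
      have hsub : ((Finset.univ : Finset (RR L → Fin n₁ → Bool)).filter
          (fun b => ¬ Full (glue G b H) (Set.range Sum.inr))) ⊆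
          ((Finset.univ : Finset (RR L → Fin n₁ → Bool)).filter
          (fun b => ¬ ∀ (p : ℕ) [Fact p.Prime], CtlP p G b)) := by
        intro b hb
        rw [Finset.mem_filter] at hb ⊢
        refine ⟨hb.1, fun h => hb.2 (full_glue G b H h)⟩
      exact_mod_cast Finset.card_le_card hsub
    · rw [if_pos (by simpa using hG)]
      have h1 : (((Finset.univ : Finset (RR L → Fin n₁ → Bool)).filter
        (fun b => ¬ Full (glue G b H) (Set.range Sum.inr))).card : ℝ) ≤ T := by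
        have h2 : ((Finset.univ : Finset (RR L → Fin n₁ → Bool)).filter
          (fun b => ¬ Full (glue G b H) (Set.range Sum.inr))).card ≤
          2 ^ (n₁ * (80 * L)) := by
          refine le_trans (Finset.card_filter_le _ _) ?_
          rw [Finset.card_univ, Fintype.card_fun, Fintype.card_fun, Fintype.card_bool,
            Fintype.card_fin, hRc0, ← pow_mul]
        rw [hT]
        exact_mod_cast h2
      have hT0 : 0 ≤ T := by positivity
      nlinarith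
  push_cast
  have hsum : (∑ G : SimpleGraph (Fin n₁), ∑ H : SimpleGraph (RR L),
      (((Finset.univ : Finset (RR L → Fin n₁ → Bool)).filter
        (fun b => ¬ Full (glue G b H) (Set.range Sum.inr))).card : ℝ)) ≤
      (Fintype.card (SimpleGraph (RR L)) : ℝ) * (T * ((Fintype.card (SimpleGraph (Fin n₁)) : ℝ) *
        (ε₁ + ε₂))) := by
    calc _ ≤ ∑ G : SimpleGraph (Fin n₁), ∑ H : SimpleGraph (RR L),
          T * ((if ¬ MultOK (4 * L) (14 * L + 1) G then 1 else 0) + ε₂) :=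
          Finset.sum_le_sum fun G _ => Finset.sum_le_sum fun H _ => hb G H
      _ = (Fintype.card (SimpleGraph (RR L)) : ℝ) * (T * ((((Finset.univ : Finset (SimpleGraph
            (Fin n₁))).filter (fun G => ¬ MultOK (4 * L) (14 * L + 1) G)).card : ℝ) +
            (Fintype.card (SimpleGraph (Fin n₁)) : ℝ) * ε₂)) := by
          simp only [Finset.sum_const, Finset.card_univ, nsmul_eq_mul]
          rw [← Finset.mul_sum, ← Finset.mul_sum, Finset.sum_add_distrib, Finset.sum_boole,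
            Finset.sum_const, Finset.card_univ, nsmul_eq_mul]
      _ ≤ _ := by
          have hT0 : 0 ≤ T := by positivity
          have hR0 : (0 : ℝ) ≤ (Fintype.card (SimpleGraph (RR L)) : ℝ) := Nat.cast_nonneg _
          apply mul_le_mul_of_nonneg_left _ hR0
          apply mul_le_mul_of_nonneg_left _ hT0
          linarith
  have htot : (Fintype.card (SimpleGraph (Fin n₁ ⊕ RR L)) : ℝ) =
      (Fintype.card (SimpleGraph (RR L)) : ℝ) * (T * (Fintype.card (SimpleGraph (Fin n₁)) : ℝ)) := by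
    rw [card_graph_sum, Fintype.card_fin, hRc0, hT]
    push_cast
    ring
  rw [htot]
  have hA : (0 : ℝ) ≤ (Fintype.card (SimpleGraph (RR L)) : ℝ) *
      (T * (Fintype.card (SimpleGraph (Fin n₁)) : ℝ)) := by positivity
  have hN : (0 : ℝ) ≤ (n₁ : ℝ) + 80 * L := by positivity
  calc ((n₁ : ℝ) + 80 * L) * _ ≤ ((n₁ : ℝ) + 80 * L) * ((Fintype.card (SimpleGraph (RR L)) : ℝ) *
        (T * ((Fintype.card (SimpleGraph (Fin n₁)) : ℝ) * (ε₁ + ε₂)))) :=
        mul_le_mul_of_nonneg_left hsum hN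
    _ = ((Fintype.card (SimpleGraph (RR L)) : ℝ) * (T * (Fintype.card (SimpleGraph (Fin n₁)) : ℝ))) *
        (((n₁ : ℝ) + 80 * L) * (ε₁ + ε₂)) := by ring
    _ ≤ ((Fintype.card (SimpleGraph (RR L)) : ℝ) * (T * (Fintype.card (SimpleGraph (Fin n₁)) : ℝ))) *
        1 := by
        apply mul_le_mul_of_nonneg_left _ hA
        push_cast at hnum
        exact hnum
    _ = _ := mul_one _

theorem full_simpleGraph {V W : Type*} [Fintype V] [Fintype W] [DecidableEq V] [DecidableEq W]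
    (e : V ≃ W) (G : SimpleGraph V) (R : Set V) :
    Full G R ↔ Full (e.simpleGraph G) (e '' R) := by
  let φ : G ≃g e.simpleGraph G := ⟨e, by intro a b; simp [Equiv.simpleGraph]⟩
  exact full_iso φ R

theorem card_not_full (n : ℕ) (hn : 5 ≤ n) (R : Finset (Fin n)) (hR : 80 * Nat.clog 2 n ≤ R.card) :
    (n : ℝ) * (((Finset.univ : Finset (SimpleGraph (Fin n))).filter
      (fun G => ¬ Full G (R : Set (Fin n)))).card : ℝ) ≤
      (Fintype.card (SimpleGraph (Fin n)) : ℝ) := by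
  set L := Nat.clog 2 n with hLdef
  have hnL : n ≤ 2 ^ L := Nat.le_pow_clog (by norm_num) n
  have hL : 2 ≤ L := by
    by_contra h
    have : L ≤ 1 := by omega
    have h2 : 2 ^ L ≤ 2 ^ 1 := Nat.pow_le_pow_right (by norm_num) this
    omega
  obtain ⟨R', hR'R, hR'c⟩ := Finset.exists_subset_card_eq hR
  have hRn : R'.card ≤ n := by
    have := Finset.card_le_univ R'
    rwa [Fintype.card_fin] at this
  obtain ⟨n₁, hn₁⟩ : ∃ n₁, n = n₁ + 80 * L := ⟨n - 80 * L, by omega⟩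
  -- the equivalence
  have e1 : {v : Fin n // v ∈ R'} ≃ Fin (20 * L) ⊕ Fin (60 * L) := by
    apply Fintype.equivOfCardEq
    rw [Fintype.card_coe, hR'c, Fintype.card_sum, Fintype.card_fin, Fintype.card_fin]
    ring
  have e2 : {v : Fin n // v ∉ R'} ≃ Fin n₁ := by
    apply Fintype.equivOfCardEq
    rw [Fintype.card_subtype_compl, Fintype.card_coe, Fintype.card_fin, Fintype.card_fin, hR'c]
    omega
  let e : Fin n ≃ Fin n₁ ⊕ (Fin (20 * L) ⊕ Fin (60 * L)) :=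
    ((Equiv.sumCompl (fun v : Fin n => v ∈ R')).symm.trans (Equiv.sumComm _ _)).trans
      (Equiv.sumCongr e2 e1)
  have he : e '' (R' : Set (Fin n)) = Set.range Sum.inr := by
    ext w
    constructor
    · rintro ⟨v, hv, rfl⟩
      have hv' : v ∈ R' := hv
      refine ⟨e1 ⟨v, hv'⟩, ?_⟩
      simp only [e, Equiv.trans_apply]
      rw [Equiv.sumCompl_symm_apply_of_pos (p := fun v : Fin n => v ∈ R') hv']
      rfl
    · rintro ⟨r, rfl⟩
      refine ⟨(e1.symm r : Fin n), (e1.symm r).2, ?_⟩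
      simp only [e, Equiv.trans_apply]
      rw [Equiv.sumCompl_symm_apply_of_pos (p := fun v : Fin n => v ∈ R') (e1.symm r).2]
      simp
  have hcard : ((Finset.univ : Finset (SimpleGraph (Fin n))).filter
      (fun G => ¬ Full G (R' : Set (Fin n)))).card =
      ((Finset.univ : Finset (SimpleGraph (Fin n₁ ⊕
      (Fin (20 * L) ⊕ Fin (60 * L))))).filter
      (fun K => ¬ Full K (Set.range Sum.inr))).card := by
    apply Finset.card_bij (fun G _ => e.simpleGraph G)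
    · intro G hG
      rw [Finset.mem_filter] at hG ⊢
      refine ⟨Finset.mem_univ _, fun h => hG.2 ?_⟩
      rw [full_simpleGraph e G, he]
      exact h
    · intro G _ H _ h
      exact e.simpleGraph.injective h
    · intro K hK
      refine ⟨e.simpleGraph.symm K, ?_, by simp⟩
      rw [Finset.mem_filter] at hK ⊢
      refine ⟨Finset.mem_univ _, fun h => hK.2 ?_⟩
      rw [full_simpleGraph e, he, Equiv.apply_symm_apply] at h
      exact h
  have hsub : ((Finset.univ : Finset (SimpleGraph (Fin n))).filter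
      (fun G => ¬ Full G (R : Set (Fin n)))).card ≤
      ((Finset.univ : Finset (SimpleGraph (Fin n))).filter
      (fun G => ¬ Full G (R' : Set (Fin n)))).card := by
    apply Finset.card_le_card
    intro G hG
    rw [Finset.mem_filter] at hG ⊢
    exact ⟨hG.1, fun h => hG.2 (full_mono (by exact_mod_cast hR'R) h)⟩
  have hcg : Fintype.card (SimpleGraph (Fin n)) =
      Fintype.card (SimpleGraph (Fin n₁ ⊕ (Fin (20 * L) ⊕ Fin (60 * L)))) :=
    Fintype.card_congr e.simpleGraph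
  have hmain := card_not_full_sum n₁ L hL (by omega)
  rw [← hcard, ← hcg, ← hn₁] at hmain
  refine le_trans ?_ hmain
  exact mul_le_mul_of_nonneg_left (by exact_mod_cast hsub) (Nat.cast_nonneg _)

end Pool.Agent.H66.SP
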