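import Pool.Agent.H66.SP.Defs

/-!
# SP-17: deleting vertices and isolating vertices

`isol G S` is `G` without the edges meeting `S`.  Its adjacency matrix is, after reindexing by
`V ≃ {v // v ∉ S} ⊕ {v // v ∈ S}`, block diagonal with blocks `(adj ℤ G).submatrix val val` and `0`,
so `(adj ℤ (isol G S)).charpoly = cp G S * X ^ S.card` (`Matrix.charpoly_reindex`,
`Matrix.charpoly_fromBlocks_zero₁₂`, `Matrix.charpoly_zero`).
-/

set_option autoImplicit false

namespace Pool.Agent.H66.SP

open Matrix Classical Polynomial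

/-- `G` without the edges meeting `S` -/
def isol {V : Type*} (G : SimpleGraph V) (S : Finset V) : SimpleGraph V where
  Adj u v := G.Adj u v ∧ u ∉ S ∧ v ∉ S
  symm := ⟨fun _ _ h => ⟨G.adj_symm h.1, h.2.2, h.2.1⟩⟩
  loopless := ⟨fun u h => G.loopless.irrefl u h.1⟩

theorem charpoly_isol {V : Type*} [Fintype V] [DecidableEq V] (G : SimpleGraph V)
    (S : Finset V) : (adj ℤ (isol G S)).charpoly = cp G S * X ^ S.card := by
  let e : V ≃ {v : V // v ∉ S} ⊕ {v : V // v ∈ S} :=
    (Equiv.sumCompl (fun v : V => v ∈ S)).symm.trans (Equiv.sumComm _ _)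
  have he1 : ∀ u : {v : V // v ∉ S}, e.symm (Sum.inl u) = u.1 := by
    intro u
    rfl
  have he2 : ∀ u : {v : V // v ∈ S}, e.symm (Sum.inr u) = u.1 := by
    intro u
    rfl
  rw [← Matrix.charpoly_reindex e]
  have h : Matrix.reindex e e (adj ℤ (isol G S)) =
      Matrix.fromBlocks ((adj ℤ G).submatrix (Subtype.val : {v : V // v ∉ S} → V) Subtype.val)
        0 0 (0 : Matrix {v : V // v ∈ S} {v : V // v ∈ S} ℤ) := by
    ext x y
    rcases x with u | u <;> rcases y with v | v
    · simp only [Matrix.reindex_apply, Matrix.submatrix_apply, he1, Matrix.fromBlocks_apply₁₁,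
        adj, Matrix.of_apply, isol]
      simp [u.2, v.2]
    · simp only [Matrix.reindex_apply, Matrix.submatrix_apply, he1, he2, Matrix.fromBlocks_apply₁₂,
        adj, Matrix.of_apply, isol]
      simp [u.2, v.2]
    · simp only [Matrix.reindex_apply, Matrix.submatrix_apply, he1, he2, Matrix.fromBlocks_apply₂₁,
        adj, Matrix.of_apply, isol]
      simp [u.2, v.2]
    · simp only [Matrix.reindex_apply, Matrix.submatrix_apply, he2, Matrix.fromBlocks_apply₂₂,
        adj, Matrix.of_apply, isol]
      simp [u.2, v.2]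
  rw [h, Matrix.charpoly_fromBlocks_zero₁₂]
  have h0 : (0 : Matrix {v : V // v ∈ S} {v : V // v ∈ S} ℤ).charpoly = X ^ S.card := by
    rw [Matrix.charpoly_zero]
    simp
  rw [h0]
  rfl

end Pool.Agent.H66.SP
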